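import Pool.Agent.P.MP_b91a16_ag.Defs

/-!
The multi-variable motivic zeta function of a tuple of polynomials and its Bernstein-Sato ideal.
-/

namespace Pool.Agent.P.MP_b91a16_ag

noncomputable section

/-- The `j`-th coordinate `a_{j,0} + a_{j,1} t + ⋯ + a_{j,d} t^d` of the universal `d`-jet of
affine `n`-space. -/
def mjet (k : Type) [Field k] (n d : ℕ) (j : Fin n) :
    Polynomial (MvPolynomial (Fin n × Fin (d + 1)) k) :=
  ∑ p : Fin (d + 1), Polynomial.monomial p.1 (MvPolynomial.X (j, p))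

/-- The coefficient of `t^p` in `f(ψ)`, for the universal `d`-jet `ψ`. -/
def mcoeff {k : Type} [Field k] {n : ℕ} (f : MvPolynomial (Fin n) k) (d p : ℕ) :
    MvPolynomial (Fin n × Fin (d + 1)) k :=
  (MvPolynomial.aeval (mjet k n d) f).coeff p

/-- The ideal of the closed set of `d`-jets `ψ` with `ord_t f_l(ψ) ≥ m_l` for all `l`. -/
def mideal {k : Type} [Field k] {n r : ℕ} (F : Fin r → MvPolynomial (Fin n) k)
    (m : Fin r →₀ ℕ) (d : ℕ) : Ideal (MvPolynomial (Fin n × Fin (d + 1)) k) :=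
  Ideal.span {g | ∃ l p, p < m l ∧ g = mcoeff (F l) d p}

/-- The class in `K₀(Var_k)` of the variety `X_m` of `d`-jets `ψ` of affine `n`-space with
`ord_t f_l(ψ) = m_l` for all `l`. -/
def mclass {k : Type} [Field k] {n r : ℕ} (F : Fin r → MvPolynomial (Fin n) k)
    (m : Fin r →₀ ℕ) (d : ℕ) : K0 k :=
  cls k (Localization.Away
    (Ideal.Quotient.mk (mideal F m d) (∏ l, mcoeff (F l) d (m l))))

/-- The multi-variable motivic zeta function `Z_F(T) = ∑_m [X_m] L^{-|m| n} T^m`, where `X_m` is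
taken in the `|m|`-jets, `|m| = ∑ m_l`. -/
def mzeta {k : Type} [Field k] {n r : ℕ} (F : Fin r → MvPolynomial (Fin n) k) :
    MvPowerSeries (Fin r) (Mot k) :=
  fun m => algebraMap (K0 k) (Mot k) (mclass F m (∑ l, m l)) * Linv k ^ ((∑ l, m l) * n)

/-- `Z` lies in the subring `M[T, 1/(1 - x^ν T^N)]_{(ν,N) ∈ S}` of `M[[T_1, …, T_r]]`. -/
def InPoleRingM {M : Type 1} [CommRing M] {r : ℕ} (x : M) (S : Finset (ℕ × (Fin r → ℕ)))
    (Z : MvPowerSeries (Fin r) M) : Prop :=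
  Z ∈ Algebra.adjoin M (Set.range MvPowerSeries.X ∪
    {g | ∃ p ∈ S, g * (1 - MvPowerSeries.C (x ^ p.1) * ∏ l, MvPowerSeries.X l ^ p.2 l) = 1})

/-- `b` lies in the Bernstein-Sato ideal of `F`: `b(s) ∏ f_l^{s_l} = P(s) ∏ f_l^{s_l + 1}` for some
`P(s) = ∑ c_i(s) P_i` in `D[s_1, …, s_r]`, as an identity of polynomials at every `s = m ∈ ℕ^r`. -/
def InBSIdeal {k : Type} [Field k] {n r : ℕ} (F : Fin r → MvPolynomial (Fin n) k)
    (b : MvPolynomial (Fin r) k) : Prop :=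
  ∃ (d : ℕ) (c : Fin d → MvPolynomial (Fin r) k)
    (P : Fin d → Module.End k (MvPolynomial (Fin n) k)), (∀ i, P i ∈ weyl k n) ∧
    ∀ m : Fin r → ℕ, ∑ i, MvPolynomial.eval (fun l => (m l : k)) (c i) • P i (∏ l, F l ^ (m l + 1)) =
      MvPolynomial.eval (fun l => (m l : k)) b • ∏ l, F l ^ m l

end

end Pool.Agent.P.MP_b91a16_ag
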