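import Pool.Agent.P.MP_b91a16_ag.Ln.Core
import Pool.Agent.P.MP_b91a16_ag.Tu.Defs0

/-! Tuples of polynomials of degree at most one in separate blocks of variables: objects and
statements (interface file). -/

open MvPolynomial

namespace Pool.Agent.P.MP_b91a16_ag.Id.Ln.Tu

noncomputable section

section Objects

variable {k ι ρ ρ' τ : Type} [Field k] [Fintype ι] [Fintype ρ] [DecidableEq ρ] [Fintype ρ']

/-- The status of a block: some coefficient of a variable `y_i` has a nonzero leading term. -/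
def ΞT (β : ι → ρ) (s : ρ → Bool) : Pred k (ι ⊕ ρ) := fun _ _ _ x =>
  ∀ j, s j = true ↔ ∃ i, β i = j ∧ x (.inl i) ≠ 0

variable (k) in
def dT (j : ρ) : MvPowerSeries ρ (Mot k) := 1 - MvPowerSeries.C (Linv k) * MvPowerSeries.X j

variable (k) in
def WT (J : Finset ρ) (s : ρ → Bool) : MvPowerSeries ρ (Mot k) :=
  ∏ j, if s j = true then MvPowerSeries.C (1 - Linv k) else if j ∈ J then dT k j else 1

/-- The `j`-th polynomial along an arc of the total space. -/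
def GT (g : ι ⊕ ρ → P2 k) (β : ι → ρ) (j : ρ) {R : Type} [CommRing R] [Algebra k R]
    (γ : Fin 2 ⊕ ι → PowerSeries R) : PowerSeries R :=
  aeval (fun a => γ (.inl a)) (g (.inr j)) +
    ∑ i with β i = j, γ (.inr i) * aeval (fun a => γ (.inl a)) (g (.inl i))

def OT (g : ι ⊕ ρ → P2 k) (β : ι → ρ) (j : ρ) (e : ℕ) : AP k (Fin 2 ⊕ ι) := fun _ _ _ γ =>
  (GT g β j γ).order = e

/-- The block `j` has order `e` and status `s`. -/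
def BT (g : ι ⊕ ρ → P2 k) (β : ι → ρ) (j : ρ) (e : ℕ) (s : Bool) : AP k (Fin 2 ⊕ ι) :=
  fun _ _ _ γ =>
    ((∀ l, bp β l = j → PowerSeries.X ^ e ∣ aeval (fun a => γ (.inl a)) (g l)) ∧
      ∃ l, bp β l = j ∧ ¬PowerSeries.X ^ (e + 1) ∣ aeval (fun a => γ (.inl a)) (g l)) ∧
    (s = true ↔ ∃ i, β i = j ∧
      PowerSeries.coeff e (aeval (fun a => γ (.inl a)) (g (.inl i))) ≠ 0)

/-- `P` does not depend on the variables of the block `j`. -/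
def Fr (β : ι → ρ) (j : ρ) (P : AP k (Fin 2 ⊕ ι)) : Prop :=
  ∀ (K : Type) [Field K] [Algebra k K] (γ γ' : Fin 2 ⊕ ι → PowerSeries K),
    (∀ a, γ (.inl a) = γ' (.inl a)) → (∀ i, β i ≠ j → γ (.inr i) = γ' (.inr i)) → P K γ → P K γ'

/-- Arcs that start in `Q`. -/
def At (Q : Pred k (Fin 2)) : AP k (Fin 2) := fun K _ _ γ =>
  Q K fun a => PowerSeries.constantCoeff (γ a)

def Pt (b : Fin 2 → k) : Pred k (Fin 2) := fun K _ _ x => x = fun a => algebraMap k K (b a)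

def Vz (G : P2 k) (B : Finset (Fin 2 → k)) : Pred k (Fin 2) := fun K _ _ x =>
  aeval x G = 0 ∧ ∀ b ∈ B, ¬Pt b K x

def Uz (G : P2 k) (B : Finset (Fin 2 → k)) : Pred k (Fin 2) := fun K _ _ x =>
  aeval x G ≠ 0 ∧ ∀ b ∈ B, ¬Pt b K x

def tl (b : Fin 2 → k) : Fin 2 → P2 k := fun a => X a + C (b a)

def Gd (J : Finset ρ) (A : Set (ℕ × (ρ → ℕ))) (f : ι ⊕ ρ → P2 k) (β : ι → ρ)
    (Ψ : AP k (Fin 2)) : Prop :=
  ∃ Z, Ok (WT k J) A Z ∧ GA β (ΞT β) Ψ f Z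

/-- The twisted equations at the base point `y`, for the exponents `sb` and the value `c`. -/
def Tw4 (g : ι ⊕ ρ → P2 k) (β : ι → ρ) (y : ι → k) (sb : ρ → ℚ) (c : k) : Prop :=
  ∀ (Λ₀ Λ₁ : Type) [Fintype Λ₀] [Fintype Λ₁] (blk : Λ₀ → ρ) (lam : Λ₀ → ι → k) (act : Λ₁ → ρ)
    (s : Λ₀ ⊕ Λ₁ → ℚ), Function.Injective act → (∀ l i, lam l i ≠ 0 → β i = blk l) →
    (∀ l l₁, blk l = act l₁ → ∀ n : ℕ, s (.inr l₁) ≠ -(n + 1)) →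
    (∀ j, ∑ l with Sum.elim blk act l = j, s l = sb j) →
    TwAt g (bp β) (Sum.elim (fun l => lc g (lam l)) fun l₁ => bm g β y (act l₁))
      (Sum.elim blk act) s (bm g β y) ∅ (∀ j, (∀ l₁, act l₁ ≠ j) → sb j ≠ -1) 1 c

def Alw4 (g : ι ⊕ ρ → P2 k) (β : ι → ρ) : Set (ℕ × (ρ → ℕ)) :=
  {p | 0 < p.1 ∧ p.2 ≠ 0 ∧ ∀ (s : ρ → ℚ) (c : k), (∀ y, Tw4 g β y s c) → (∀ j, s j < 0) →
    ∑ j, (p.2 j : ℚ) * s j + p.1 = 0 → c = 0}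

/-- The Bernstein-Sato equation of the products `∏_j G_j^(M l j)`. -/
def BEq4 {n : ℕ} (G : ρ → MvPolynomial (Fin n) k) (M : ρ' → ρ → ℕ) (b : MvPolynomial ρ' k) :
    Prop :=
  ∃ (d : ℕ) (c : Fin d → MvPolynomial ρ' k) (P : Fin d → Module.End k (MvPolynomial (Fin n) k)),
    (∀ i, P i ∈ weyl k n) ∧ ∀ m : ρ' → ℕ,
      ∑ i, eval (fun l => (m l : k)) (c i) • P i (∏ j, G j ^ (∑ l, m l * M l j + 1)) =
        eval (fun l => (m l : k)) b • ∏ j, G j ^ ∑ l, m l * M l j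

end Objects

variable (k ι ρ ρ' : Type) [Field k] [Fintype ι] [Fintype ρ] [DecidableEq ρ] [Fintype ρ']
  [DecidableEq ρ']

/-! ### Package A -/

def S_blk : Prop := ∀ (g : ι ⊕ ρ → P2 k) (β : ι → ρ) (j : ρ) (P : AP k (Fin 2 ⊕ ι))
  (z : Bool → ℕ → Mot k), Fr β j P → (∀ s e, AV (An P (BT g β j e s)) (z s e)) →
  ∀ e, AV (An P (OT g β j e))
    (z false e + ∑ e' ∈ Finset.range (e + 1), (1 - Linv k) * Linv k ^ (e - e') * z true e')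

/-! ### Package B -/

def S_totT : Prop := ∀ (J : Finset ρ) (g : ι ⊕ ρ → P2 k) (β : ι → ρ) (Ψ : AP k (Fin 2))
  (Z : (ρ → Bool) → MvPowerSeries ρ (Mot k)), (∀ i, g (.inl i) ≠ 0 → β i ∈ J) →
  GA β (ΞT β) Ψ g Z → ∃ Y : MvPowerSeries ρ (Mot k),
    (∀ e : ρ →₀ ℕ, AV (k := k) (τ := Fin 2 ⊕ ι)
      (fun K _ _ γ => Ψ K (fun a => γ (.inl a)) ∧ ∀ j, OT g β j (e j) K γ)
      (MvPowerSeries.coeff e Y)) ∧
    Y * ∏ j ∈ J, dT k j = ∑ s, WT k J s * Z s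

/-! ### Package C -/

def S_elimT : Prop := ∀ (g : ι ⊕ ρ → P2 k) (β : ι → ρ) (a : ρ → ℕ) (j : ρ) (Jf : ℕ → ℕ) (i e : ℕ),
  El False g β a j Jf → 0 < i →
  AV (An (fun _ _ _ γ => (γ (.inl 0)).order = i ∧ (Jf i : ℕ∞) ≤ (γ (.inl 1)).order) (OT g β j e))
    (if a j * i + Jf i ≤ e then (1 - Linv k) ^ 2 * Linv k ^ (i + (e - a j * i)) else 0)

/-! ### Package D -/

def S_fakeT : Prop := ∀ (J : Finset ρ) (β : ι → ρ), S_fake k ι ρ False (J : Set ρ) β (ΞT β) (WT k J)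

/-! ### Package E -/

def S_tw4 : Prop := ∀ (r : ℕ) (f : Fin r ⊕ ρ → P2 k) (β : Fin r → ρ) (M : ρ' → ρ → ℕ)
  (b : MvPolynomial ρ' k), (∀ j, ∃ l, M l j ≠ 0) → BEq4 (gL f β) M b → ∀ s : ρ' → ℚ,
  (∀ l, s l < 0) → ∀ y, Tw4 f β y (fun j => ∑ l, s l * M l j) (eval (fun l => (s l : k)) b)

def S_lat : Prop := ∀ (Λ K : Type) [Fintype Λ] [Field K] [CharZero K] (blk : Λ → ρ)
  (M : ρ' → ρ → ℕ) (R : MvPolynomial (Λ ⊕ ρ') K) (a₀ : Λ → ℕ), (∀ j, ∃ l, M l j ≠ 0) →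
  Function.Surjective blk →
  (∀ (a : Λ → ℕ) (m : ρ' → ℕ), a₀ ≤ a → (∀ j, ∑ l with blk l = j, a l = ∑ l, m l * M l j) →
    eval (Sum.elim (fun l => (a l : K)) fun l => (m l : K)) R = 0) →
  ∀ (s : Λ → ℚ) (s' : ρ' → ℚ), (∀ j, ∑ l with blk l = j, s l = ∑ l, s' l * M l j) →
    eval (Sum.elim (fun l => (s l : K)) fun l => (s' l : K)) R = 0

/-! ### Package F -/

def S_rA4 : Prop := ∀ β : ι → ρ, R_rA (k := k) β fun f => Alw4 f β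

def S_rB4 : Prop := ∀ (J : Set ρ) (β : ι → ρ), R_rB (k := k) False J β fun f => Alw4 f β

/-! ### Package G -/

def S_rBr4 : Prop := ∀ β : ι → ρ, R_rBr (k := k) β fun f => Alw4 f β

def S_rc4 : Prop := ∀ (f h : ι ⊕ ρ → P2 k) (β : ι → ρ) (P : P2 k) (m : ρ → ℕ), Prime P →
  (∀ l, f l = P ^ m (bp β l) * h l) → (∀ j, ∃ l, bp β l = j ∧ ¬P ∣ h l) → m ≠ 0 →
  (1, m) ∈ Alw4 f β

def S_neg4 : Prop := ∀ (f : ι ⊕ ρ → P2 k) (β : ι → ρ) (i : ι) (t : ℕ), f (.inl i) ≠ 0 →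
  (∀ j, ∃ l, bp β l = j ∧ f l ≠ 0) → 0 < t → (t, (Pi.single (β i) t : ρ → ℕ)) ∈ Alw4 f β

def S_trn4 : Prop := ∀ (f : ι ⊕ ρ → P2 k) (β : ι → ρ) (b : Fin 2 → k),
  Alw4 (pb (tl b) f) β ⊆ Alw4 f β

/-! ### Package H -/

def S_bez : Prop := ∀ P h : P2 k, Prime P → ¬P ∣ h → ∃ B : Finset (Fin 2 → k),
  ∀ (K : Type) [Field K] [Algebra k K] (x : Fin 2 → K), aeval x P = 0 → aeval x h = 0 →
    ∃ b ∈ B, Pt b K x

def S_pd : Prop := ∀ P : P2 k, Prime P → ∃ a, ¬P ∣ pderiv a P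

def S_mul : Prop := ∀ (f : ι → P2 k) (β : ι → ρ) (P : P2 k), Prime P →
  (∀ j, ∃ l, β l = j ∧ f l ≠ 0) → ∃ (m : ρ → ℕ) (h : ι → P2 k),
    (∀ l, f l = P ^ m (β l) * h l) ∧ ∀ j, ∃ l, β l = j ∧ ¬P ∣ h l

/-! ### Package I -/

def S_conT : Prop := ∀ (β : ι → ρ) (s : ρ → Bool), Con (ΞT (k := k) β s)

def S_cst : Prop := ∀ (Ξ : Pred k ι) (f : ι → P2 k) (β : ι → ρ) (Q : Pred k (Fin 2)) (v : Mot k),
  Con Ξ → AV (At Q) v → (∀ (K : Type) [Field K] [Algebra k K] x, Q K x →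
    ∀ j, ∃ l, β l = j ∧ aeval x (f l) ≠ 0) →
  ∃ w, ∀ e, AV (An (At Q) (Th Ξ f β e)) (MvPowerSeries.coeff e (MvPowerSeries.C w))

def S_atv : Prop := ∀ (G : P2 k) (B : Finset (Fin 2 → k)),
  (∃ v, AV (At (Vz G B)) v) ∧ ∃ v, AV (At (Uz G B)) v

/-! ### Package J -/

def S_crv : Prop := ∀ (A : Set (ℕ × (ρ → ℕ))) (f h : ι ⊕ ρ → P2 k) (β : ι → ρ) (P : P2 k)
  (m : ρ → ℕ) (Q : Pred k (Fin 2)) (v : Mot k) (s : ρ → Bool), m ≠ 0 → (1, m) ∈ A →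
  (∀ l, f l = P ^ m (bp β l) * h l) → AV (At Q) v →
  (∀ (K : Type) [Field K] [Algebra k K] x, Q K x → aeval x P = 0 ∧
    (∃ a, aeval x (pderiv a P) ≠ 0) ∧ ∀ j, ∃ l, bp β l = j ∧ aeval x (h l) ≠ 0) →
  ∃ Z ∈ PR k A, ∀ e, AV (An (At Q) (Th (ΞT β s) f (bp β) e)) (MvPowerSeries.coeff e Z)

/-! ### Package K -/

def S_cov : Prop := ∀ (J : Finset ρ) (A : Set (ℕ × (ρ → ℕ))) (f : ι ⊕ ρ → P2 k) (β : ι → ρ),
  (∀ j, ∃ l, bp β l = j ∧ f l ≠ 0) → (∀ b, Gd J A f β (At (Pt b))) →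
  (∀ (P : P2 k) (m : ρ → ℕ) (h : ι ⊕ ρ → P2 k), Prime P → (∀ l, f l = P ^ m (bp β l) * h l) →
    (∀ j, ∃ l, bp β l = j ∧ ¬P ∣ h l) → m ≠ 0 → (1, m) ∈ A) →
  Gd J A f β fun _ _ _ _ => True

/-! ### Package L -/

def S_zeta : Prop := ∀ (n t : ℕ) (G : Fin t → MvPolynomial (Fin n) k) (e : Fin t →₀ ℕ),
  AV (k := k) (τ := Fin n) (fun _ _ _ γ => ∀ l, (aeval γ (G l)).order = e l)
    (Linv k ^ n * MvPowerSeries.coeff e (mzeta G))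

def S_lift : Prop := ∀ (r : ℕ) (f : Fin r ⊕ ρ → P2 k) (β : Fin r → ρ) (e : ρ →₀ ℕ) (v : Mot k),
  AV (k := k) (τ := Fin 2 ⊕ Fin r) (fun K _ _ γ => ∀ j, OT f β j (e j) K γ) v →
  AV (k := k) (τ := Fin (2 + r)) (fun _ _ _ γ => ∀ j, (aeval γ (gL f β j)).order = e j) v

def S_pt : Prop := ∀ (Ξ : Pred k ι) (f : ι → P2 k) (β : ι → ρ) (b : Fin 2 → k) (e : ρ →₀ ℕ)
  (v : Mot k), AV (An (Cone k 1 0 0 1) (Th Ξ (pb (tl b) f) β e)) v →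
  AV (An (At (Pt b)) (Th Ξ f β e)) v

/-! ### Package M -/

def S_sub : Prop := ∀ (τ : Type) (F : ρ → MvPolynomial τ k) (M : ρ' → ρ → ℕ)
  (A : Set (ℕ × (ρ → ℕ))) (Y : MvPowerSeries ρ (Mot k)), (∀ j, ∃ l, M l j ≠ 0) → Y ∈ PR k A →
  (∀ e : ρ →₀ ℕ, AV (k := k) (τ := τ) (fun _ _ _ γ => ∀ j, (aeval γ (F j)).order = e j)
    (MvPowerSeries.coeff e Y)) →
  ∃ Y' ∈ PR k ((fun p : ℕ × (ρ → ℕ) => (p.1, fun l => ∑ j, M l j * p.2 j)) '' A),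
    ∀ e : ρ' →₀ ℕ, AV (k := k) (τ := τ)
      (fun _ _ _ γ => ∀ l, (aeval γ (∏ j, F j ^ M l j)).order = e l) (MvPowerSeries.coeff e Y')

/-! ### Package N -/

def S_den : Prop := ∀ (b : MvPolynomial ρ k) (ν : ℕ) (N : ρ → ℕ), 0 < ν → N ≠ 0 →
  (∀ s : ρ → ℚ, (∀ j, s j < 0) → ∑ j, (N j : ℚ) * s j + ν = 0 →
    eval (fun j => (s j : k)) b = 0) →
  ∀ s : ρ → k, ∑ j, (N j : k) * s j + ν = 0 → eval s b = 0

def S_beq : Prop := ∀ (n t : ℕ) (F : ρ → MvPolynomial (Fin n) k) (M : Fin t → ρ → ℕ)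
  (b : MvPolynomial (Fin t) k), (∀ j, ∃ l, M l j ≠ 0) →
  InBSIdeal (fun l => ∏ j, F j ^ M l j) b → BEq4 F M b

def S_fin : Prop := ∀ (t : ℕ) (A : Set (ℕ × (Fin t → ℕ))) (Z : MvPowerSeries (Fin t) (Mot k)),
  Z ∈ PR k A → ∃ S : Finset (ℕ × (Fin t → ℕ)), (∀ p ∈ S, p ∈ A) ∧ InPoleRingM (Linv k) S Z

end

end Pool.Agent.P.MP_b91a16_ag.Id.Ln.Tu
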