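import Pool.Agent.P.MP_b91a16_ag.Tu.Defs
import Pool.Agent.P.MP_b91a16_ag.Ln.Main

/-! Tuples of products of polynomials of degree at most one in separate blocks: the last step. -/

set_option linter.unusedSectionVars false

open MvPolynomial

namespace Pool.Agent.P.MP_b91a16_ag.Id.Ln.Tu

noncomputable section

variable {k ι ρ : Type} [Field k] [CharZero k] [IsAlgClosed k] [Fintype ι] [Fintype ρ]
  [DecidableEq ρ]

theorem dT_mem (A : Set (ℕ × (ρ → ℕ))) (j : ρ) : dT k j ∈ PR k A :=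
  sub_mem (one_mem _) (mul_mem (Subalgebra.algebraMap_mem _ _)
    (Algebra.subset_adjoin (Or.inl ⟨j, rfl⟩)))

theorem WT_mem (J : Finset ρ) (A : Set (ℕ × (ρ → ℕ))) (s : ρ → Bool) : WT k J s ∈ PR k A :=
  prod_mem fun j _ => by
    split_ifs
    exacts [Subalgebra.algebraMap_mem _ _, dT_mem A j, one_mem _]

theorem tl_ne (b : Fin 2 → k) {G : P2 k} (h : G ≠ 0) : aeval (tl b) G ≠ 0 := fun h0 => h (by
  have := congrArg (aeval (tl (-b))) h0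
  rwa [algHom_aeval _ _ X (fun j => by simp [tl]) G, aeval_X_left_apply, map_zero] at this)

theorem global (h1 : S_conT k ι ρ) (h2 : S_fakeT k ι ρ) (h3 : S_rBr4 k ι ρ) (h4 : S_rA4 k ι ρ)
    (h5 : S_rB4 k ι ρ) (h6 : S_neg4 k ι ρ) (h7 : S_trn4 k ι ρ) (h8 : S_pt k (ι ⊕ ρ) ρ)
    (h9 : S_cov k ι ρ) (h10 : S_rc4 k ι ρ) (h11 : S_totT k ι ρ) (f : ι ⊕ ρ → P2 k) (β : ι → ρ)
    (hf : ∀ j, ∃ l, bp β l = j ∧ f l ≠ 0) :
    ∃ Y ∈ PR k (Alw4 f β), ∀ e : ρ →₀ ℕ, AV (k := k) (τ := Fin 2 ⊕ ι)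
      (fun K _ _ γ => ∀ j, OT f β j (e j) K γ) (MvPowerSeries.coeff e Y) := by
  classical
  let J : Finset ρ := Finset.univ.filter fun j => ∃ i, β i = j ∧ f (.inl i) ≠ 0
  let Good : (ι ⊕ ρ → P2 k) → Prop := fun g => (∀ j ∈ J, ∃ i, β i = j ∧ g (.inl i) ≠ 0) ∧
    ∀ j, ∃ l, bp β l = j ∧ g l ≠ 0
  have H : Hyp3 k ι ρ False (J : Set ρ) β (ΞT β) (WT k J) fun g => {p | Good g → p ∈ Alw4 g β} :=
    hyp3 (h1 β) (WT_mem J) (h2 J β)
      (fun g π n m φ a1 a2 a3 a4 a5 _ => h3 β g π n m φ a1 a2 a3 a4 a5)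
      (fun g π n p q z N m a1 a2 a3 a4 a5 a6 a7 a8 _ =>
        h4 β g π n p q z N m a1 a2 a3 a4 a5 a6 a7 a8)
      (fun g π n p q N j a1 a2 a3 a4 a5 a6 a7 _ => h5 J β g π n p q N j a1 a2 a3 a4 a5 a6 a7)
      fun g j hj t ht hg => by
        obtain ⟨i, rfl, hi⟩ := hg.1 j hj
        exact h6 g β i t hi hg.2 ht
  have hJ : ∀ i, f (.inl i) ≠ 0 → β i ∈ J := fun i hi => by simpa [J] using ⟨i, rfl, hi⟩
  obtain ⟨Z, hZ, hG⟩ := h9 J (Alw4 f β) f β hf (fun b => by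
    have hb : Good (pb (tl b) f) := ⟨fun j hj => (Finset.mem_filter.1 hj).2.imp fun i hi =>
      ⟨hi.1, tl_ne b hi.2⟩, fun j => (hf j).imp fun l hl => ⟨hl.1, tl_ne b hl.2⟩⟩
    obtain ⟨Z, a1, a2⟩ := H.core (f := pb (tl b) f) (Ctx.pb ⟨False.elim, hJ⟩ _) hb.2
    refine ⟨Z, Algebra.adjoin_mono (Set.union_subset_union_right _ ?_) a1,
      fun s e => h8 _ f _ b e _ (a2 s e)⟩
    rintro G ⟨p, hp, hG⟩
    exact ⟨p, h7 f β b (hp hb), hG⟩)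
    fun P m h a1 a2 a3 a4 => h10 f h β P m a1 a2 a3 a4
  obtain ⟨Y, a1, a2⟩ := h11 J f β _ Z hJ hG
  have a3 : ∀ j ∈ J, ∃ G ∈ PR k (Alw4 f β), G * dT k j = 1 := fun j hj => by
    obtain ⟨i, rfl, hi⟩ := (Finset.mem_filter.1 hj).2
    have a4 := h6 f β i 1 hi hf one_pos
    obtain ⟨G, a5, a6⟩ := mem_PR_inv (k := k) (N := Pi.single (β i) 1) a4.2.1 a4
    refine ⟨G, a5, ?_⟩
    rwa [Finset.prod_eq_single (β i) (fun j _ h => by simp [h]) (by simp), Pi.single_eq_same,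
      pow_one, pow_one] at a6
  choose! G a4 a5 using a3
  refine ⟨Y, ?_, fun e => (a1 e).congr fun K _ _ γ => by simp⟩
  rw [← mul_one Y, ← Finset.prod_eq_one a5, Finset.prod_mul_distrib, mul_left_comm, a2]
  exact mul_mem (prod_mem a4) hZ

theorem gL_ne {r : ℕ} {f : Fin r ⊕ ρ → P2 k} {β : Fin r → ρ} (h : ∀ j, gL f β j ≠ 0) (j : ρ) :
    ∃ l, bp β l = j ∧ f l ≠ 0 := by
  by_contra h0
  push Not at h0
  refine h j ?_
  rw [gL, h0 (.inr j) rfl, map_zero, zero_add]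
  exact Finset.sum_eq_zero fun i hi => by
    rw [h0 (.inl i) (Finset.mem_filter.1 hi).2, map_zero, mul_zero]

theorem main_of {r t : ℕ} (f : Fin r ⊕ ρ → P2 k) (β : Fin r → ρ) (M : Fin t → ρ → ℕ)
    (hM : ∀ j, ∃ l, M l j ≠ 0)
    (hY : ∃ Y ∈ PR k (Alw4 f β), ∀ e : ρ →₀ ℕ, AV (k := k) (τ := Fin 2 ⊕ Fin r)
      (fun K _ _ γ => ∀ j, OT f β j (e j) K γ) (MvPowerSeries.coeff e Y))
    (h1 : S_lift k ρ) (h2 : S_sub k ρ (Fin t)) (h3 : S_zeta k) (h4 : S_fin k)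
    (h5 : S_den k (Fin t)) (h6 : S_beq k ρ) (h7 : S_tw4 k ρ (Fin t)) :
    ∃ S : Finset (ℕ × (Fin t → ℕ)), InPoleRingM (Linv k) S (mzeta fun l => ∏ j, gL f β j ^ M l j) ∧
      ∀ p ∈ S, 0 < p.1 ∧ p.2 ≠ 0 ∧ ∀ b, InBSIdeal (fun l => ∏ j, gL f β j ^ M l j) b →
        ∀ s : Fin t → k, ∑ l, (p.2 l : k) * s l + (p.1 : k) = 0 → eval s b = 0 := by
  obtain ⟨Y, a1, a2⟩ := hY
  obtain ⟨Y', a3, a4⟩ := h2 _ (gL f β) M _ Y hM a1 fun e => h1 r f β e _ (a2 e)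
  have a5 : (mzeta fun l => ∏ j, gL f β j ^ M l j) =
      MvPowerSeries.C (algebraMap (K0 k) (Mot k) (cls k (Polynomial k)) ^ (2 + r)) * Y' := by
    ext e
    rw [MvPowerSeries.coeff_C_mul, ← (h3 _ _ (fun l => ∏ j, gL f β j ^ M l j) e).unique (a4 e),
      ← mul_assoc, ← mul_pow, L_mul_Linv, one_pow, one_mul]
  obtain ⟨S, a6, a7⟩ := h4 t _ _ (a5 ▸ mul_mem (Subalgebra.algebraMap_mem _ _) a3)
  refine ⟨S, a7, fun p hp => ?_⟩
  obtain ⟨⟨ν, N⟩, ⟨b1, b2, b3⟩, rfl⟩ := a6 p hp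
  have b4 : (fun l => ∑ j, M l j * N j) ≠ 0 := fun h => by
    obtain ⟨j, hj⟩ := Function.ne_iff.1 b2
    obtain ⟨l, hl⟩ := hM j
    exact mul_ne_zero hl hj (Finset.sum_eq_zero_iff.1 (congrFun h l) j (Finset.mem_univ j))
  refine ⟨b1, b4, fun b hb => h5 b ν _ b1 b4 fun s hs e => ?_⟩
  refine b3 _ _ (h7 r f β M b hM (h6 _ t _ M b hM hb) s hs) (fun j => ?_) ?_
  · obtain ⟨l, hl⟩ := hM j
    rw [← neg_pos, ← Finset.sum_neg_distrib]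
    exact Finset.sum_pos' (fun l _ => by
      have := hs l
      rw [← neg_mul]
      exact mul_nonneg (by linarith) (Nat.cast_nonneg _)) ⟨l, Finset.mem_univ l, by
        rw [← neg_mul]
        exact mul_pos (neg_pos.2 (hs l)) (by exact_mod_cast Nat.pos_of_ne_zero hl)⟩
  · rw [← e]
    push_cast
    simp only [Finset.mul_sum, Finset.sum_mul]
    rw [Finset.sum_comm]
    congr 1
    exact Finset.sum_congr rfl fun l _ => Finset.sum_congr rfl fun j _ => by ring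

end

end Pool.Agent.P.MP_b91a16_ag.Id.Ln.Tu
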