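import Pool.Agent.P.MP_b91a16_ag.Tu.Defs
import Pool.Agent.P.MP_b91a16_ag.Ln.QO

/-! Package A: the order of one polynomial in terms of the order and the status of its block. -/

set_option linter.unusedSectionVars false

open MvPolynomial

namespace Pool.Agent.P.MP_b91a16_ag.Id.Ln.Tu

noncomputable section

namespace RA

variable {k ι ρ : Type} [Field k] [Fintype ι] [DecidableEq ρ] (g : ι ⊕ ρ → P2 k) (β : ι → ρ) (j : ρ)

def cG (p : ℕ) : MvPolynomial ((Fin 2 ⊕ ι) × ℕ) k :=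
  PowerSeries.coeff p (GT g β j (ser (X : (Fin 2 ⊕ ι) × ℕ → MvPolynomial ((Fin 2 ⊕ ι) × ℕ) k)))

theorem aeval_cG {K : Type} [CommRing K] [Algebra k K] (x : (Fin 2 ⊕ ι) × ℕ → K) (p : ℕ) :
    aeval x (cG g β j p) = PowerSeries.coeff p (GT g β j (ser x)) := by
  classical
  have h : GT g β j (ser x) =
      PowerSeries.mapAlgHom (aeval x : MvPolynomial ((Fin 2 ⊕ ι) × ℕ) k →ₐ[k] K)
        (GT g β j (ser X)) := by
    simp only [GT, map_add, map_sum, map_mul, QO.map_in, map_ser]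
  rw [h, PowerSeries.mapAlgHom_apply, PowerSeries.coeff_map]
  rfl

theorem ord_iff {K : Type} [Field K] {F : PowerSeries K} {e : ℕ} :
    F.order = e ↔ PowerSeries.X ^ e ∣ F ∧ PowerSeries.coeff e F ≠ 0 := by
  rw [PowerSeries.order_eq_nat, PowerSeries.X_pow_dvd_iff, and_comm]

variable {g β j}

theorem dvd_GT {K : Type} [CommRing K] [Algebra k K] {γ : Fin 2 ⊕ ι → PowerSeries K}
    {F : PowerSeries K} (h : ∀ l, bp β l = j → F ∣ aeval (fun a => γ (.inl a)) (g l)) :
    F ∣ GT g β j γ :=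
  dvd_add (h _ rfl) (Finset.dvd_sum fun i hi => (h (.inl i) (Finset.mem_filter.1 hi).2).mul_left _)

theorem ord_false {K : Type} [Field K] [Algebra k K] {γ : Fin 2 ⊕ ι → PowerSeries K} {e : ℕ}
    (h : BT g β j e false K γ) : (GT g β j γ).order = e := by
  obtain ⟨⟨h1, l, hl, h2⟩, h3⟩ := h
  have h4 : ∀ i, β i = j → PowerSeries.X ^ (e + 1) ∣ aeval (fun a => γ (.inl a)) (g (.inl i)) :=
    fun i hi => dvd_succ_iff.2 ⟨h1 (.inl i) hi, by
      by_contra hne
      exact Bool.false_ne_true (h3.2 ⟨i, hi, hne⟩)⟩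
  refine ord_iff.2 ⟨dvd_GT h1, fun h0 => ?_⟩
  rcases l with i | j'
  · exact h2 (h4 i hl)
  · obtain rfl : j' = j := hl
    exact h2 ((dvd_add_left (Finset.dvd_sum fun i hi =>
      (h4 i (Finset.mem_filter.1 hi).2).mul_left _)).1 (dvd_succ_iff.2 ⟨dvd_GT h1, h0⟩))

theorem BT_le {K : Type} [Field K] [Algebra k K] {γ : Fin 2 ⊕ ι → PowerSeries K} {a b : ℕ}
    {s s' : Bool} (ha : BT g β j a s K γ) (hb : BT g β j b s' K γ) : b ≤ a := by
  obtain ⟨l, hl, h⟩ := ha.1.2
  by_contra hlt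
  exact h ((pow_dvd_pow _ (by omega)).trans (hb.1.1 l hl))

theorem exists_BT {K : Type} [Field K] [Algebra k K] {γ : Fin 2 ⊕ ι → PowerSeries K} {e : ℕ}
    (h : (GT g β j γ).order = e) : ∃ a ≤ e, ∃ s, BT g β j a s K γ := by
  classical
  have he : ¬∀ l, bp β l = j → PowerSeries.X ^ (e + 1) ∣ aeval (fun a => γ (.inl a)) (g l) :=
    fun H => (ord_iff.1 h).2 (dvd_succ_iff.1 (dvd_GT H)).2
  have hex : ∃ a, ¬∀ l, bp β l = j →
    PowerSeries.X ^ (a + 1) ∣ aeval (fun a => γ (.inl a)) (g l) := ⟨e, he⟩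
  refine ⟨Nat.find hex, Nat.find_min' hex he, _, ⟨?_, ?_⟩, decide_eq_true_iff⟩
  · rcases h3 : Nat.find hex with _ | n
    · simp
    · exact not_not.1 (Nat.find_min hex (by omega))
  · obtain ⟨l, hl⟩ := not_forall.1 (Nat.find_spec hex)
    exact ⟨l, Classical.not_imp.1 hl⟩

variable [DecidableEq ι]

theorem GT_update {K : Type} [CommRing K] [Algebra k K] (x : (Fin 2 ⊕ ι) × ℕ → K) {i : ι}
    (hi : β i = j) (l : ℕ) (t : K) : GT g β j (ser (Function.update x (.inr i, l) t)) =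
      GT g β j (ser x) + PowerSeries.X ^ l * (PowerSeries.C (t - x (.inr i, l)) *
        aeval (fun a : Fin 2 => ser x (.inl a)) (g (.inl i))) := by
  have hm : i ∈ Finset.univ.filter fun i => β i = j := by simpa using hi
  rw [GT, GT, QO.update_in, ← Finset.add_sum_erase _ _ hm, ← Finset.add_sum_erase _ _ hm,
    Finset.sum_congr rfl fun i' hi' => by
      rw [ser_update, Function.update_of_ne fun h =>
        Finset.ne_of_mem_erase hi' (Sum.inr_injective h)], ser_update, Function.update_self]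
  ring

variable (g β j) (P : AP k (Fin 2 ⊕ ι))

/-- The block has order `e` and status true, and the polynomial has order at least `l`. -/
def PL (e l : ℕ) : Pred k ((Fin 2 ⊕ ι) × ℕ) := fun K _ _ x =>
  An P (BT g β j e true) K (ser x) ∧ PowerSeries.X ^ l ∣ GT g β j (ser x)

variable {g β j P}

theorem step (hP : Fr β j P) {e n : ℕ} {v : Mot k} (h : HasVol (PL g β j P e (e + n)) v) :
    HasVol (k := k) (fun K _ _ x => PL g β j P e (e + n) K x ∧
      aeval x (cG g β j (e + n)) = 0) (Linv k * v) := by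
  refine h.elim_multi (Finset.univ.filter fun i => β i = j) (fun i => (.inr i, n))
    (cG g β j (e + n)) (fun i => QO.cD (g (.inl i)) e)
    (fun K _ _ x t i _ j _ => ?_) (fun K _ _ x t i hi => ?_)
    (fun K _ _ x t i hi hx => ⟨⟨?_, ?_⟩, ?_⟩) fun K _ _ x hx => ?_
  · rw [QO.aeval_cD, QO.aeval_cD, QO.update_in]
  · rw [QO.aeval_cD, aeval_cG, aeval_cG, GT_update _ (Finset.mem_filter.1 hi).2, map_add,
      PowerSeries.coeff_X_pow_mul, PowerSeries.coeff_C_mul]
  · refine hP K _ _ (fun a => (congrFun (QO.update_in x i n t) a).symm) (fun i' hi' => ?_) hx.1.1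
    rw [ser_update, Function.update_of_ne fun h => hi' ?_]
    rw [Sum.inr_injective h]
    exact (Finset.mem_filter.1 hi).2
  · unfold BT
    rw [QO.update_in]
    exact hx.1.2
  · rw [GT_update _ (Finset.mem_filter.1 hi).2]
    refine dvd_add hx.2 ?_
    rw [add_comm, pow_add]
    exact mul_dvd_mul_left _ ((hx.1.2.1.1 (.inl i) (Finset.mem_filter.1 hi).2).mul_left _)
  · obtain ⟨i, hi, h0⟩ := hx.1.2.2.1 rfl
    exact ⟨i, by simpa using hi, by rwa [QO.aeval_cD]⟩

theorem vol_P (hP : Fr β j P) {e : ℕ} {v : Mot k} (h : AV (An P (BT g β j e true)) v) (n : ℕ) :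
    HasVol (PL g β j P e (e + n)) (Linv k ^ n * v) := by
  induction n with
  | zero =>
    rw [pow_zero, one_mul]
    exact HasVol.congr h fun K _ _ x => ⟨fun H => ⟨H, dvd_GT H.2.1.1⟩, fun H => H.1⟩
  | succ n ih =>
    rw [pow_succ', mul_assoc]
    refine (step hP ih).congr fun K _ _ x => ?_
    rw [aeval_cG, PL, PL, ← add_assoc, dvd_succ_iff (m := e + n), and_assoc]

theorem vol_ne (hP : Fr β j P) {e : ℕ} {v : Mot k} (h : AV (An P (BT g β j e true)) v) (n : ℕ) :
    HasVol (k := k) (fun K _ _ x => An P (BT g β j e true) K (ser x) ∧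
      (GT g β j (ser x)).order = (e + n : ℕ)) ((1 - Linv k) * Linv k ^ n * v) := by
  have h1 := vol_P hP h n
  obtain ⟨v₁, v₂, h₁, h₂, e0⟩ := h1.split (cG g β j (e + n))
  have e₁ := h₁.unique (step hP h1)
  have e₂ : (1 - Linv k) * Linv k ^ n * v = v₂ := by linear_combination e0 + e₁
  rw [e₂]
  refine h₂.congr fun K _ _ x => ?_
  rw [aeval_cG, PL, ord_iff, and_assoc]

end RA

open RA in
theorem blk_ok {k ι ρ : Type} [Field k] [Fintype ι] [DecidableEq ρ] : S_blk k ι ρ := by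
  classical
  intro g β j P z hP hz e
  have hA : HasVol (k := k) (fun K _ _ x => An P (BT g β j e false) K (ser x)) (z false e) :=
    hz false e
  have hB := hasVol_sum (k := k) (Finset.range (e + 1))
    (fun e' K _ _ x => An P (BT g β j e' true) K (ser x) ∧ (GT g β j (ser x)).order = (e : ℕ∞))
    (fun e' => (1 - Linv k) * Linv k ^ (e - e') * z true e') (fun e' he => by
      have h1 := vol_ne hP (hz true e') (e - e')
      have he := Finset.mem_range.1 he
      rwa [show e' + (e - e') = e by omega] at h1)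
    (fun K _ _ x a _ b _ ha hb => le_antisymm (BT_le hb.1.2 ha.1.2) (BT_le ha.1.2 hb.1.2))
  refine (hA.union hB fun K _ _ x h1 h2 => ?_).congr fun K _ _ x => ⟨?_, fun H => ?_⟩
  · obtain ⟨a, -, h2, -⟩ := h2
    have hae : a = e := le_antisymm (BT_le h1.2 h2.2) (BT_le h2.2 h1.2)
    subst hae
    exact Bool.false_ne_true (h1.2.2.2 (h2.2.2.1 rfl))
  · rintro (H | ⟨a, -, H⟩)
    · exact ⟨H.1, ord_false H.2⟩
    · exact ⟨H.1.1, H.2⟩
  · have H2 : (GT g β j (ser x)).order = (e : ℕ∞) := H.2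
    obtain ⟨a, ha, s, hs⟩ := exists_BT H2
    cases s
    · have hae : a = e := by exact_mod_cast (ord_false hs).symm.trans H2
      subst hae
      exact .inl ⟨H.1, hs⟩
    · exact .inr ⟨a, Finset.mem_range.2 (by omega), ⟨H.1, hs⟩, H2⟩

end

end Pool.Agent.P.MP_b91a16_ag.Id.Ln.Tu
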