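import Pool.Agent.P.MP_b91a16_ag.Tu.Defs

/-! Package B: the volumes on the total space from the volumes of the statuses. -/

set_option linter.unusedSectionVars false

open MvPolynomial

namespace Pool.Agent.P.MP_b91a16_ag.Id.Ln.Tu

noncomputable section

namespace RB

variable {k ι ρ : Type} [Field k] [Fintype ι] [Fintype ρ] [DecidableEq ρ]

/-- division by `dT k j` -/
def dv (j : ρ) (Y : MvPowerSeries ρ (Mot k)) : MvPowerSeries ρ (Mot k) := fun e =>
  ∑ e' ∈ Finset.range (e j + 1), Linv k ^ (e j - e') * MvPowerSeries.coeff (e.update j e') Y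

theorem coeff_dv (j : ρ) (Y : MvPowerSeries ρ (Mot k)) (e : ρ →₀ ℕ) :
    MvPowerSeries.coeff e (dv j Y) = ∑ e' ∈ Finset.range (e j + 1),
      Linv k ^ (e j - e') * MvPowerSeries.coeff (e.update j e') Y := rfl

theorem dT_dv (j : ρ) (Y : MvPowerSeries ρ (Mot k)) : dT k j * dv j Y = Y := by
  ext e
  rw [dT, sub_mul, one_mul, mul_assoc, map_sub, MvPowerSeries.coeff_C_mul, MvPowerSeries.X_def,
    MvPowerSeries.coeff_monomial_mul, coeff_dv, Finset.sum_range_succ, Nat.sub_self, pow_zero,
    one_mul, Finsupp.update_self]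
  split_ifs with h
  · have h1 : 1 ≤ e j := by simpa using h j
    have h2 : (e - Finsupp.single j 1 : ρ →₀ ℕ) j + 1 = e j := by
      rw [Finsupp.tsub_apply, Finsupp.single_eq_same]; omega
    rw [one_mul, coeff_dv, h2, Finset.mul_sum, add_sub_right_comm, ← Finset.sum_sub_distrib,
      Finset.sum_eq_zero, zero_add]
    intro e' he'
    have h3 : (e - Finsupp.single j 1 : ρ →₀ ℕ).update j e' = e.update j e' := by
      ext a
      by_cases ha : a = j
      · subst ha; simp
      · simp [Finsupp.update_apply, ha]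
    have h4 : e j - e' = (e - Finsupp.single j 1 : ρ →₀ ℕ) j - e' + 1 := by
      have := Finset.mem_range.1 he'; omega
    rw [h3, h4, pow_succ]
    ring
  · have h1 : e j = 0 := by
      by_contra h2
      exact h (Finsupp.single_le_iff.2 (Nat.one_le_iff_ne_zero.2 h2))
    rw [h1]
    simp

variable (g : ι ⊕ ρ → P2 k) (β : ι → ρ) (Ψ : AP k (Fin 2))

/-- the blocks of `B` are treated, the blocks outside `B'` are not -/
def PB (B B' : Finset ρ) (s : ρ → Bool) (e : ρ →₀ ℕ) : AP k (Fin 2 ⊕ ι) := fun K _ _ γ =>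
  Ψ K (fun a => γ (.inl a)) ∧ (∀ j ∈ B, OT g β j (e j) K γ) ∧
    ∀ j, j ∉ B' → BT g β j (e j) (s j) K γ

theorem fr_PB {B : Finset ρ} {j₀ : ρ} (hj : j₀ ∉ B) (B' : Finset ρ) (s : ρ → Bool)
    (e : ρ →₀ ℕ) : Fr β j₀ (PB g β Ψ B B' s e) := by
  intro K _ _ γ γ' h1 h2 h
  have h3 : (fun a => γ' (.inl a)) = fun a => γ (.inl a) := funext fun a => (h1 a).symm
  refine ⟨h3 ▸ h.1, fun j hj' => ?_, fun j hj' => ?_⟩
  · have : GT g β j γ' = GT g β j γ := by
      unfold GT
      rw [h3]
      congr 1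
      refine Finset.sum_congr rfl fun i hi => ?_
      rw [h2 i fun h4 => hj (h4 ▸ (Finset.mem_filter.1 hi).2 ▸ hj')]
    unfold OT
    rw [this]
    exact h.2.1 j hj'
  · have := h.2.2 j hj'
    unfold BT at this ⊢
    rw [h3]
    exact this

theorem base {Z : (ρ → Bool) → MvPowerSeries ρ (Mot k)} (h : GA β (ΞT β) Ψ g Z) (s : ρ → Bool)
    (e : ρ →₀ ℕ) : AV (PB g β Ψ ∅ ∅ s e) (MvPowerSeries.coeff e (Z s)) := by
  refine (HasVol.comap (h s e)
    (Function.Embedding.inl.prodMap (Function.Embedding.refl ℕ))).congr fun K _ _ x => ?_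
  change Ψ K (fun a => ser x (.inl a)) ∧ Th (ΞT β s) g (bp β) e K (fun a => ser x (.inl a)) ↔ _
  refine and_congr_right fun _ => ⟨fun h1 => ⟨by simp, fun j _ => ⟨h1.1 j, (h1.2 j).trans ?_⟩⟩,
    fun h1 => ⟨fun j => (h1.2 j (by simp)).1, fun j => (h1.2 j (by simp)).2.trans ?_⟩⟩
  all_goals exact exists_congr fun i => and_congr_right fun hi => by subst hi; rfl

variable {g β Ψ}

theorem step_av (h : S_blk k ι ρ) {B : Finset ρ} {j₀ : ρ} (hj : j₀ ∉ B)
    {Y : (ρ → Bool) → MvPowerSeries ρ (Mot k)}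
    (hY : ∀ s e, AV (PB g β Ψ B B s e) (MvPowerSeries.coeff e (Y s))) (s : ρ → Bool)
    (e : ρ →₀ ℕ) : AV (PB g β Ψ (insert j₀ B) (insert j₀ B) s e) (MvPowerSeries.coeff e
      (Y (Function.update s j₀ false) +
        MvPowerSeries.C (1 - Linv k) * dv j₀ (Y (Function.update s j₀ true)))) := by
  classical
  have h1 := h g β j₀ (PB g β Ψ B (insert j₀ B) s e)
    (fun b e' => MvPowerSeries.coeff (e.update j₀ e') (Y (Function.update s j₀ b)))
    (fr_PB g β Ψ hj _ s e) (fun b e' => (hY _ _).congr fun K _ _ γ => by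
      have a1 : ∀ j, j ≠ j₀ → e.update j₀ e' j = e j := fun j h => by
        simp [Finsupp.update_apply, h]
      have a2 : e.update j₀ e' j₀ = e' := by simp
      constructor
      · rintro ⟨b1, b2, b3⟩
        refine ⟨⟨b1, fun j hj' => ?_, fun j hj' => ?_⟩, ?_⟩
        · rw [← a1 j fun h => hj (h ▸ hj')]; exact b2 j hj'
        · rw [Finset.mem_insert, not_or] at hj'
          have := b3 j hj'.2
          rwa [a1 j hj'.1, Function.update_of_ne hj'.1] at this
        · have := b3 j₀ hj
          rwa [a2, Function.update_self] at this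
      · rintro ⟨⟨b1, b2, b3⟩, b4⟩
        refine ⟨b1, fun j hj' => ?_, fun j hj' => ?_⟩
        · rw [a1 j fun h => hj (h ▸ hj')]; exact b2 j hj'
        · by_cases h : j = j₀
          · subst h
            rwa [a2, Function.update_self]
          · rw [a1 j h, Function.update_of_ne h]
            exact b3 j (by simp [h, hj'])) (e j₀)
  rw [map_add, MvPowerSeries.coeff_C_mul, coeff_dv, Finset.mul_sum]
  simp only [Finsupp.update_self, mul_assoc] at h1
  refine h1.congr fun K _ _ γ => ⟨fun ⟨⟨b1, b2, b3⟩, b4⟩ => ⟨b1, fun j hj' => ?_, b3⟩,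
    fun ⟨b1, b2, b3⟩ => ⟨⟨b1, fun j hj' => b2 j (Finset.mem_insert_of_mem hj'), b3⟩,
      b2 j₀ (Finset.mem_insert_self _ _)⟩⟩
  rcases Finset.mem_insert.1 hj' with rfl | h
  exacts [b4, b2 j h]

theorem WT_split (J : Finset ρ) (s : ρ → Bool) (j₀ : ρ) (b : Bool) :
    WT k J (Function.update s j₀ b) =
      (if b = true then MvPowerSeries.C (1 - Linv k) else if j₀ ∈ J then dT k j₀ else 1) *
      ∏ j ∈ Finset.univ.erase j₀,
        if s j = true then MvPowerSeries.C (1 - Linv k) else if j ∈ J then dT k j else 1 := by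
  rw [WT, ← Finset.mul_prod_erase _ _ (Finset.mem_univ j₀), Function.update_self]
  congr 1
  exact Finset.prod_congr rfl fun j hj => by rw [Function.update_of_ne (Finset.ne_of_mem_erase hj)]

theorem sum_split {M : Type*} [AddCommMonoid M] {B : Finset ρ} {j₀ : ρ} (hj : j₀ ∉ B)
    (F : (ρ → Bool) → M) :
    ∑ s with ∀ j ∈ B, s j = false, F s = ∑ s with ∀ j ∈ insert j₀ B, s j = false,
      (F (Function.update s j₀ false) + F (Function.update s j₀ true)) := by
  rw [Finset.sum_add_distrib, ← Finset.sum_filter_add_sum_filter_not _ fun s => s j₀ = false]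
  congr 1
  · rw [Finset.filter_filter]
    refine Finset.sum_congr (Finset.filter_congr fun s _ => by
      rw [Finset.forall_mem_insert, and_comm]) fun s hs => ?_
    rw [← (Finset.mem_filter.1 hs).2 j₀ (Finset.mem_insert_self _ _), Function.update_eq_self]
  · symm
    refine Finset.sum_bij' (fun s _ => Function.update s j₀ true)
      (fun s _ => Function.update s j₀ false) (fun s hs => ?_) (fun s hs => ?_) (fun s hs => ?_)
      (fun s hs => ?_) fun _ _ => rfl
    all_goals simp only [Finset.mem_filter, Finset.mem_univ, true_and, Finset.forall_mem_insert,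
      Function.update_self, Function.update_idem] at hs ⊢
    · exact ⟨fun j h => by rw [Function.update_of_ne (ne_of_mem_of_not_mem h hj)]; exact hs.2 j h,
        by simp⟩
    · exact fun j h => by rw [Function.update_of_ne (ne_of_mem_of_not_mem h hj)]; exact hs.1 j h
    · rw [← hs.1, Function.update_eq_self]
    · rw [← Bool.eq_true_of_not_eq_false hs.2, Function.update_eq_self]

theorem ind (h : S_blk k ι ρ) {J : Finset ρ} (hJ : ∀ i, g (.inl i) ≠ 0 → β i ∈ J)
    {Z : (ρ → Bool) → MvPowerSeries ρ (Mot k)} (hZ : GA β (ΞT β) Ψ g Z) (B : Finset ρ) :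
    ∃ Y : (ρ → Bool) → MvPowerSeries ρ (Mot k),
      (∀ s e, AV (PB g β Ψ B B s e) (MvPowerSeries.coeff e (Y s))) ∧
      ∑ s with ∀ j ∈ B, s j = false, WT k J s * Y s = ∑ s, WT k J s * Z s := by
  classical
  induction B using Finset.induction_on with
  | empty => exact ⟨Z, base g β Ψ hZ, by simp⟩
  | insert j₀ B hj ih =>
    obtain ⟨Y, h1, h2⟩ := ih
    refine ⟨_, step_av h hj h1, ?_⟩
    rw [← h2, sum_split hj]
    refine Finset.sum_congr rfl fun s hs => ?_
    have h3 : Function.update s j₀ false = s := by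
      rw [← (Finset.mem_filter.1 hs).2 j₀ (Finset.mem_insert_self _ _), Function.update_eq_self]
    rw [mul_add, h3]
    congr 1
    by_cases h4 : j₀ ∈ J
    · conv_lhs => rw [← h3, WT_split, Function.update_idem]
      conv_rhs => rw [WT_split, ← dT_dv j₀ (Y (Function.update s j₀ true))]
      simp only [h4, if_true, Bool.false_eq_true, if_false]
      ring
    · have h5 : Y (Function.update s j₀ true) = 0 := by
        ext e
        refine (h1 _ e).unique (av_false fun K _ _ γ hγ => ?_)
        obtain ⟨i, hi, h6⟩ := (hγ.2.2 j₀ hj).2.1 (Function.update_self _ _ _)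
        refine h4 (hi ▸ hJ i fun h7 => h6 ?_)
        rw [h7, map_zero, map_zero]
      have h6 : dv j₀ (0 : MvPowerSeries ρ (Mot k)) = 0 := by
        ext e
        rw [coeff_dv]
        simp
      rw [h5, h6, mul_zero, mul_zero, mul_zero]

end RB

variable {k ι ρ : Type} [Field k] [Fintype ι] [Fintype ρ] [DecidableEq ρ]

theorem totT_ok (h : S_blk k ι ρ) : S_totT k ι ρ := by
  classical
  intro J g β Ψ Z hJ hZ
  obtain ⟨Y, h1, h2⟩ := RB.ind h hJ hZ Finset.univ
  refine ⟨Y fun _ => false, fun e => (h1 _ e).congr fun K _ _ γ => ?_, ?_⟩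
  · simp [RB.PB]
  · have h3 : (Finset.univ.filter fun s : ρ → Bool => ∀ j ∈ Finset.univ, s j = false) =
        {fun _ => false} := by
      ext s
      simp [funext_iff]
    rw [← h2, h3, Finset.sum_singleton, mul_comm, WT]
    simp [Finset.prod_ite_mem]

end

end Pool.Agent.P.MP_b91a16_ag.Id.Ln.Tu
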