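import Pool.Agent.P.MP_b91a16_ag.Tu.Defs
import Pool.Agent.P.MP_b91a16_ag.Ln.QP

/-! Tuples of polynomials of degree at most one in blocks of variables: elimination of `Y`. -/

set_option linter.unusedSectionVars false

open MvPolynomial

namespace Pool.Agent.P.MP_b91a16_ag.Id.Ln.Tu

noncomputable section

variable {k ι ρ : Type} [Field k] [Fintype ι] [Fintype ρ] [DecidableEq ρ]

namespace RC

open QP (base diff aeval_mono Bs av_base)

/-- The coefficients of the polynomial along the generic arc. -/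
def EG (g : ι ⊕ ρ → P2 k) (β : ι → ρ) (j : ρ) (p : ℕ) : MvPolynomial ((Fin 2 ⊕ ι) × ℕ) k :=
  PowerSeries.coeff p (GT g β j (ser (X : (Fin 2 ⊕ ι) × ℕ → MvPolynomial ((Fin 2 ⊕ ι) × ℕ) k)))

variable [DecidableEq ι]

theorem aeval_EG (g : ι ⊕ ρ → P2 k) (β : ι → ρ) (j : ρ) (p : ℕ) {K : Type} [CommRing K]
    [Algebra k K] (x : (Fin 2 ⊕ ι) × ℕ → K) :
    aeval x (EG g β j p) = PowerSeries.coeff p (GT g β j (ser x)) := by
  have h : ∀ G : P2 k, PowerSeries.mapAlgHom (aeval x : MvPolynomial _ k →ₐ[k] K)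
      (aeval (fun j => ser X (Sum.inl j)) G) = aeval (fun j => ser x (Sum.inl j)) G :=
    fun G => algHom_aeval _ _ _ (fun j => map_ser x _) G
  have e : GT g β j (ser x) = PowerSeries.mapAlgHom (aeval x : MvPolynomial _ k →ₐ[k] K)
      (GT g β j (ser X)) := by
    simp only [GT, map_add, map_sum, map_mul, h, map_ser]
  rw [e, EG, PowerSeries.mapAlgHom_apply, PowerSeries.coeff_map]
  rfl

/-- The data used from the elimination state. -/
structure Dat (g : ι ⊕ ρ → P2 k) (β : ι → ρ) (j : ρ) (a i J : ℕ) : Prop where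
  ne : coeff (ex a 1) (g (.inr j)) ≠ 0
  le : ∀ l, bp β l = j → ∀ v ∈ (g l).support, a * i + J ≤ v 0 * i + v 1 * J
  lt : ∀ v ∈ (g (.inr j)).support, 0 < v 1 → v ≠ ex a 1 → a * i + J < v 0 * i + v 1 * J
  lt' : ∀ l, β l = j → ∀ v ∈ (g (.inl l)).support, 0 < v 1 → a * i + J < v 0 * i + v 1 * J

variable {g : ι ⊕ ρ → P2 k} {β : ι → ρ} {j : ρ} {a i J : ℕ} {K : Type} [Field K] [Algebra k K]

theorem dvd_GT (h : Dat g β j a i J) {γ : Fin 2 ⊕ ι → PowerSeries K}
    (h0 : PowerSeries.X ^ i ∣ γ (.inl 0)) (h1 : PowerSeries.X ^ J ∣ γ (.inl 1)) :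
    PowerSeries.X ^ (a * i + J) ∣ GT g β j γ :=
  dvd_add (base (γ := fun j => γ (.inl j)) h0 h1 _ (h.le _ rfl)) (Finset.dvd_sum fun l hl =>
    (base (γ := fun j => γ (.inl j)) h0 h1 _
      (h.le (.inl l) (Finset.mem_filter.1 hl).2)).mul_left _)

theorem GT_diff (h : Dat g β j a i J) {γ : Fin 2 ⊕ ι → PowerSeries K}
    (h0 : PowerSeries.X ^ i ∣ γ (.inl 0)) (h1 : PowerSeries.X ^ J ∣ γ (.inl 1)) {l : ℕ}
    (hl : J ≤ l) {δ : PowerSeries K} (hδ : PowerSeries.X ^ l ∣ δ) :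
    PowerSeries.X ^ (a * i + l + 1) ∣
      GT g β j (Function.update γ (.inl 1) (γ (.inl 1) + δ)) - GT g β j γ -
      algebraMap k _ (coeff (ex a 1) (g (.inr j))) * γ (.inl 0) ^ a * δ := by
  set γ' := Function.update γ (.inl 1) (γ (.inl 1) + δ) with hγ'
  have e0 : γ' (.inl 0) = γ (.inl 0) := Function.update_of_ne (by simp) _ _
  have e1 : γ' (.inl 1) = γ (.inl 1) + δ := Function.update_self _ _ _
  have e2 : ∀ j, γ' (.inr j) = γ (.inr j) := fun j => Function.update_of_ne (by simp) _ _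
  have d0 := diff (γ := fun j => γ (.inl j)) (γ' := fun j => γ' (.inl j)) (n := a * i + 1)
    h0 h1 hδ hl e0 e1 (g (.inr j) - monomial (ex a 1) (coeff (ex a 1) (g (.inr j))))
    fun v hv hv1 => by
      rw [mem_support_iff, coeff_sub, coeff_monomial] at hv
      have h2 : v ≠ ex a 1 := by
        rintro rfl
        simp at hv
      rw [if_neg h2.symm, sub_zero] at hv
      have := h.lt v (mem_support_iff.2 hv) hv1 h2
      omega
  have d1 : PowerSeries.X ^ (a * i + 1 + l) ∣ ∑ m with β m = j, γ (.inr m) *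
      (aeval (fun j => γ' (.inl j)) (g (.inl m)) - aeval (fun j => γ (.inl j)) (g (.inl m))) :=
    Finset.dvd_sum fun m hm =>
      (diff (γ := fun j => γ (.inl j)) (γ' := fun j => γ' (.inl j)) h0 h1 hδ hl e0 e1 _
        fun v hv hv1 => by
          have := h.lt' m (Finset.mem_filter.1 hm).2 v hv hv1
          omega).mul_left _
  rw [map_sub, map_sub, aeval_mono, aeval_mono] at d0
  simp only [ex_zero, ex_one, pow_one, e0, e1] at d0
  rw [show a * i + l + 1 = a * i + 1 + l by ring]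
  convert dvd_add d0 d1 using 1
  simp only [GT, e2, mul_sub, Finset.sum_sub_distrib]
  ring

theorem update (h : Dat g β j a i J) {x : (Fin 2 ⊕ ι) × ℕ → K} (hx : Bs i J (ser x)) {l : ℕ}
    (hl : J ≤ l) : ∃ κ : K, κ ≠ 0 ∧ ∀ t : K, Bs i J (ser (Function.update x (.inl 1, l) t)) ∧
      PowerSeries.X ^ (a * i + l) ∣
        GT g β j (ser (Function.update x (.inl 1, l) t)) - GT g β j (ser x) ∧
      PowerSeries.coeff (a * i + l) (GT g β j (ser (Function.update x (.inl 1, l) t))) =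
        PowerSeries.coeff (a * i + l) (GT g β j (ser x)) + κ * (t - x (.inl 1, l)) := by
  have h0 : PowerSeries.X ^ i ∣ ser x (.inl 0) := dvd_iff_le_order.2 hx.1.ge
  have h1 : PowerSeries.X ^ J ∣ ser x (.inl 1) := dvd_iff_le_order.2 hx.2
  obtain ⟨u, hu⟩ := id h0
  have hu0 : PowerSeries.constantCoeff u ≠ 0 := by
    have := (PowerSeries.order_eq_nat.1 hx.1).1
    rwa [hu, PowerSeries.coeff_X_pow_mul', if_pos le_rfl, Nat.sub_self,
      PowerSeries.coeff_zero_eq_constantCoeff_apply] at this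
  refine ⟨algebraMap k K (coeff (ex a 1) (g (.inr j))) * PowerSeries.constantCoeff u ^ a,
    mul_ne_zero ((map_ne_zero _).2 h.ne) (pow_ne_zero _ hu0), fun t => ?_⟩
  rw [ser_update]
  have hδ : PowerSeries.X ^ l ∣ PowerSeries.X ^ l * PowerSeries.C (t - x (.inl 1, l)) :=
    Dvd.intro _ rfl
  have hd := GT_diff h h0 h1 hl hδ
  have e : algebraMap k _ (coeff (ex a 1) (g (.inr j))) * ser x (.inl 0) ^ a *
      (PowerSeries.X ^ l * PowerSeries.C (t - x (.inl 1, l))) = PowerSeries.X ^ (a * i + l) *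
        (PowerSeries.C (algebraMap k K (coeff (ex a 1) (g (.inr j)))) * u ^ a *
          PowerSeries.C (t - x (.inl 1, l))) := by
    rw [hu, alg_ps]
    ring
  rw [e, dvd_succ_iff] at hd
  refine ⟨⟨?_, ?_⟩, ?_, ?_⟩
  · rw [Function.update_of_ne (by simp)]
    exact hx.1
  · rw [Function.update_self]
    exact dvd_iff_le_order.1 (dvd_add h1 ((pow_dvd_pow _ hl).trans hδ))
  · exact (dvd_sub_left (Dvd.intro _ rfl)).1 hd.1
  · have h2 := hd.2
    rw [map_sub, map_sub, PowerSeries.coeff_X_pow_mul', if_pos le_rfl, Nat.sub_self,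
      PowerSeries.coeff_zero_eq_constantCoeff_apply, map_mul, map_mul, map_pow,
      PowerSeries.constantCoeff_C, PowerSeries.constantCoeff_C] at h2
    linear_combination h2

theorem step (h : Dat g β j a i J) {l : ℕ} (hl : J ≤ l) {v : Mot k}
    (hv : AV (k := k) (fun _ _ _ γ => Bs i J γ ∧ PowerSeries.X ^ (a * i + l) ∣ GT g β j γ) v) :
    AV (k := k) (fun _ _ _ γ => (Bs i J γ ∧ PowerSeries.X ^ (a * i + l) ∣ GT g β j γ) ∧
      PowerSeries.coeff (a * i + l) (GT g β j γ) = 0) (Linv k * v) := by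
  refine (HasVol.elim hv (.inl 1, l) (EG g β j (a * i + l)) (fun K _ _ x c hx => ?_)
    fun K _ _ x hx => ?_).congr fun K _ _ x => ?_
  · obtain ⟨κ, -, h2⟩ := update h hx.1 hl
    exact ⟨(h2 c).1, by simpa using dvd_add (h2 c).2.1 hx.2⟩
  · obtain ⟨κ, h1, h2⟩ := update h hx.1 hl
    simp only [aeval_EG, fun t => (h2 t).2.2]
    refine ⟨x (.inl 1, l) - PowerSeries.coeff (a * i + l) (GT g β j (ser x)) / κ, ?_,
      fun t ht => ?_⟩
    · field_simp
      ring
    · field_simp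
      linear_combination ht
  · simp only [aeval_EG]

theorem av_level (h : Dat g β j a i J) {l : ℕ} (hl : J ≤ l) :
    AV (k := k) (fun _ _ _ γ => Bs i J γ ∧ PowerSeries.X ^ (a * i + l) ∣ GT g β j γ)
      ((1 - Linv k) * Linv k ^ (i + l)) := by
  induction l, hl using Nat.le_induction with
  | base =>
    exact (av_base i J).congr fun K _ _ γ => ⟨fun hγ =>
      ⟨hγ, dvd_GT h (dvd_iff_le_order.2 hγ.1.ge) (dvd_iff_le_order.2 hγ.2)⟩, fun hγ => hγ.1⟩
  | succ l hl ih =>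
    have h1 := step h hl ih
    rw [show Linv k * ((1 - Linv k) * Linv k ^ (i + l)) = (1 - Linv k) * Linv k ^ (i + (l + 1)) by
      ring] at h1
    refine h1.congr fun K _ _ γ => ?_
    rw [← add_assoc, dvd_succ_iff, and_assoc]

theorem av_exact (h : Dat g β j a i J) {l : ℕ} (hl : J ≤ l) :
    AV (k := k) (fun _ _ _ γ => (Bs i J γ ∧ PowerSeries.X ^ (a * i + l) ∣ GT g β j γ) ∧
      PowerSeries.coeff (a * i + l) (GT g β j γ) ≠ 0) ((1 - Linv k) ^ 2 * Linv k ^ (i + l)) := by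
  obtain ⟨v₁, v₂, h1, h2, e⟩ := HasVol.split (av_level h hl) (EG g β j (a * i + l))
  have h3 : v₁ = Linv k * ((1 - Linv k) * Linv k ^ (i + l)) :=
    HasVol.unique (h1.congr fun K _ _ x => by simp only [aeval_EG]) (step h hl (av_level h hl))
  rw [show (1 - Linv k) ^ 2 * Linv k ^ (i + l) = v₂ by linear_combination e + h3]
  exact h2.congr fun K _ _ x => by simp only [aeval_EG]

end RC

open RC QP

theorem elimT_ok : S_elimT k ι ρ := by
  classical
  intro g β a j Jf i e hE hi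
  obtain ⟨h1, -, -, h2⟩ := hE
  obtain ⟨-, h3, -⟩ := h2 i hi
  have h : RC.Dat g β j (a j) i (Jf i) := ⟨h1, fun l hl v hv => (h3 l hl v hv).1,
    fun v hv hv1 hne => (h3 _ rfl v hv).2 hv1 (Or.inl ⟨rfl, hne⟩),
    fun l hl v hv hv1 => (h3 (.inl l) hl v hv).2 hv1 (Or.inr ⟨by simp, not_false⟩)⟩
  have key : ∀ (K : Type) [Field K] [Algebra k K] (γ : Fin 2 ⊕ ι → PowerSeries K),
      An (fun _ _ _ γ => (γ (.inl 0)).order = i ∧ (Jf i : ℕ∞) ≤ (γ (.inl 1)).order)
        (OT g β j e) K γ ↔ (Bs i (Jf i) γ ∧ PowerSeries.X ^ e ∣ Tu.GT g β j γ) ∧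
          PowerSeries.coeff e (Tu.GT g β j γ) ≠ 0 := by
    intro K _ _ γ
    change Bs i (Jf i) γ ∧ (Tu.GT g β j γ).order = e ↔ _
    rw [PowerSeries.order_eq_nat, PowerSeries.X_pow_dvd_iff, and_assoc,
      and_comm (a := PowerSeries.coeff e (Tu.GT g β j γ) ≠ 0)]
  split_ifs with he
  · obtain ⟨l, rfl⟩ : ∃ l, e = a j * i + l := ⟨e - a j * i, by omega⟩
    have hl : Jf i ≤ l := by omega
    rw [Nat.add_sub_cancel_left]
    exact (av_exact h hl).congr fun K _ _ γ => (key K γ).symm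
  · refine av_false fun K _ _ γ hγ => ?_
    obtain ⟨⟨h4, -⟩, h5⟩ := (key K γ).1 hγ
    have h6 := RC.dvd_GT h (dvd_iff_le_order.2 h4.1.ge) (dvd_iff_le_order.2 h4.2)
    exact h5 (PowerSeries.X_pow_dvd_iff.1 h6 e (by omega))

end

end Pool.Agent.P.MP_b91a16_ag.Id.Ln.Tu
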