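import Pool.Agent.P.MP_b91a16_ag.Tu.Defs
import Pool.Agent.P.MP_b91a16_ag.Id.PB

/-! Package D: the weighted sum only depends on the vertex terms when `Y` can be eliminated. -/

set_option linter.unusedSectionVars false

open MvPolynomial

namespace Pool.Agent.P.MP_b91a16_ag.Id.Ln.Tu

noncomputable section

variable {k ι ρ : Type} [Field k] [Fintype ι] [Fintype ρ] [DecidableEq ρ]

namespace RD

def emb (ι : Type) : Fin 2 × ℕ ↪ (Fin 2 ⊕ ι) × ℕ :=
  (Function.Embedding.inl).prodMap (Function.Embedding.refl ℕ)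

theorem av_inl {Ψ : AP k (Fin 2)} {v : Mot k} (h : AV Ψ v) :
    AV (k := k) (τ := Fin 2 ⊕ ι) (fun K _ _ γ => Ψ K fun a => γ (.inl a)) v :=
  HasVol.comap h (emb ι)

/-- order and status of one block -/
def Bl (g : ι ⊕ ρ → P2 k) (β : ι → ρ) (j : ρ) (e : ℕ) (s : Bool) : AP k (Fin 2) := fun _ _ _ γ =>
  ((∀ l, bp β l = j → PowerSeries.X ^ e ∣ aeval γ (g l)) ∧
    ∃ l, bp β l = j ∧ ¬PowerSeries.X ^ (e + 1) ∣ aeval γ (g l)) ∧
  (s = true ↔ ∃ i, β i = j ∧ PowerSeries.coeff e (aeval γ (g (.inl i))) ≠ 0)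

open Classical in
/-- the status read off from the vertex terms -/
def st (g : ι ⊕ ρ → P2 k) (β : ι → ρ) (a : ρ → ℕ) (j : ρ) : Bool :=
  decide (∃ i, β i = j ∧ coeff (ex (a j) 0) (g (.inl i)) ≠ 0)

variable {g g' : ι ⊕ ρ → P2 k} {β : ι → ρ} {a : ρ → ℕ} {j : ρ} {Jf : ℕ → ℕ} {n : ℕ}

theorem st_iff : st g β a j = true ↔ ∃ i, β i = j ∧ coeff (ex (a j) 0) (g (.inl i)) ≠ 0 := by
  simp only [st, decide_eq_true_iff]

section arc

variable {K : Type} [Field K] [Algebra k K] {γ : Fin 2 → PowerSeries K} {i : ℕ}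

theorem th_iff (s : ρ → Bool) (e : ρ →₀ ℕ) :
    Th (ΞT β s) g (bp β) e K γ ↔ ∀ j, Bl g β j (e j) (s j) K γ := by
  rw [Th, Ord, ΞT, ← forall_and]
  refine forall_congr' fun j => and_congr_right fun _ => iff_congr Iff.rfl
    (exists_congr fun i => and_congr_right fun h => ?_)
  subst h
  rfl

theorem lead (hE : El False g β a j Jf) (hi : 0 < i) (hx : (γ 0).order = i)
    (hy : (Jf i : ℕ∞) ≤ (γ 1).order) {l : ι ⊕ ρ} (hl : bp β l ≠ j) :
    PowerSeries.X ^ (a (bp β l) * i) ∣ aeval γ (g l) ∧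
      (PowerSeries.X ^ (a (bp β l) * i + 1) ∣ aeval γ (g l) ↔
        coeff (ex (a (bp β l)) 0) (g l) = 0) := by
  have h1 : ∀ v ∈ (g l).support, v ≠ ex (a (bp β l)) 0 → ((a (bp β l) * i + 1 : ℕ) : ℕ∞) ≤
      (v 0 : ℕ∞) * (γ 0).order + (v 1 : ℕ∞) * (γ 1).order := fun v hv h => by
    have h2 : ((a (bp β l) * i + 1 : ℕ) : ℕ∞) ≤ ((v 0 * i + v 1 * Jf i : ℕ) : ℕ∞) :=
      Nat.cast_le.2 ((hE.2.2.2 i hi).2.2 l hl v hv h)
    refine h2.trans ?_
    rw [hx, Nat.cast_add, Nat.cast_mul, Nat.cast_mul]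
    gcongr
  have h2 : ((ex (a (bp β l)) 0 0 : ℕ) : ℕ∞) * (γ 0).order +
      ((ex (a (bp β l)) 0 1 : ℕ) : ℕ∞) * (γ 1).order = ((a (bp β l) * i : ℕ) : ℕ∞) := by
    rw [ex_zero, ex_one, hx, Nat.cast_zero, zero_mul, add_zero, Nat.cast_mul]
  refine ⟨PB.dvd_of_le γ _ fun v hv => ?_, fun h => ?_, fun h => PB.dvd_of_le γ _ fun v hv => ?_⟩
  · by_cases h : v = ex (a (bp β l)) 0
    · rw [h, h2]
    · exact le_trans (Nat.cast_le.2 (Nat.le_succ _)) (h1 v hv h)
  · by_contra hc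
    exact PB.not_dvd γ _ hc h2 (fun v hv h' =>
      lt_of_lt_of_le (Nat.cast_lt.2 (Nat.lt_succ_self _)) (h1 v hv h')) h
  · exact h1 v hv fun h' => mem_support_iff.1 hv (h' ▸ h)

theorem bl_iff (hE : El False g β a j Jf) (hi : 0 < i) (hx : (γ 0).order = i)
    (hy : (Jf i : ℕ∞) ≤ (γ 1).order) {j' : ρ} (hj : j' ≠ j) (e : ℕ) (s : Bool) :
    Bl g β j' e s K γ ↔ e = a j' * i ∧ s = st g β a j' := by
  have h1 : ∀ l, bp β l = j' → PowerSeries.X ^ (a j' * i) ∣ aeval γ (g l) ∧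
      (PowerSeries.X ^ (a j' * i + 1) ∣ aeval γ (g l) ↔ coeff (ex (a j') 0) (g l) = 0) := by
    rintro l rfl
    exact lead hE hi hx hy hj
  obtain ⟨l₀, h2, h3⟩ := hE.2.1 j'
  rw [Pi.single_eq_of_ne hj] at h3
  have h4 : ¬PowerSeries.X ^ (a j' * i + 1) ∣ aeval γ (g l₀) := fun h => h3 ((h1 l₀ h2).2.1 h)
  have h5 : ((∀ l, bp β l = j' → PowerSeries.X ^ e ∣ aeval γ (g l)) ∧
      ∃ l, bp β l = j' ∧ ¬PowerSeries.X ^ (e + 1) ∣ aeval γ (g l)) ↔ e = a j' * i := by
    constructor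
    · rintro ⟨h, l, hl, h'⟩
      refine le_antisymm (not_lt.1 fun hc => h4 ((pow_dvd_pow _ hc).trans (h l₀ h2)))
        (not_lt.1 fun hc => h' ((pow_dvd_pow _ hc).trans (h1 l hl).1))
    · rintro rfl
      exact ⟨fun l hl => (h1 l hl).1, l₀, h2, h4⟩
  rw [Bl, h5]
  refine and_congr_right ?_
  rintro rfl
  have h6 : (∃ i', β i' = j' ∧ PowerSeries.coeff (a j' * i) (aeval γ (g (.inl i'))) ≠ 0) ↔
      st g β a j' = true := by
    rw [st_iff]
    refine exists_congr fun i' => and_congr_right fun h => not_congr ?_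
    rw [← (h1 (.inl i') h).2, dvd_succ_iff]
    exact (and_iff_right (h1 (.inl i') h).1).symm
  rw [h6]
  exact Bool.eq_iff_iff.symm

theorem slice (hE : El False g β a j Jf) (s : ρ → Bool) (e : ρ →₀ ℕ) :
    (An (Reg k Jf) (Th (ΞT β s) g (bp β) e) K γ ∧ (γ 0).order = i) ↔
      ((0 < i ∧ ∀ j' ≠ j, e j' = a j' * i) ∧ ∀ j' ≠ j, s j' = st g β a j') ∧
        ((γ 0).order = i ∧ (Jf i : ℕ∞) ≤ (γ 1).order) ∧ Bl g β j (e j) (s j) K γ := by
  rw [An, th_iff]
  constructor
  · rintro ⟨⟨⟨i', h1, h2, h3⟩, h4⟩, h5⟩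
    obtain rfl : i' = i := by exact_mod_cast h2.symm.trans h5
    exact ⟨⟨⟨h1, fun j' h => ((bl_iff hE h1 h2 h3 h _ _).1 (h4 j')).1⟩,
      fun j' h => ((bl_iff hE h1 h2 h3 h _ _).1 (h4 j')).2⟩, ⟨h2, h3⟩, h4 j⟩
  · rintro ⟨⟨⟨h1, h2⟩, h3⟩, ⟨h4, h5⟩, h6⟩
    refine ⟨⟨⟨i, h1, h4, h5⟩, fun j' => ?_⟩, h4⟩
    by_cases h : j' = j
    · exact h ▸ h6
    · exact (bl_iff hE h1 h4 h5 h _ _).2 ⟨h2 j' h, h3 j' h⟩

end arc

theorem zero_of {Z : (ρ → Bool) → MvPowerSeries ρ (Mot k)} (hE : El False g β a j Jf)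
    (hZ : Gen2 (ΞT β) (Reg k Jf) g (bp β) n Z) {s : ρ → Bool}
    (hs : ¬∀ j' ≠ j, s j' = st g β a j') : Z s = 0 := by
  ext e
  obtain ⟨M, w, -, hw, h⟩ := (hZ s e).large
  rw [h M le_rfl, map_zero]
  refine Finset.sum_eq_zero fun i _ => ?_
  rw [(hw i).unique (av_false fun K _ _ γ h => hs ((slice hE s e).1 h).1.2), mul_zero]

/-- the series divided by the denominator -/
def U (j : ρ) (Y : MvPowerSeries ρ (Mot k)) : MvPowerSeries ρ (Mot k) := fun e =>
  ∑ e' ∈ Finset.range (e j + 1),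
    (1 - Linv k) * Linv k ^ (e j - e') * MvPowerSeries.coeff (e.update j e') Y

theorem dT_mul (j : ρ) (Y : MvPowerSeries ρ (Mot k)) :
    dT k j * U j Y = MvPowerSeries.C (1 - Linv k) * Y := by
  ext e
  rw [dT, sub_mul, one_mul, mul_assoc, map_sub, MvPowerSeries.coeff_C_mul,
    MvPowerSeries.coeff_C_mul, MvPowerSeries.X_def, MvPowerSeries.coeff_monomial_mul,
    MvPowerSeries.coeff_apply (U j Y), MvPowerSeries.coeff_apply (U j Y), U, U,
    Finset.sum_range_succ, Nat.sub_self, pow_zero, mul_one, Finsupp.update_self]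
  simp only [Finsupp.single_le_iff, Finsupp.tsub_apply, Finsupp.single_eq_same]
  split_ifs with h
  · rw [one_mul, Nat.sub_add_cancel h, Finset.mul_sum, add_sub_right_comm,
      ← Finset.sum_sub_distrib, Finset.sum_eq_zero, zero_add]
    intro e' he
    have h1 := Finset.mem_range.1 he
    have h2 : (e - Finsupp.single j 1).update j e' = e.update j e' := by
      ext j'
      rw [Finsupp.update_apply, Finsupp.update_apply, Finsupp.tsub_apply]
      split_ifs with h3
      · rfl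
      · rw [Finsupp.single_eq_of_ne h3, Nat.sub_zero]
    rw [h2, show e j - e' = e j - 1 - e' + 1 by omega]
    ring
  · rw [show e j = 0 by omega, Finset.sum_range_zero, zero_add, mul_zero, sub_zero]

open Classical in
/-- The value of the slice `ord X = i`. -/
def val (k : Type) [Field k] (a : ρ → ℕ) (j : ρ) (Jf : ℕ → ℕ) (e : ρ →₀ ℕ) (i : ℕ) : Mot k :=
  if 0 < i ∧ ∀ j' ≠ j, e j' = a j' * i then
    (if a j * i + Jf i ≤ e j then (1 - Linv k) ^ 2 * Linv k ^ (i + (e j - a j * i)) else 0)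
  else 0

theorem key (h1 : S_blk k ι ρ) (h2 : S_elimT k ι ρ) {Z : (ρ → Bool) → MvPowerSeries ρ (Mot k)}
    (hE : El False g β a j Jf) (hZ : Gen2 (ΞT β) (Reg k Jf) g (bp β) n Z) (e : ρ →₀ ℕ) :
    ∃ M, ∀ M', M ≤ M' → MvPowerSeries.coeff e (Z (Function.update (st g β a) j false) +
      U j (Z (Function.update (st g β a) j true))) =
        ∑ i ∈ Finset.range M', Linv k ^ (n * i) * val k a j Jf e i := by
  classical
  choose M w _ hw hs using
    fun b e' => (hZ (Function.update (st g β a) j b) (e.update j e')).large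
  have h3 : ∀ (e' i : ℕ), (∀ j' ≠ j, e.update j e' j' = a j' * i) ↔ ∀ j' ≠ j, e j' = a j' * i :=
    fun e' i => forall₂_congr fun j' h => by rw [Finsupp.update_apply, if_neg h]
  have hv : ∀ i, w false (e j) i + ∑ e' ∈ Finset.range (e j + 1),
      (1 - Linv k) * Linv k ^ (e j - e') * w true e' i = val k a j Jf e i := fun i => by
    rw [val]
    by_cases hi : 0 < i ∧ ∀ j' ≠ j, e j' = a j' * i
    · rw [if_pos hi]
      refine (h1 g β j _ (fun b e' => w b e' i) ?_ (fun b e' => ?_) (e j)).unique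
        (h2 g β a j Jf i (e j) hE hi.1)
      · intro K _ _ γ γ' h _ h'
        rwa [← h, ← h]
      · refine (av_inl (hw b e' i)).congr fun K _ _ γ => ?_
        rw [slice hE, h3, Finsupp.update_apply, if_pos rfl, Function.update_self]
        exact and_iff_right ⟨hi, fun j' h => Function.update_of_ne h _ _⟩
    · have h0 : ∀ b e', w b e' i = 0 := fun b e' => (hw b e' i).unique
        (av_false fun K _ _ γ h => hi (by simpa only [h3] using ((slice hE _ _).1 h).1.1))
      simp [h0, hi]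
  refine ⟨M false (e j) + ∑ e' ∈ Finset.range (e j + 1), M true e', fun M' hM => ?_⟩
  have e1 := hs false (e j) M' (by omega)
  rw [Finsupp.update_self] at e1
  have e3 : U j (Z (Function.update (st g β a) j true)) e = ∑ e' ∈ Finset.range (e j + 1),
      ∑ i ∈ Finset.range M',
        (1 - Linv k) * Linv k ^ (e j - e') * (Linv k ^ (n * i) * w true e' i) :=
    Finset.sum_congr rfl fun e' he => by
      rw [hs true e' M' (by
        have := Finset.single_le_sum (f := fun e' => M true e') (fun _ _ => Nat.zero_le _) he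
        omega), Finset.mul_sum]
  rw [map_add, e1, MvPowerSeries.coeff_apply, e3, Finset.sum_comm, ← Finset.sum_add_distrib]
  refine Finset.sum_congr rfl fun i _ => ?_
  rw [← hv i, mul_add, Finset.mul_sum]
  congr 1
  exact Finset.sum_congr rfl fun e' _ => by ring

theorem sum_W {J : Finset ρ} (hj : j ∈ J) {Z : (ρ → Bool) → MvPowerSeries ρ (Mot k)}
    (τ : ρ → Bool) (h : ∀ s, (¬∀ j' ≠ j, s j' = τ j') → Z s = 0) :
    ∑ s, WT k J s * Z s = (∏ j' ∈ Finset.univ.erase j,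
      if τ j' = true then MvPowerSeries.C (1 - Linv k) else if j' ∈ J then dT k j' else 1) *
        (dT k j * (Z (Function.update τ j false) + U j (Z (Function.update τ j true)))) := by
  have h1 : ∀ b, WT k J (Function.update τ j b) = (∏ j' ∈ Finset.univ.erase j,
      if τ j' = true then MvPowerSeries.C (1 - Linv k) else if j' ∈ J then dT k j' else 1) *
        if b = true then MvPowerSeries.C (1 - Linv k) else dT k j := fun b => by
    rw [WT, ← Finset.prod_erase_mul _ _ (Finset.mem_univ j), Function.update_self, if_pos hj]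
    congr 1
    exact Finset.prod_congr rfl fun j' h' => by
      rw [Function.update_of_ne (Finset.ne_of_mem_erase h')]
  rw [Fintype.sum_eq_add (Function.update τ j false) (Function.update τ j true)
    (fun h' => by simpa using congrFun h' j) fun s hs => ?_, h1, h1, mul_add, dT_mul]
  · simp only [Bool.false_eq_true, if_false, if_true]
    ring
  · rw [h s fun h' => ?_, mul_zero]
    have h2 : s = Function.update τ j (s j) := Function.eq_update_iff.2 ⟨rfl, h'⟩
    cases h3 : s j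
    · exact hs.1 (h3 ▸ h2)
    · exact hs.2 (h3 ▸ h2)

end RD

open RD

theorem fakeT_ok (h1 : S_blk k ι ρ) (h2 : S_elimT k ι ρ) : S_fakeT k ι ρ := by
  intro J β g g' a j Jf n Z Z' hj hE hE' hv hZ hZ'
  have hs : ∀ j' ≠ j, st g β a j' = st g' β a j' := fun j' h => by
    refine Bool.eq_iff_iff.2 ?_
    rw [st_iff, st_iff]
    refine exists_congr fun i => and_congr_right ?_
    rintro rfl
    have e1 := coeff_vt (g := g) (β := bp β) (a := a) (m := Pi.single j 1) (.inl i)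
    have e2 := coeff_vt (g := g') (β := bp β) (a := a) (m := Pi.single j 1) (.inl i)
    rw [hv, e2] at e1
    simp only [Sum.elim_inl, Pi.single_eq_of_ne h] at e1
    rw [e1]
  have hu : ∀ b, Function.update (st g' β a) j b = Function.update (st g β a) j b := fun b =>
    Function.eq_update_iff.2 ⟨Function.update_self .., fun j' h =>
      (Function.update_of_ne h _ _).trans (hs j' h).symm⟩
  rw [sum_W hj (st g β a) fun s => zero_of hE hZ, sum_W hj (st g β a) fun s h =>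
    zero_of hE' hZ' fun h' => h fun j' h3 => (h' j' h3).trans (hs j' h3).symm]
  congr 2
  ext e
  obtain ⟨M, hM⟩ := key h1 h2 hE hZ e
  obtain ⟨M', hM'⟩ := key h1 h2 hE' hZ' e
  rw [hM (M + M') (by omega), ← hM' (M + M') (by omega), hu, hu]

end

end Pool.Agent.P.MP_b91a16_ag.Id.Ln.Tu
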