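import Pool.Agent.P.MP_b91a16_ag.Tu.Defs
import Pool.Agent.P.MP_b91a16_ag.Ln.QN

/-! Package E: the Bernstein-Sato equation of the products in twisted form. -/

set_option linter.unusedSectionVars false

open MvPolynomial

namespace Pool.Agent.P.MP_b91a16_ag.Id.Ln.Tu

noncomputable section

namespace RE

open QN PM

section Lift

variable {k Λ ρ' K : Type} [Field k] [Fintype Λ] [DecidableEq Λ] [Fintype ρ'] [DecidableEq ρ']
  [Field K] [Algebra k K] [CharZero K]

theorem poly_l {F : (Λ → ℚ) → K} (h : QN.Poly F) :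
    QN.Poly fun x : Λ ⊕ ρ' → ℚ => F fun l => x (.inl l) := by
  obtain ⟨Q, h⟩ := h
  exact ⟨rename Sum.inl Q, fun x => by beta_reduce; rw [h, eval_rename]; rfl⟩

theorem poly_r [CharZero k] (c : MvPolynomial ρ' k) : QN.Poly fun x : Λ ⊕ ρ' → ℚ =>
    algebraMap k K (eval (fun l => (x (.inr l) : k)) c) := by
  induction c using MvPolynomial.induction_on with
  | C c => simpa using QN.Poly.const _
  | add p q hp hq => simpa using hp.add hq
  | mul_X p j hp => simpa using hp.mul (QN.Poly.coord (Sum.inr j))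

theorem uniq2 {ρ : Type} [Fintype ρ] [DecidableEq ρ] (hlat : S_lat ρ ρ') {B : Λ → ρ}
    {M : ρ' → ρ → ℕ} (hM : ∀ j, ∃ l, M l j ≠ 0) (hB : Function.Surjective B)
    {E : (Λ ⊕ ρ' → ℕ) → K} {s : Λ → ℚ} {s' : ρ' → ℚ} {V : Submodule k K}
    (hs : ∀ j, ∑ l with B l = j, s l = ∑ l, s' l * M l j)
    {Y Y' : (Λ ⊕ ρ' → ℕ) → (Λ → ℕ) → K} {z z' : K} (hE : ∀ a, E a ≠ 0)
    (h : Rel E (Sum.elim s s') V 0 Y z) (h' : Rel E (Sum.elim s s') V 0 Y' z')
    (e : ∀ (a : Λ → ℕ) (m : ρ' → ℕ), (∀ j, ∑ l with B l = j, a l = ∑ l, m l * M l j) →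
      Y (Sum.elim a m) a = Y' (Sum.elim a m) a) : z - z' ∈ V := by
  obtain ⟨q, F, h1, h2, h3, h4, h5⟩ := h
  obtain ⟨q', F', h1', h2', h3', h4', h5'⟩ := h'
  obtain ⟨R, hR⟩ := (h1'.mul h2).sub (h1.mul h2')
  have h6 := hlat Λ K B M R 0 hM hB (fun a m _ ha => by
    have e1 : (Sum.elim (fun l => (a l : K)) fun l => (m l : K)) =
        fun l => (((Sum.elim a m l : ℕ) : ℚ) : K) := by
      ext (l | l) <;> simp
    rw [e1, ← hR fun l => ((Sum.elim a m l : ℕ) : ℚ)]
    refine mul_right_cancel₀ (hE (Sum.elim a m)) ?_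
    have e2 := h5 (Sum.elim a m) a (zero_add _).symm
    have e3 := h5' (Sum.elim a m) a (zero_add _).symm
    rw [e a m ha] at e2
    linear_combination algebraMap k K (q' fun l => (Sum.elim a m l : ℕ)) * e2 -
      algebraMap k K (q fun l => (Sum.elim a m l : ℕ)) * e3) s s' hs
  have e1 : (Sum.elim (fun l => (s l : K)) fun l => (s' l : K)) =
      fun l => ((Sum.elim s s' l : ℚ) : K) := by
    ext (l | l) <;> simp
  rw [e1, ← hR] at h6
  have h7 := alg_mem (q (Sum.elim s s') * q' (Sum.elim s s'))⁻¹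
    (sub_mem (alg_mem (q (Sum.elim s s')) h4') (alg_mem (q' (Sum.elim s s')) h4))
  have h8 : algebraMap k K (q (Sum.elim s s')) ≠ 0 := by simpa using h3
  have h9 : algebraMap k K (q' (Sum.elim s s')) ≠ 0 := by simpa using h3'
  convert h7 using 1
  rw [map_inv₀, map_mul, eq_inv_mul_iff_mul_eq₀ (mul_ne_zero h8 h9)]
  linear_combination h6

end Lift

theorem lft {k Λ₀ Λ₁ ρ' K : Type} [Field k] [Fintype Λ₀] [DecidableEq Λ₀] [Fintype Λ₁]
    [DecidableEq Λ₁] [Fintype ρ'] [DecidableEq ρ'] [Field K] [Algebra k K] [CharZero K]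
    {E : (Λ₀ ⊕ Λ₁ → ℕ) → K} {s : Λ₀ ⊕ Λ₁ → ℚ} {V : Submodule k K}
    {Y : (Λ₀ ⊕ Λ₁ → ℕ) → (Λ₀ → ℕ) → K} {z : K} (s' : ρ' → ℚ) (h : Rel E s V 0 Y z) :
    Rel (fun a : (Λ₀ ⊕ Λ₁) ⊕ ρ' → ℕ => E fun l => a (.inl l)) (Sum.elim s s') V 0
      (fun _ a' => Y a' fun l => a' (.inl l)) z := by
  obtain ⟨q, F, h1, h2, h3, h4, h5⟩ := h
  refine ⟨fun x => q fun l => x (.inl l), fun x => F fun l => x (.inl l), poly_l h1, poly_l h2,
    h3, h4, fun a a' e => ?_⟩
  rw [zero_add] at e
  subst e
  exact h5 _ _ (zero_add _).symm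

end RE

open QN PM RE in
theorem tw4_ok {k ρ ρ' : Type} [Field k] [CharZero k] [Fintype ρ] [DecidableEq ρ] [Fintype ρ']
    [DecidableEq ρ'] (hlat : S_lat ρ ρ') : S_tw4 k ρ ρ' := by
  classical
  rintro r f β M b hM ⟨d, c, P, hP, e⟩ s' hs' y Λ₀ Λ₁ _ _ blk lam act s hi hl hs hsb K _ _ π D V
    hD hu h1 - h2 h3
  have : CharZero K := charZero_of_injective_algebraMap (algebraMap k K).injective
  have key : ∀ P ∈ weyl k (2 + r), ∀ G, Good π lam y (Ee π lam y f β blk act) s V G →
      Good π lam y (Ee π lam y f β blk act) s V fun m => P (G m) := fun P hP => by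
    induction hP using Algebra.adjoin_induction with
    | mem P hP =>
      intro G hG
      rcases hP with ⟨j, rfl⟩ | ⟨j, rfl⟩ <;> induction j using Fin.addCases
      · exact fun α c => by simpa [Sy_x] using (hG α c).mulK _ fun z hz => h2 z hz _
      · exact hG.muly _
      · rename_i j
        refine fun α c => ?_
        have := (hG α c).der (D j) _ (fun a => by
          rw [Ee, Derivation.leibniz, der_prod _ _ hu, Derivation.map_natCast]
          simp only [smul_eq_mul]
          ring) fun z hz => h3 z hz j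
        simp only [← Sy_dx _ _ _ _ _ (D j) j (hD j)] at this
        exact this
      · rename_i i
        refine fun α c => ?_
        have := hG α (c + Pi.single i 1)
        simp only [← elim_r', ← Sy_dy] at this
        exact this
    | algebraMap c => exact fun G hG => hG.smul (fun _ => c) (QN.Poly.const _)
    | add P Q _ _ hP hQ => exact fun G hG => (hP G hG).add (hQ G hG)
    | mul P Q _ _ hP hQ => exact fun G hG => hP _ (hQ G hG)
  have hb1 := base1 hi hl hs hu fun hq => h1 fun j hj e => hq j hj (by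
    rw [bs, hsb j, e]
    simp)
  have h4 := Rel.sum Finset.univ fun i => by
    simpa only [mul_zero] using
      (lft s' (key _ (hP i) _ hb1 0 0)).mulk _ (poly_r (K := K) (c i))
  have h5 := base0 (loc := False) (V := V) hi hl hs hu (fun _ h => h.1.elim) 0
    fun h => absurd rfl h
  have h6 := (lft s' h5).mulk _ (poly_r (K := K) b)
  have hE : ∀ a, Ee π lam y f β blk act a ≠ 0 := fun a => by
    refine mul_ne_zero (Nat.cast_ne_zero.2 (Finset.prod_ne_zero_iff.2 fun j _ => ?_))
      (Finset.prod_ne_zero_iff.2 fun l _ => pow_ne_zero _ (hu l))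
    rw [Ne, Nat.descFactorial_eq_zero_iff_lt, bsum, bsum_elim]
    omega
  have hB : Function.Surjective (Sum.elim blk act) := fun j => by
    by_contra h
    push Not at h
    have h7 := hsb j
    obtain ⟨l, hl⟩ := hM j
    have h8 : ∑ l, s' l * (M l j : ℚ) < ∑ _l : ρ', (0 : ℚ) :=
      Finset.sum_lt_sum (fun l _ => mul_nonpos_of_nonpos_of_nonneg (hs' l).le (by positivity))
        ⟨l, Finset.mem_univ _, mul_neg_of_neg_of_pos (hs' l) (by positivity)⟩
    simp only [h, Finset.filter_false, Finset.sum_empty] at h7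
    rw [← h7] at h8
    simp at h8
  have h9 := uniq2 hlat hM hB hsb (fun a => hE _) h6 h4 fun a m ha => by
    have h10 := congrArg (Sy π lam y (Sum.elim (fun l => a (.inl l)) 0)) (e m)
    have h11 : ∀ t : Finset (Fin d), ∀ G : Fin d → MvPolynomial (Fin (2 + r)) k,
        Sy π lam y (Sum.elim (fun l => a (.inl l)) 0) (∑ i ∈ t, G i) =
          ∑ i ∈ t, Sy π lam y (Sum.elim (fun l => a (.inl l)) 0) (G i) := fun t G => by
      induction t using Finset.induction_on with
      | empty => simp [Sy_zero]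
      | insert i t hi ih => rw [Finset.sum_insert hi, Finset.sum_insert hi, Sy_add, ih]
    simp only [h11, smul_eq_C_mul, Sy_C] at h10
    simp only [bsum, ha, Sum.elim_inr, Rat.cast_natCast]
    exact h10.symm
  simpa [Algebra.smul_def] using h9

end

end Pool.Agent.P.MP_b91a16_ag.Id.Ln.Tu
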