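import Pool.Agent.P.MP_b91a16_ag.Tu.Defs
import Pool.Agent.P.MP_b91a16_ag.Ln.QF
import Pool.Agent.P.MP_b91a16_ag.Ln.QJ
import Pool.Agent.P.MP_b91a16_ag.Ln.QL
import Pool.Agent.P.MP_b91a16_ag.Ln.QM

/-! Tuples: nodes with enough roots or with a moving simple root give admissible pairs. -/

open MvPolynomial

namespace Pool.Agent.P.MP_b91a16_ag.Id.Ln.Tu

noncomputable section

variable {k ι ρ : Type} [Field k] [Fintype ι] [Fintype ρ] [DecidableEq ρ]

namespace RF

open QM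

/-- the residue along the node is exact -/
theorem core [CharZero k] {f : ι ⊕ ρ → P2 k} {β : ι → ρ} {π : Fin 2 → P2 k} {n p q : ℕ}
    {N : ρ → ℕ} (hch : Ch π n) (hp : 0 < p) (hq : 0 < q) (hlo : LoN p q (pb π f) (bp β) N)
    (hN : N ≠ 0) {c : k} {y : ι → k} {s : ρ → ℚ} (htw : Tw4 f β y s c) (hc : c ≠ 0)
    (hsum : ∑ j, (N j : ℚ) * s j + ((p * (n + 1) + q : ℕ) : ℚ) = 0)
    {Λ₀ Λ₁ : Type} [Fintype Λ₀] [Fintype Λ₁] (blk : Λ₀ → ρ) (lam : Λ₀ → ι → k) (act : Λ₁ → ρ)
    (σ : Λ₀ ⊕ Λ₁ → ℚ) (hinj : Function.Injective act) (hlam : ∀ l i, lam l i ≠ 0 → β i = blk l)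
    (hne : ∀ l l₁, blk l = act l₁ → ∀ n : ℕ, σ (.inr l₁) ≠ -(n + 1))
    (hbs : ∀ j, ∑ l with Sum.elim blk act l = j, σ l = s j)
    (h0 : ∀ l, fm p q N (pb π f) β y blk lam act l ≠ 0) :
    Exact (fm p q N (pb π f) β y blk lam act) σ := by
  obtain ⟨t1, κ, hκ, t2⟩ := chTh_ok (k := k) π n p q hch hp hq
  have e0 : ∀ G, aeval (pb (tor k p q 0 1) π) G = aeval (tor k p q 0 1) (aeval π G) :=
    fun G => (aeval_aeval _ _ _).symm
  have hw : ∀ j, Ini (aeval (pb (tor k p q 0 1) π) (bm f β y j)) (N j)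
      (ini p q (N j) 0 1 (bm (pb π f) β y j)) := fun j => by
    rw [e0, aeval_bm]
    exact ini_ok _ p q _ 0 1 (bm_lo hlo y j)
  refine res3_ok _ f (bp β) _ _ κ N _ (Sum.elim blk act) _ σ _ _ ∅ _ 1 c t1 hκ t2 hN
    (fun i => ?_) (fun l => ⟨h0 l, ?_⟩) hw (fun α hα => hα.elim) ?_
    (by rw [map_one]; exact one_ne_zero) (htw Λ₀ Λ₁ blk lam act σ hinj hlam hne hbs) hc
  · obtain ⟨r, hr⟩ := ini_ok (pb π f i) p q (N (bp β i)) 0 1 (hlo i)
    exact ⟨_, (e0 _).trans hr⟩
  · rcases l with l | l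
    · show Ini (aeval _ (lc f (lam l))) (N (blk l)) (ini p q _ 0 1 (lc (pb π f) (lam l)))
      rw [e0, aeval_lc]
      exact ini_ok _ p q _ 0 1 (lc_lo hlo (hlam l))
    · exact hw (act l)
  · have e1 : ∑ l, σ l * (N (Sum.elim blk act l) : ℚ) = ∑ j, (N j : ℚ) * s j := by
      rw [← Finset.sum_fiberwise Finset.univ (Sum.elim blk act)]
      refine Finset.sum_congr rfl fun j _ => ?_
      rw [← hbs j, Finset.mul_sum]
      refine Finset.sum_congr rfl fun l hl => ?_
      rw [(Finset.mem_filter.1 hl).2, mul_comm]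
    rw [e1, ← hsum, Nat.cast_pred (by positivity)]
    ring

/-- a moving simple root with exponent `-1` -/
theorem core2 [CharZero k] {f : ι ⊕ ρ → P2 k} {β : ι → ρ} {π : Fin 2 → P2 k} {n p q : ℕ}
    {N : ρ → ℕ} (hch : Ch π n) (hp : 0 < p) (hq : 0 < q) (hlo : LoN p q (pb π f) (bp β) N)
    (hN : N ≠ 0) {c : k} {y : ι → k} {s : ρ → ℚ} (htw : Tw4 f β y s c)
    (hsum : ∑ j, (N j : ℚ) * s j + ((p * (n + 1) + q : ℕ) : ℚ) = 0)
    {Λ₀ Λ₁ : Type} [Fintype Λ₀] [Fintype Λ₁] (blk : Λ₀ → ρ) (lam : Λ₀ → ι → k) (act : Λ₁ → ρ)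
    (σ : Λ₀ ⊕ Λ₁ → ℚ) (hinj : Function.Injective act) (hlam : ∀ l i, lam l i ≠ 0 → β i = blk l)
    (hne : ∀ l l₁, blk l = act l₁ → ∀ n : ℕ, σ (.inr l₁) ≠ -(n + 1))
    (hbs : ∀ j, ∑ l with Sum.elim blk act l = j, σ l = s j) (l₀ : Λ₀ ⊕ Λ₁)
    (h1 : (fm p q N (pb π f) β y blk lam act l₀).natDegree = 1) (h2 : σ l₀ = -1)
    (h3 : ∀ l ≠ l₀, ∃ c ≠ 0, fm p q N (pb π f) β y blk lam act l = Polynomial.C c) : c = 0 := by
  by_contra hc
  refine (p2_ok _ _ σ l₀ h1 h2 h3).1
    (core hch hp hq hlo hN htw hc hsum blk lam act σ hinj hlam hne hbs fun l => ?_)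
  by_cases hl : l = l₀
  · rw [hl]
    intro h0
    rw [h0, Polynomial.natDegree_zero] at h1
    exact zero_ne_one h1
  · obtain ⟨c, hc, e⟩ := h3 l hl
    rw [e]
    exact Polynomial.C_ne_zero.2 hc

end RF

open RF QM

theorem rA4_ok [CharZero k] [IsAlgClosed k] : S_rA4 k ι ρ := by
  intro β f π n p q z N m hch hp hq hlo hN hdeg hA hw
  refine ⟨by positivity, hN, fun s c htw hs hsum => ?_⟩
  by_contra hc
  obtain ⟨y, Z, hφ, hz, hZ⟩ := hA
  have h0 : ∀ l, fm p q N (pb π f) β y (Empty.elim : Empty → ρ) Empty.elim id l ≠ 0 := by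
    rintro (l | j)
    · exact l.elim
    · exact hφ j
  have hbs : ∀ j, ∑ l with Sum.elim (Empty.elim : Empty → ρ) id l = j,
      Sum.elim Empty.elim s l = s j := fun j => by simp [Finset.sum_filter]
  have hex := RF.core hch hp hq hlo hN (htw y) hc hsum Empty.elim Empty.elim id
    (Sum.elim Empty.elim s) Function.injective_id (fun l => l.elim) (fun l => l.elim) hbs h0
  have hsum' : ∑ j, s j * N j + (p * (n + 1) + q) = 0 := by
    rw [← Finset.sum_congr rfl fun j _ => mul_comm _ (s j)]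
    exact_mod_cast hsum
  have hle : -∑ j, s j * (ini p q (N j) 0 1 (bm (pb π f) β y j)).natDegree ≤ ∑ j, -s j * m j := by
    simp only [neg_mul, Finset.sum_neg_distrib, neg_le_neg_iff]
    exact Finset.sum_le_sum fun j _ =>
      mul_le_mul_of_nonpos_left (by exact_mod_cast QL.bm_deg hdeg y j) (hs j).le
  have h3 := hw (fun j => -s j) (fun j => neg_pos.2 (hs j)) (by
    simp only [neg_mul, Finset.sum_neg_distrib]
    linarith)
  have h8 := p1_ok _ _ _ Z h0
    (by
      rintro (l | j)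
      · exact l.elim
      · exact hs j)
    (fun c hc => (hZ c hc).elim fun j hj => ⟨.inr j, hj⟩) hex
  simp only [Fintype.sum_sum_type, Finset.univ_eq_empty, Finset.sum_empty, zero_add,
    Sum.elim_inr, fm, id] at h8
  rcases h8 with h4 | ⟨h4, h5⟩
  · omega
  · rcases h3 with ⟨h6, -⟩ | ⟨h6, h7⟩
    · linarith
    · have : (3 : ℚ) ≤ Z.card := by exact_mod_cast h7.trans hz
      linarith

theorem rB4_ok [CharZero k] : S_rB4 k ι ρ := by
  intro J β f π n p q N j _ hch hp hq hlo hN hcert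
  refine ⟨by positivity, hN, fun s c htw hs hsum => ?_⟩
  rcases hcert with ⟨⟨y, lam, -, c1, c2, c3⟩, hw⟩ | ⟨y, lam, lam', -, c1, c1', c2, c3, c4⟩
  · have h2 := hw (fun j => -s j) (fun j => neg_pos.2 (hs j)) (by
      simp only [neg_mul, Finset.sum_neg_distrib]
      rw [Finset.sum_congr rfl fun j _ => mul_comm (s j) _]
      push_cast at hsum
      linarith)
    refine core2 hch hp hq hlo hN (htw y) hsum (fun _ : Unit => j) (fun _ => lam) id
      (Sum.elim (fun _ => -1) fun j' => if j' = j then s j + 1 else s j') Function.injective_id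
      (fun _ => c1) ?_ ?_ (.inl ()) c2 rfl ?_
    · rintro _ _ rfl m e
      simp only [Sum.elim_inr, if_true] at e
      have : (0 : ℚ) ≤ m := Nat.cast_nonneg m
      linarith
    · intro j'
      rw [Finset.sum_filter, Fintype.sum_sum_type]
      by_cases e : j' = j
      · subst e
        simp
      · simp [e, Ne.symm e]
    · rintro (l | l) hl
      · exact (hl rfl).elim
      · exact c3 l
  · refine core2 hch hp hq hlo hN (htw y) hsum (fun _ : Bool => j)
      (fun b => if b then lam else lam') (Subtype.val : {j' // j' ≠ j} → ρ)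
      (Sum.elim (fun b => if b then -1 else s j + 1) fun j' => s j') Subtype.val_injective
      ?_ ?_ ?_ (.inl true) c2 rfl ?_
    · rintro (_ | _)
      · exact c1'
      · exact c1
    · exact fun _ l₁ e => (l₁.2 e.symm).elim
    · intro j'
      rw [Finset.sum_filter, Fintype.sum_sum_type]
      simp only [Sum.elim_inl, Sum.elim_inr]
      by_cases e : j' = j
      · subst e
        rw [Finset.sum_eq_zero (s := Finset.univ) (ι := {j'' // j'' ≠ j'})
          fun l _ => if_neg l.2]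
        simp
      · rw [Finset.sum_eq_single (⟨j', e⟩ : {j'' // j'' ≠ j})
          (fun l _ hl => if_neg fun e' => hl (Subtype.ext e'))
          (fun h => (h (Finset.mem_univ _)).elim)]
        simp [Ne.symm e]
    · rintro ((_ | _) | l) hl
      · exact c3
      · exact (hl rfl).elim
      · exact c4 l l.2

end

end Pool.Agent.P.MP_b91a16_ag.Id.Ln.Tu
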