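import Pool.Agent.P.MP_b91a16_ag.Tu.Defs
import Pool.Agent.P.MP_b91a16_ag.Ln.QK
import Pool.Agent.P.MP_b91a16_ag.Ln.QM

/-! Tuples: the roots from a branch, from a curve, from a variable, and translations. -/

open MvPolynomial

namespace Pool.Agent.P.MP_b91a16_ag.Id.Ln.Tu

noncomputable section

variable {k ι ρ : Type} [Field k] [Fintype ι] [Fintype ρ] [DecidableEq ρ]

namespace RG

omit [Fintype ρ] in
/-- A base point at which every block avoids a given subgroup. -/
theorem pick (f : ι ⊕ ρ → P2 k) (β : ι → ρ) (B : ρ → P2 k → Prop)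
    (hB : ∀ j x z, B j x → B j (x + z) → B j z) (h : ∀ j, ∃ l, bp β l = j ∧ ¬B j (f l)) :
    ∃ y : ι → k, ∀ j, ¬B j (bm f β y j) := by
  classical
  have h1 : ∀ j, ∃ l, bp β l = j ∧ ¬B j (f l) ∧ ∀ i, l = .inl i → B j (f (.inr j)) := by
    intro j
    by_cases h0 : B j (f (.inr j))
    · obtain ⟨l, h1, h2⟩ := h j
      exact ⟨l, h1, h2, fun _ _ => h0⟩
    · exact ⟨.inr j, rfl, h0, fun i hi => by cases hi⟩
  choose idx h1 h2 h3 using h1
  refine ⟨fun i => if idx (β i) = .inl i then 1 else 0, fun j => ?_⟩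
  have e1 := h1 j
  have e2 := h2 j
  have e3 := h3 j
  unfold bm
  rcases e : idx j with i | j'
  · rw [e] at e1 e2 e3
    have e4 : β i = j := e1
    rw [Finset.sum_eq_single i (fun i' hi' hne => ?_) fun hi => ?_]
    · beta_reduce
      rw [e4, if_pos e, C_1, one_mul]
      exact fun hb => e2 (hB j _ _ (e3 i rfl) hb)
    · beta_reduce
      rw [(Finset.mem_filter.1 hi').2, e, if_neg fun e6 => hne (Sum.inl_injective e6).symm, C_0,
        zero_mul]
    · exact (hi (Finset.mem_filter.2 ⟨Finset.mem_univ _, e4⟩)).elim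
  · rw [e] at e1 e2
    have e4 : j' = j := e1
    rw [Finset.sum_eq_zero fun i hi => ?_, add_zero]
    · rwa [e4] at e2
    · beta_reduce
      rw [(Finset.mem_filter.1 hi).2, e, if_neg (by simp), C_0, zero_mul]

omit [Fintype ρ] in
theorem spl {A B : Type} [Fintype A] [Fintype B] (a : A → ρ) (b : B → ρ) (u : A → ℚ) (v : B → ℚ)
    (j : ρ) : ∑ l with Sum.elim a b l = j, Sum.elim u v l =
      (∑ l, if a l = j then u l else 0) + ∑ l, if b l = j then v l else 0 := by
  rw [Finset.sum_filter, Fintype.sum_sum_type]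
  rfl

/-- The twisted equation without directions. -/
theorem tw0 {f : ι ⊕ ρ → P2 k} {β : ι → ρ} {y : ι → k} {s : ρ → ℚ} {c : k}
    (h : Tw4 f β y s c) : ∃ (u : Empty ⊕ ρ → P2 k) (Q : Prop), (∀ j, u (.inr j) = bm f β y j) ∧
      TwAt f (bp β) u (Sum.elim Empty.elim id) (Sum.elim Empty.elim s) (bm f β y) ∅ Q 1 c := by
  refine ⟨_, _, fun j => ?_, h Empty ρ Empty.elim Empty.elim id (Sum.elim Empty.elim s)
    Function.injective_id (fun l => l.elim) (fun l => l.elim) fun j => ?_⟩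
  · rfl
  · rw [spl]
    simp

omit [DecidableEq ρ] in
theorem sum0 {s : ρ → ℚ} {m : ρ → ℕ} (hs : ∑ j, (m j : ℚ) * s j + (1 : ℕ) = 0) :
    ∑ l : Empty ⊕ ρ, Sum.elim Empty.elim s l * (m (Sum.elim Empty.elim id l) : ℚ) + 1 = 0 := by
  rw [Fintype.sum_sum_type, ← hs]
  simp [mul_comm]

theorem tw_pb {f : ι ⊕ ρ → P2 k} {β : ι → ρ} {y : ι → k} {s : ρ → ℚ} {c : k} (b : Fin 2 → k)
    (h : Tw4 f β y s c) : Tw4 (pb (tl b) f) β y s c := by
  intro Λ₀ Λ₁ _ _ blk lam act σ h1 h2 h3 h4 K _ _ π D V g1 g2 g3 _ g5 g6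
  have eu : ∀ l : Λ₀ ⊕ Λ₁, (π.comp (aeval (tl b)))
      (Sum.elim (fun l => lc f (lam l)) (fun l₁ => bm f β y (act l₁)) l) =
      π (Sum.elim (fun l => lc (pb (tl b) f) (lam l))
        (fun l₁ => bm (pb (tl b) f) β y (act l₁)) l) := by
    rintro (l | l)
    · exact congrArg π (QM.aeval_lc _ _ _)
    · exact congrArg π (QM.aeval_bm _ _ _ _ _)
  have eX : ∀ j, (π.comp (aeval (tl b))) (X j) = π (X j) + algebraMap k K (b j) := by
    intro j
    rw [AlgHom.comp_apply, aeval_X, tl, map_add, ← algebraMap_eq, AlgHom.commutes]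
  have key := h Λ₀ Λ₁ blk lam act σ h1 h2 h3 h4 K (π.comp (aeval (tl b))) D V
    (fun i j => by rw [eX, map_add, Derivation.map_algebraMap, add_zero, g1])
    (fun l => by rw [eu]; exact g2 l)
    (fun hQ α γ hγ => by simp only [eu]; exact g3 hQ α γ hγ)
    (fun α hα => hα.elim)
    (fun z hz j => by
      rw [eX, add_mul, ← Algebra.smul_def]
      exact V.add_mem (g5 z hz j) (V.smul_mem _ hz))
    (fun z hz i => by simp only [eu]; exact g6 z hz i)
  rw [map_one] at key ⊢
  exact key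

end RG

theorem rBr4_ok [CharZero k] : S_rBr4 k ι ρ := by
  intro β f π n m φ hπ hφ hm h1 h2
  refine ⟨one_pos, hm, fun s c htw _ hs => ?_⟩
  obtain ⟨y, hy⟩ := RG.pick f β (fun j x => (Φs φ (aeval π x)).coeff (m j) = 0)
    (fun j x z e1 e2 => by rwa [map_add, map_add, Polynomial.coeff_add, e1, zero_add] at e2) h2
  obtain ⟨u, Q, hu, hT⟩ := RG.tw0 (htw y)
  refine br3_ok _ f (bp β) π n m φ u _ _ _ _ Q 1 c hπ hφ hm h1 ?_ (RG.sum0 hs)
    (fun _ h => h) (by simp) hT
  rintro (l | j)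
  · exact l.elim
  · rw [hu]
    refine ⟨?_, hy j⟩
    rw [QK.map_bm]
    refine dvd_add (h1 (.inr j)) (Finset.dvd_sum fun i hi => ?_)
    have e1 : Polynomial.X ^ m (β i) ∣ Φs φ (pb π f (.inl i)) := h1 (.inl i)
    rw [(Finset.mem_filter.1 hi).2] at e1
    rw [Algebra.smul_def]
    exact e1.mul_left _

theorem rc4_ok [CharZero k] : S_rc4 k ι ρ := by
  intro f h β P m hP hf hh hm
  refine ⟨one_pos, hm, fun s c htw _ hs => ?_⟩
  obtain ⟨y, hy⟩ := RG.pick h β (fun _ x => P ∣ x)
    (fun _ x z e1 e2 => (dvd_add_right e1).1 e2) hh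
  obtain ⟨u, Q, hu, hT⟩ := RG.tw0 (htw y)
  refine QK.core (A := P2 k) hP (fun i => pderiv i) 1 hP.not_dvd_one (AlgHom.id k _) ?_ f (bp β) m hm
    (fun l => ⟨h l, hf l⟩) u _ ?_ 1 hP.not_dvd_one _ (RG.sum0 hs) _ _ (fun _ h => h) Q c hT
  · intro i j
    rw [AlgHom.id_apply, pderiv_X, Pi.single_apply]
    exact if_congr eq_comm rfl rfl
  · rintro (l | j)
    · exact l.elim
    · refine ⟨bm h β y j, hy j, ?_⟩
      rw [AlgHom.id_apply, hu]
      unfold bm
      rw [mul_add, Finset.mul_sum, hf (.inr j)]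
      congr 1
      refine Finset.sum_congr rfl fun i hi => ?_
      have e1 : f (.inl i) = P ^ m (β i) * h (.inl i) := hf (.inl i)
      rw [e1, (Finset.mem_filter.1 hi).2]
      exact mul_left_comm _ _ _

theorem neg4_ok [CharZero k] : S_neg4 k ι ρ := by
  classical
  intro f β i t hi hf ht
  refine ⟨ht, fun e => ht.ne' ?_, fun s c htw _ hs => ?_⟩
  · have := congrFun e (β i)
    simpa using this
  have hs1 : s (β i) = -1 := by
    rw [Finset.sum_eq_single (β i) (fun j _ hj => by simp [Pi.single_eq_of_ne hj])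
      (fun h => (h (Finset.mem_univ _)).elim)] at hs
    simp only [Pi.single_eq_same] at hs
    have h0 : (t : ℚ) ≠ 0 := by exact_mod_cast ht.ne'
    exact mul_left_cancel₀ h0 (by linear_combination hs)
  obtain ⟨y, hy⟩ := RG.pick f β (fun _ x => x = 0)
    (fun _ x z e1 e2 => by rwa [e1, zero_add] at e2) hf
  have hT := htw y Unit {j // j ≠ β i} (fun _ => β i) (fun _ => Pi.single i 1) Subtype.val
    (Sum.elim (fun _ => -1) fun j => s j) Subtype.val_injective
    (fun _ i' h => by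
      by_contra hne
      exact h (Pi.single_eq_of_ne (fun e => hne (by rw [e])) _))
    (fun _ l₁ h => (l₁.2 h.symm).elim)
    (fun j => by
      rw [RG.spl]
      by_cases hj : j = β i
      · subst hj
        rw [Finset.sum_eq_zero (s := (Finset.univ : Finset {j // j ≠ β i}))
          fun l _ => if_neg l.2]
        simp [hs1]
      · rw [Finset.sum_eq_single (⟨j, hj⟩ : {j // j ≠ β i})
          (fun l _ hl => if_neg fun e => hl (Subtype.ext e))
          fun h => (h (Finset.mem_univ _)).elim]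
        simp [Ne.symm hj])
  let K := FractionRing (P2 k)
  choose D hD using fun a : Fin 2 => exists_der (k := k) (K := K) (pderiv a : Derivation k (P2 k) _)
  have hinj : ∀ x : P2 k, x ≠ 0 → IsScalarTower.toAlgHom k (P2 k) K x ≠ 0 := fun x hx h0 =>
    hx ((map_eq_zero_iff _ (IsFractionRing.injective (P2 k) K)).1 h0)
  have key := hT K (IsScalarTower.toAlgHom k (P2 k) K) D ⊥ (fun a j => ?_) ?_
    (fun hQ => (hQ (β i) (fun l₁ => l₁.2) hs1).elim) (fun α hα => hα.elim)
    (fun z hz j => ?_) (fun z hz a => ?_)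
  · rw [map_one, Submodule.mem_bot, smul_eq_zero] at key
    exact key.resolve_right one_ne_zero
  · rw [IsScalarTower.coe_toAlgHom', hD, pderiv_X, Pi.single_apply]
    by_cases h : a = j
    · rw [if_pos h, if_pos h.symm, map_one]
    · rw [if_neg h, if_neg (Ne.symm h), map_zero]
  · rintro (l | l)
    · refine hinj _ ?_
      show lc f (Pi.single i 1) ≠ 0
      unfold lc
      rw [Finset.sum_eq_single i (fun j _ hj => by simp [Pi.single_eq_of_ne hj])
        (fun h => (h (Finset.mem_univ _)).elim)]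
      simpa using hi
    · exact hinj _ (hy l)
  · rw [Submodule.mem_bot] at hz ⊢
    rw [hz, mul_zero]
  · rw [Submodule.mem_bot] at hz ⊢
    rw [hz, mul_zero, map_zero, add_zero]

theorem trn4_ok : S_trn4 k ι ρ := fun _ _ b _ hp =>
  ⟨hp.1, hp.2.1, fun s c htw => hp.2.2 s c fun y => RG.tw_pb b (htw y)⟩

end

end Pool.Agent.P.MP_b91a16_ag.Id.Ln.Tu
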