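import Pool.Agent.P.MP_b91a16_ag.Tu.Defs

/-! Package H: common zeros of coprime plane curves, partial derivatives, multiplicities. -/

open MvPolynomial

namespace Pool.Agent.P.MP_b91a16_ag.Id.Ln.Tu

noncomputable section

namespace RH

variable {k : Type} [Field k]

/-- Elimination of one variable. -/
theorem elim {P h : P2 k} (hP : Prime P) (hh : ¬P ∣ h) (a a' : Fin 2) (haa : ∀ i, i ≠ a → i = a') :
    ∃ r : Polynomial k, r ≠ 0 ∧ ∃ u v : P2 k, Polynomial.aeval (X a : P2 k) r = u * P + v * h := by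
  classical
  let _ : Algebra (Polynomial k) (P2 k) := (Polynomial.aeval (X a : P2 k)).toRingHom.toAlgebra
  have hal : ∀ r : Polynomial k, algebraMap (Polynomial k) (P2 k) r = Polynomial.aeval (X a) r :=
    fun _ => rfl
  have hs : ∀ g : P2 k, ∃ q : Polynomial (Polynomial k), Polynomial.aeval (X a' : P2 k) q = g := by
    intro g
    induction g using MvPolynomial.induction_on with
    | C c => exact ⟨Polynomial.C (Polynomial.C c), by rw [Polynomial.aeval_C, hal]; simp⟩
    | add f g hf hg =>
      obtain ⟨q, rfl⟩ := hf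
      obtain ⟨q', rfl⟩ := hg
      exact ⟨q + q', map_add _ _ _⟩
    | mul_X f i hf =>
      obtain ⟨q, rfl⟩ := hf
      by_cases e : i = a
      · exact ⟨q * Polynomial.C Polynomial.X, by rw [map_mul, Polynomial.aeval_C, hal, e]; simp⟩
      · exact ⟨q * Polynomial.X, by rw [map_mul, Polynomial.aeval_X, haa i e]⟩
  let I : Ideal (P2 k) := Ideal.span {P}
  have : I.IsPrime := (Ideal.span_singleton_prime hP.ne_zero).2 hP
  let π := Ideal.Quotient.mkₐ (Polynomial k) I
  have hy : IsAlgebraic (Polynomial k) (π (X a')) := by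
    obtain ⟨q, hq⟩ := hs P
    refine ⟨q, fun e => hP.ne_zero (by rw [← hq, e, map_zero]), ?_⟩
    rw [Polynomial.aeval_algHom_apply, hq]
    exact Ideal.Quotient.eq_zero_iff_mem.2 (Ideal.mem_span_singleton_self P)
  have hall : ∀ q : Polynomial (Polynomial k),
      IsAlgebraic (Polynomial k) (Polynomial.aeval (π (X a')) q) := by
    intro q
    induction q using Polynomial.induction_on with
    | C c => rw [Polynomial.aeval_C]; exact isAlgebraic_algebraMap c
    | add f g hf hg => rw [map_add]; exact hf.add hg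
    | monomial n c hc => rw [pow_succ, ← mul_assoc, map_mul, Polynomial.aeval_X]; exact hc.mul hy
  obtain ⟨q, hq⟩ := hs h
  have h1 := hall q
  rw [Polynomial.aeval_algHom_apply, hq] at h1
  obtain ⟨r, hr, w, hw⟩ := h1.exists_nonzero_dvd (mem_nonZeroDivisors_of_ne_zero fun e =>
    hh (Ideal.mem_span_singleton.1 (Ideal.Quotient.eq_zero_iff_mem.1 e)))
  obtain ⟨v, rfl⟩ := Ideal.Quotient.mk_surjective w
  have h2 : Polynomial.aeval (X a : P2 k) r - h * v ∈ I := Ideal.Quotient.eq.1 hw
  obtain ⟨u, hu⟩ := Ideal.mem_span_singleton'.1 h2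
  exact ⟨r, hr, u, v, by rw [hu]; ring⟩

theorem root [IsAlgClosed k] {r : Polynomial k} (hr : r ≠ 0) {K : Type} [Field K] [Algebra k K]
    {x : K} (hx : Polynomial.aeval x r = 0) : ∃ c ∈ r.roots, x = algebraMap k K c := by
  have h1 : x ∈ (r.map (algebraMap k K)).roots := by
    rw [Polynomial.mem_roots (Polynomial.map_ne_zero hr), Polynomial.IsRoot.def,
      Polynomial.eval_map_algebraMap, hx]
  rw [(IsAlgClosed.splits r).roots_map, Multiset.mem_map] at h1
  obtain ⟨c, hc, e⟩ := h1
  exact ⟨c, hc, e.symm⟩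

end RH

variable {k ι ρ : Type} [Field k]

theorem bez_ok [IsAlgClosed k] : S_bez k := by
  classical
  intro P h hP hh
  have key : ∀ a : Fin 2, ∃ r : Polynomial k, r ≠ 0 ∧
      ∃ u v : P2 k, Polynomial.aeval (X a : P2 k) r = u * P + v * h := fun a => by
    refine RH.elim hP hh a (a + 1) ?_
    revert a
    decide
  choose r hr u v huv using key
  refine ⟨Fintype.piFinset fun a => (r a).roots.toFinset, fun K _ _ x h1 h2 => ?_⟩
  have h3 : ∀ a, ∃ c ∈ (r a).roots, x a = algebraMap k K c := fun a => RH.root (hr a) (by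
    have := congrArg (aeval x) (huv a)
    rwa [map_add, map_mul, map_mul, h1, h2, mul_zero, mul_zero, add_zero,
      ← Polynomial.aeval_algHom_apply, aeval_X] at this)
  choose c hc hx using h3
  exact ⟨c, Fintype.mem_piFinset.2 fun a => Multiset.mem_toFinset.2 (hc a), funext hx⟩

theorem pd_ok [CharZero k] : S_pd k := by
  classical
  intro P hP
  by_contra hn
  push Not at hn
  have h0 : ∀ a, P.degreeOf a = 0 := fun a => by
    by_contra hd
    obtain ⟨m, hm, e⟩ := Finset.exists_mem_eq_sup P.support (support_nonempty.2 hP.ne_zero)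
      fun m => m a
    rw [← degreeOf_eq_sup] at e
    have hle : Finsupp.single a 1 ≤ m := Finsupp.single_le_iff.2 (by omega)
    have hne : pderiv a P ≠ 0 := fun h => by
      have := coeff_pderiv (i := a) P (m - Finsupp.single a 1)
      rw [h, tsub_add_cancel_of_le hle, coeff_zero, eq_comm, mul_eq_zero] at this
      exact this.elim (mem_support_iff.1 hm) (Nat.cast_add_one_ne_zero _)
    have hlt : (pderiv a P).degreeOf a < P.degreeOf a := by
      rw [degreeOf_lt_iff (Nat.pos_of_ne_zero hd)]
      intro m' hm'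
      rw [mem_support_iff, coeff_pderiv] at hm'
      have := monomial_le_degreeOf a (mem_support_iff.2 (left_ne_zero_of_mul hm'))
      simp only [Finsupp.add_apply, Finsupp.single_eq_same] at this
      omega
    obtain ⟨c, hc⟩ := hn a
    have hc0 : c ≠ 0 := fun h => hne (by rw [hc, h, mul_zero])
    rw [hc, degreeOf_mul_eq hP.ne_zero hc0] at hlt
    omega
  have h1 : P.totalDegree = 0 := by
    rw [totalDegree_eq_zero_iff]
    intro m hm a
    exact Nat.le_zero.1 ((monomial_le_degreeOf a hm).trans (h0 a).le)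
  rw [totalDegree_eq_zero_iff_eq_C] at h1
  refine hP.not_isUnit ?_
  rw [h1]
  exact (Ne.isUnit fun e => hP.ne_zero (by rw [h1, e, C_0])).map C

theorem mul_ok : S_mul k ι ρ := by
  classical
  intro f β P hP hne
  have key : ∀ j, ∃ n : ℕ, ∃ l, β l = j ∧ ¬P ^ (n + 1) ∣ f l := fun j => by
    obtain ⟨l, hl, h0⟩ := hne j
    obtain ⟨n, hn⟩ := FiniteMultiplicity.of_prime_left hP h0
    exact ⟨n, l, hl, hn⟩
  have hd : ∀ l, P ^ Nat.find (key (β l)) ∣ f l := fun l => by
    rcases e : Nat.find (key (β l)) with _ | n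
    · rw [pow_zero]
      exact one_dvd _
    · by_contra h
      exact Nat.find_min (key (β l)) (e ▸ n.lt_succ_self) ⟨l, rfl, h⟩
  choose h hh using hd
  refine ⟨fun j => Nat.find (key j), h, hh, fun j => ?_⟩
  obtain ⟨l, rfl, hl⟩ := Nat.find_spec (key j)
  refine ⟨l, rfl, fun e => hl ?_⟩
  rw [pow_succ]
  exact (mul_dvd_mul_left _ e).trans (hh l).symm.dvd

end

end Pool.Agent.P.MP_b91a16_ag.Id.Ln.Tu
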