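import Pool.Agent.P.MP_b91a16_ag.Tu.Defs
import Pool.Agent.P.MP_b91a16_ag.Ln.QA

/-! Constructibility of the status conditions and of the sets of starting points. -/

set_option linter.unusedSectionVars false

open MvPolynomial

namespace Pool.Agent.P.MP_b91a16_ag.Id.Ln.Tu

variable {k ι ρ : Type} [Field k] [Fintype ι] [Fintype ρ] [DecidableEq ρ]

namespace RI

theorem con_aux (β : ι → ρ) (s : ρ → Bool) {κ : Type} {P : Pred k κ} {v : Mot k}
    (E : ι → MvPolynomial κ k) (h : HasVol P v) (T : Finset ρ) :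
    ∃ v', HasVol (k := k) (fun K _ _ x => P K x ∧
      ∀ j ∈ T, (s j = true ↔ ∃ i, β i = j ∧ aeval x (E i) ≠ 0)) v' := by
  classical
  induction T using Finset.induction_on with
  | empty => exact ⟨v, h.congr fun K _ _ x => by simp⟩
  | insert j T _ ih =>
    obtain ⟨v₁, h₁⟩ := ih
    cases hs : s j with
    | true =>
      obtain ⟨v₂, h₂⟩ := PkR.and_exists_ne (Finset.univ.filter fun i => β i = j) E h₁
      refine ⟨v₂, h₂.congr fun K _ _ x => ?_⟩
      simp only [Finset.mem_filter, Finset.mem_univ, true_and, Finset.forall_mem_insert, hs,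
        true_iff]
      tauto
    | false =>
      obtain ⟨v₂, h₂⟩ := h₁.and_forall_eq (Finset.univ.filter fun i => β i = j) E
      refine ⟨v₂, h₂.congr fun K _ _ x => ?_⟩
      simp only [Finset.mem_filter, Finset.mem_univ, true_and, Finset.forall_mem_insert, hs,
        Bool.false_eq_true, false_iff, not_exists, not_and, not_not]
      tauto

theorem cc_aeval {K : Type} [Field K] [Algebra k K] (γ : Fin 2 → PowerSeries K) (g : P2 k) :
    PowerSeries.constantCoeff (aeval γ g) =
      aeval (fun a => PowerSeries.constantCoeff (γ a)) g := by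
  induction g using MvPolynomial.induction_on with
  | C c => simp [PowerSeries.algebraMap_apply]
  | add p q hp hq => simp [hp, hq]
  | mul_X p a hp => simp [hp]

theorem cc_ser {K : Type} [Field K] (x : Fin 2 × ℕ → K) :
    (fun a => PowerSeries.constantCoeff (ser x a)) = fun a => x (a, 0) := by
  funext a
  simp [ser]

theorem pts (B : Finset (Fin 2 → k)) {P : Pred k (Fin 2 × ℕ)} {v : Mot k} (h : HasVol P v) :
    ∃ v', HasVol (k := k) (fun K _ _ x => P K x ∧ ∀ b ∈ B, ¬Pt b K fun a => x (a, 0)) v' := by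
  classical
  induction B using Finset.induction_on with
  | empty => exact ⟨v, h.congr fun K _ _ x => by simp⟩
  | insert b B _ ih =>
    obtain ⟨v₁, h₁⟩ := ih
    obtain ⟨v₂, h₂⟩ := PkR.and_exists_ne Finset.univ
      (fun a : Fin 2 => (X (a, 0) - C (b a) : MvPolynomial (Fin 2 × ℕ) k)) h₁
    refine ⟨v₂, h₂.congr fun K _ _ x => ?_⟩
    have h3 : (∃ a ∈ (Finset.univ : Finset (Fin 2)),
        aeval x (X (a, 0) - C (b a) : MvPolynomial (Fin 2 × ℕ) k) ≠ 0) ↔
        ¬Pt b K fun a => x (a, 0) := by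
      simp only [Finset.mem_univ, true_and, map_sub, aeval_X, aeval_C, sub_ne_zero, Pt,
        funext_iff, not_forall]
    rw [h3, Finset.forall_mem_insert]
    tauto

end RI

open RI

theorem conT_ok : S_conT k ι ρ := by
  intro β s κ P v E h
  obtain ⟨v', h'⟩ := con_aux β s (fun i => E (.inl i)) h Finset.univ
  exact ⟨v', h'.congr fun K _ _ x => by simp only [ΞT, Finset.mem_univ, forall_true_left]⟩

theorem cst_ok : S_cst k ι ρ := by
  classical
  intro Ξ f β Q v hΞ hv hQ
  obtain ⟨w, hw⟩ := exTh_ok Ξ f β 0 (At Q) v hΞ hv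
  refine ⟨w, fun e => ?_⟩
  rw [MvPowerSeries.coeff_C]
  split_ifs with he
  · rwa [he]
  · refine hasVol_false.congr fun K _ _ x => ⟨False.elim, fun H => he ?_⟩
    ext j
    obtain ⟨l, hl, h0⟩ := hQ K _ H.1 j
    rw [← cc_aeval] at h0
    by_contra hj
    exact h0 (PowerSeries.X_dvd_iff.1
      ((dvd_pow_self _ hj).trans ((H.2.1 j).1 l hl)))

theorem atv_ok : S_atv k := by
  intro G B
  obtain ⟨v₁, v₂, h₁, h₂, -⟩ := (hasVol_true (k := k) (ι := Fin 2 × ℕ)).split
    (rename (fun a => (a, 0)) G)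
  obtain ⟨w₁, g₁⟩ := pts B h₁
  obtain ⟨w₂, g₂⟩ := pts B h₂
  refine ⟨⟨w₁, g₁.congr fun K _ _ x => ?_⟩, w₂, g₂.congr fun K _ _ x => ?_⟩
  · simp only [At, Vz, cc_ser, aeval_rename, true_and]
    rfl
  · simp only [At, Uz, cc_ser, aeval_rename, true_and]
    rfl

end Pool.Agent.P.MP_b91a16_ag.Id.Ln.Tu
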