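import Pool.Agent.P.MP_b91a16_ag.Tu.Defs

/-! Package J: arcs that start at a generic point of a plane curve. -/

set_option linter.unusedSectionVars false

open MvPolynomial

namespace Pool.Agent.P.MP_b91a16_ag.Id.Ln.Tu

noncomputable section

variable {k ι ρ : Type} [Field k] [Fintype ι] [Fintype ρ] [DecidableEq ρ]

namespace RJ

theorem taylor {S : Type} [CommRing S] [Algebra k S] (γ : Fin 2 → S) (a : Fin 2) (δ : S)
    (P : P2 k) : δ ^ 2 ∣ aeval (Function.update γ a (γ a + δ)) P - aeval γ P -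
      δ * aeval γ (pderiv a P) := by
  induction P using MvPolynomial.induction_on with
  | C c => simp
  | add p q hp hq =>
    simp only [map_add]
    convert dvd_add hp hq using 1
    ring
  | mul_X p i hp =>
    by_cases e : i = a
    · subst e
      simp only [map_mul, aeval_X, Function.update_self, Derivation.leibniz, pderiv_X_self,
        smul_eq_mul, mul_one, map_add]
      convert dvd_add (hp.mul_right (γ i + δ)) (dvd_mul_right _ (aeval γ (pderiv i p))) using 1
      ring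
    · simp only [map_mul, aeval_X, Function.update_of_ne e, Derivation.leibniz,
        pderiv_X_of_ne e, smul_eq_mul, mul_zero, zero_add]
      convert hp.mul_right (γ i) using 1
      ring

theorem coeff0 {K : Type} [Field K] [Algebra k K] (γ : Fin 2 → PowerSeries K) (G : P2 k) :
    PowerSeries.coeff 0 (aeval γ G) = aeval (fun a => PowerSeries.constantCoeff (γ a)) G := by
  rw [PowerSeries.coeff_zero_eq_constantCoeff_apply]
  induction G using MvPolynomial.induction_on with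
  | C c => simp [alg_ps]
  | add p q hp hq => simp only [map_add, hp, hq]
  | mul_X p i hp => simp only [map_mul, hp, aeval_X]

theorem c0_update {K : Type} [Field K] (x : Fin 2 × ℕ → K) (a : Fin 2) (n : ℕ) (t : K) :
    (fun b => PowerSeries.constantCoeff (ser (Function.update x (a, n + 1) t) b)) =
      fun b => PowerSeries.constantCoeff (ser x b) := by
  funext b
  simp only [← PowerSeries.coeff_zero_eq_constantCoeff_apply, ser, PowerSeries.coeff_mk]
  exact Function.update_of_ne (by simp) _ _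

theorem ord_le {g : ι → P2 k} {β : ι → ρ} {e e' : ρ →₀ ℕ} {K : Type} [Field K] [Algebra k K]
    {γ : Fin 2 → PowerSeries K} (h : Ord g β e K γ) (h' : Ord g β e' K γ) (j : ρ) :
    e j ≤ e' j := by
  obtain ⟨l, hl, h1⟩ := (h' j).2
  by_contra hc
  exact h1 ((pow_dvd_pow _ (by omega)).trans ((h j).1 l hl))

variable (P : P2 k) (B : Pred k (Fin 2))

/-- The arc starts in `B` and `P` vanishes to order more than `n`. -/
def PL (n : ℕ) : Pred k (Fin 2 × ℕ) := fun K _ _ x =>
  At B K (ser x) ∧ PowerSeries.X ^ (n + 1) ∣ aeval (ser x) P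

variable {P B}

theorem step (hB : ∀ (K : Type) [Field K] [Algebra k K] x, B K x →
    ∃ a, aeval x (pderiv a P) ≠ 0) {n : ℕ} {v : Mot k} (h : HasVol (PL P B n) v) :
    HasVol (PL P B (n + 1)) (Linv k * v) := by
  refine (h.elim_multi Finset.univ (fun a => (a, n + 1))
    (PowerSeries.coeff (n + 1) (aeval (ser X) P))
    (fun a => PowerSeries.coeff 0 (aeval (ser X) (pderiv a P)))
    (fun K _ _ x t i _ j _ => ?_) (fun K _ _ x t i _ => ?_) (fun K _ _ x t i _ hx => ⟨?_, ?_⟩)
    fun K _ _ x hx => ?_).congr fun K _ _ x => ?_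
  · rw [aeval_coeff, aeval_coeff, coeff0, coeff0, c0_update]
  · rw [aeval_coeff, aeval_coeff, aeval_coeff, ser_update]
    have h1 := PowerSeries.X_pow_dvd_iff.1 ((show PowerSeries.X ^ (n + 2) ∣ _ from by
      rw [mul_pow, ← pow_mul]
      exact (pow_dvd_pow _ (by omega)).mul_right _).trans (taylor (ser x) i
        (PowerSeries.X ^ (n + 1) * PowerSeries.C (t - x (i, n + 1))) P)) (n + 1) (by omega)
    have h2 := PowerSeries.coeff_X_pow_mul (PowerSeries.C (t - x (i, n + 1)) *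
      aeval (ser x) (pderiv i P)) (n + 1) 0
    rw [zero_add, PowerSeries.coeff_C_mul] at h2
    rw [map_sub, map_sub, mul_assoc, h2] at h1
    linear_combination h1
  · have := hx.1
    rwa [At, ← c0_update x i n t] at this
  · have h1 := aeval_congr_dvd (t := PowerSeries.X ^ (n + 1)) (γ := ser x)
      (γ' := ser (Function.update x (i, n + 1) t)) (fun j => by
        rw [ser_update]
        by_cases e : j = i
        · subst e
          simp
        · simp [Function.update_of_ne e]) P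
    simpa using dvd_add h1 hx.2
  · obtain ⟨a, ha⟩ := hB K _ hx.1
    exact ⟨a, Finset.mem_univ a, by rwa [aeval_coeff, coeff0]⟩
  · rw [aeval_coeff, PL, PL, dvd_succ_iff (m := n + 1), and_assoc]

theorem vol (hB : ∀ (K : Type) [Field K] [Algebra k K] x, B K x → aeval x P = 0 ∧
    ∃ a, aeval x (pderiv a P) ≠ 0) {w : Mot k} (h : AV (At B) w) (n : ℕ) :
    HasVol (PL P B n) (Linv k ^ n * w) := by
  induction n with
  | zero =>
    rw [pow_zero, one_mul]
    refine HasVol.congr h fun K _ _ x => ⟨fun H => ⟨H, ?_⟩, fun H => H.1⟩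
    rw [dvd_succ_iff, coeff0]
    exact ⟨by simp, (hB K _ H).1⟩
  | succ n ih =>
    rw [pow_succ', mul_assoc]
    exact step (fun K _ _ x hx => (hB K x hx).2) ih

theorem vol' (hB : ∀ (K : Type) [Field K] [Algebra k K] x, B K x → aeval x P = 0 ∧
    ∃ a, aeval x (pderiv a P) ≠ 0) {w : Mot k} (h : AV (At B) w) (n : ℕ) :
    AV (k := k) (fun K _ _ γ => At B K γ ∧ PowerSeries.X ^ (n + 1) ∣ aeval γ P ∧
      PowerSeries.coeff (n + 1) (aeval γ P) ≠ 0) ((1 - Linv k) * Linv k ^ n * w) := by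
  obtain ⟨v₁, v₂, h₁, h₂, e⟩ := (vol hB h n).split (PowerSeries.coeff (n + 1) (aeval (ser X) P))
  have e₁ : v₁ = _ := h₁.unique ((vol hB h (n + 1)).congr fun K _ _ x => by
    rw [aeval_coeff, PL, PL, dvd_succ_iff (m := n + 1), and_assoc])
  have e₂ : (1 - Linv k) * Linv k ^ n * w = v₂ := by
    rw [e₁] at e
    linear_combination e
  rw [e₂]
  exact h₂.congr fun K _ _ x => by rw [aeval_coeff, PL, and_assoc]

theorem th_iff {f h : ι ⊕ ρ → P2 k} {β : ι → ρ} {α : ρ →₀ ℕ} (hα : α ≠ 0)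
    (hf : ∀ l, f l = P ^ α (bp β l) * h l) {K : Type} [Field K] [Algebra k K]
    {γ : Fin 2 → PowerSeries K}
    (hh : ∀ j, ∃ l, bp β l = j ∧ aeval (fun a => PowerSeries.constantCoeff (γ a)) (h l) ≠ 0)
    (s : ρ → Bool) (e : ρ →₀ ℕ) : Th (ΞT β s) f (bp β) e K γ ↔
      ∃ i : ℕ, i • α = e ∧ (PowerSeries.X ^ i ∣ aeval γ P ∧ PowerSeries.coeff i (aeval γ P) ≠ 0) ∧
        ΞT (k := k) β s K fun l => aeval (fun a => PowerSeries.constantCoeff (γ a)) (h l) := by
  have key : ∀ i : ℕ, PowerSeries.X ^ i ∣ aeval γ P → PowerSeries.coeff i (aeval γ P) ≠ 0 →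
      Ord f (bp β) (i • α) K γ ∧ ((ΞT (k := k) β s K fun l =>
        PowerSeries.coeff ((i • α) (bp β l)) (aeval γ (f l))) ↔
        ΞT (k := k) β s K fun l => aeval (fun a => PowerSeries.constantCoeff (γ a)) (h l)) := by
    rintro i ⟨u, hu⟩ h0
    have h1 : PowerSeries.constantCoeff u ≠ 0 := by
      have := PowerSeries.coeff_X_pow_mul u i 0
      rw [zero_add] at this
      rwa [hu, this, PowerSeries.coeff_zero_eq_constantCoeff_apply] at h0
    have h2 : ∀ l, aeval γ (f l) =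
        PowerSeries.X ^ (i • α) (bp β l) * (u ^ α (bp β l) * aeval γ (h l)) := fun l => by
      rw [hf, map_mul, map_pow, hu, mul_pow, ← pow_mul, mul_assoc]
      rfl
    have h3 : ∀ l, PowerSeries.coeff ((i • α) (bp β l)) (aeval γ (f l)) ≠ 0 ↔
        aeval (fun a => PowerSeries.constantCoeff (γ a)) (h l) ≠ 0 := fun l => by
      have := PowerSeries.coeff_X_pow_mul (u ^ α (bp β l) * aeval γ (h l)) ((i • α) (bp β l)) 0
      rw [zero_add] at this
      rw [h2, this, PowerSeries.coeff_zero_eq_constantCoeff_apply, map_mul, map_pow, ← coeff0,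
        PowerSeries.coeff_zero_eq_constantCoeff_apply, mul_ne_zero_iff_left (pow_ne_zero _ h1)]
    refine ⟨fun j => ⟨fun l hl => ?_, ?_⟩, ?_⟩
    · rw [h2, hl]
      exact Dvd.intro _ rfl
    · obtain ⟨l, rfl, hl⟩ := hh j
      exact ⟨l, rfl, fun hd => (h3 l).2 hl (dvd_succ_iff.1 hd).2⟩
    · simp only [ΞT, h3]
  refine ⟨fun H => ?_, ?_⟩
  · have h0 : aeval γ P ≠ 0 := fun h0 => by
      obtain ⟨j, hj⟩ := Finsupp.ne_iff.1 hα
      obtain ⟨l, rfl, hl⟩ := (H.1 j).2
      exact hl (by rw [hf, map_mul, map_pow, h0, zero_pow hj, zero_mul]; exact dvd_zero _)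
    have h1 := PowerSeries.coeff_order h0
    have h2 := PowerSeries.X_pow_order_dvd (φ := aeval γ P)
    obtain ⟨h3, h4⟩ := key _ h2 h1
    obtain rfl : (aeval γ P).order.toNat • α = e :=
      Finsupp.ext fun j => le_antisymm (ord_le h3 H.1 j) (ord_le H.1 h3 j)
    exact ⟨_, rfl, ⟨h2, h1⟩, h4.1 H.2⟩
  · rintro ⟨i, rfl, ⟨h1, h2⟩, h3⟩
    exact ⟨(key i h1 h2).1, (key i h1 h2).2.2 h3⟩

end RJ

open RJ in
theorem crv_ok (hc : S_conT k ι ρ) : S_crv k ι ρ := by
  intro A f h β P m Q v s hm hA hf hv hQ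
  obtain ⟨α, rfl⟩ : ∃ α : ρ →₀ ℕ, ⇑α = m := ⟨Finsupp.equivFunOnFinite.symm m, rfl⟩
  have hα : α ≠ 0 := fun e => hm (by simp [e])
  obtain ⟨w, hw⟩ := hc β s _ _ v (fun l => PowerSeries.coeff 0 (aeval (ser X) (h l))) hv
  have hw' : AV (At (k := k) fun K _ _ x => Q K x ∧ ΞT (k := k) β s K fun l => aeval x (h l)) w :=
    hw.congr fun K _ _ x => by simp only [aeval_coeff, coeff0, At]
  have hV := vol' (P := P) (fun K _ _ x hx => ⟨(hQ K x hx.1).1, (hQ K x hx.1).2.1⟩) hw'
  obtain ⟨Z, h0, h1, h2⟩ := PO.ser_mem (k := k) (A := A) hα one_pos (ν := 1)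
    (by simpa only [one_mul] using hA)
    (fun i => if i = 0 then 0 else (1 - Linv k) * Linv k ^ (i - 1) * w) fun i hi => by
      obtain ⟨n, rfl⟩ : ∃ n, i = n + 1 := ⟨i - 1, by omega⟩
      rw [if_neg (by omega), if_neg (by omega), Nat.add_sub_cancel, Nat.add_sub_cancel]
      ring
  obtain ⟨j, hj⟩ := Finsupp.ne_iff.1 hα
  have hi : ∀ i i' : ℕ, i • α = i' • α → i = i' := fun i i' e =>
    Nat.eq_of_mul_eq_mul_right (Nat.pos_of_ne_zero hj) (by simpa using DFunLike.congr_fun e j)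
  refine ⟨Z, h0, fun e => ?_⟩
  by_cases he : ∃ i : ℕ, i • α = e
  · obtain ⟨_ | n, rfl⟩ := he
    · rw [h1, if_pos rfl]
      refine av_false fun K _ _ γ H => ?_
      obtain ⟨i, e, h3, -⟩ := (th_iff hα hf (hQ K _ H.1).2.2 s _).1 H.2
      rw [hi _ _ e, coeff0] at h3
      exact h3.2 (hQ K _ H.1).1
    · rw [h1, if_neg n.succ_ne_zero, Nat.add_sub_cancel]
      refine (hV n).congr fun K _ _ γ => ⟨fun H => ⟨H.1.1, ?_⟩, fun H => ?_⟩
      · exact (th_iff hα hf (hQ K _ H.1.1).2.2 s _).2 ⟨_, rfl, H.2, H.1.2⟩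
      · obtain ⟨i, e, h3, h4⟩ := (th_iff hα hf (hQ K _ H.1).2.2 s _).1 H.2
        rw [hi _ _ e] at h3
        exact ⟨⟨H.1, h4⟩, h3⟩
  · rw [h2 e (not_exists.1 he)]
    exact av_false fun K _ _ γ H =>
      he (((th_iff hα hf (hQ K _ H.1).2.2 s _).1 H.2).imp fun _ h => h.1)

end

end Pool.Agent.P.MP_b91a16_ag.Id.Ln.Tu
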