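import Pool.Agent.P.MP_b91a16_ag.Tu.Defs

/-! Tuples: the coefficients of the zeta function as volumes, reindexing, translation. -/

set_option linter.unusedSectionVars false

open MvPolynomial

namespace Pool.Agent.P.MP_b91a16_ag.Id.Ln.Tu

noncomputable section

variable {k ι ρ : Type} [Field k] [Fintype ι] [Fintype ρ] [DecidableEq ρ]

namespace RL

theorem hasVol_away {κ : Type} [Fintype κ] (S : Set (MvPolynomial κ k)) (g : MvPolynomial κ k) :
    HasVol (fun _ _ _ x => (∀ p ∈ S, aeval x p = 0) ∧ aeval x g ≠ 0)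
      (algebraMap (K0 k) (Mot k)
        (cls k (Localization.Away (Ideal.Quotient.mk (Ideal.span S) g))) *
        Linv k ^ Fintype.card κ) := by
  refine ⟨Finset.univ, _, ?_, ⟨_, _, _, inferInstance, fun i => algebraMap
    (MvPolynomial κ k ⧸ Ideal.span S) _ (Ideal.Quotient.mk _ (X i)), fun K _ _ => ⟨?_, ?_⟩, rfl⟩,
    rfl⟩
  · intro K _ _ x y e hx
    rwa [show y = x from funext fun i => (e i (Finset.mem_univ i)).symm]
  · intro ψ ψ' e
    have : ψ.comp (IsScalarTower.toAlgHom k (MvPolynomial κ k ⧸ Ideal.span S) _) =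
        ψ'.comp (IsScalarTower.toAlgHom k (MvPolynomial κ k ⧸ Ideal.span S) _) :=
      Ideal.Quotient.algHom_ext k (MvPolynomial.algHom_ext e)
    apply AlgHom.coe_ringHom_injective
    apply IsLocalization.ringHom_ext (Submonoid.powers (Ideal.Quotient.mk (Ideal.span S) g))
    exact RingHom.ext fun z => DFunLike.congr_fun this z
  · intro x
    constructor
    · rintro ⟨⟨hx, hE⟩, -⟩
      let φ : (MvPolynomial κ k ⧸ Ideal.span S) →ₐ[k] K :=
        Ideal.Quotient.liftₐ _ (aeval x) fun z hz =>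
          (Ideal.span_le (I := RingHom.ker (aeval x : _ →ₐ[k] K).toRingHom)).2 hx hz
      have hu : IsUnit (φ (Ideal.Quotient.mk _ g)) := IsUnit.mk0 _ hE
      refine ⟨IsLocalization.Away.liftAlgHom (Ideal.Quotient.mk _ g) (f := φ) hu, fun i => ?_⟩
      exact (IsLocalization.Away.lift_eq (Ideal.Quotient.mk _ g) (g := φ.toRingHom) hu _).trans
        (aeval_X x i)
    · rintro ⟨ψ, hψ⟩
      have e : ∀ p, aeval x p = ψ (algebraMap (MvPolynomial κ k ⧸ Ideal.span S) _
          (Ideal.Quotient.mk _ p)) := fun p => by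
        rw [← algHom_aeval ((ψ.comp (IsScalarTower.toAlgHom k _ _)).comp
          (Ideal.Quotient.mkₐ k (Ideal.span S))) X x hψ, aeval_X_left_apply]
        rfl
      refine ⟨⟨fun p hp => ?_, ?_⟩, fun i hi => absurd (Finset.mem_univ i) hi⟩
      · rw [e, Ideal.Quotient.eq_zero_iff_mem.2 (Ideal.subset_span hp), map_zero, map_zero]
      · rw [e]
        exact ((IsLocalization.Away.algebraMap_isUnit _).map ψ).ne_zero

def je (n d : ℕ) : Fin n × Fin (d + 1) ↪ Fin n × ℕ := ⟨fun p => (p.1, p.2.1), fun _ _ h =>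
  Prod.ext (Prod.mk.inj h).1 (Fin.ext (Prod.mk.inj h).2)⟩

theorem aeval_mcoeff {K : Type} [Field K] [Algebra k K] {n : ℕ} (f : MvPolynomial (Fin n) k)
    (d p : ℕ) (hp : p ≤ d) (x : Fin n × ℕ → K) :
    aeval (x ∘ je n d) (mcoeff f d p) = PowerSeries.coeff p (aeval (ser x) f) := by
  let Φ : Polynomial (MvPolynomial (Fin n × Fin (d + 1)) k) →+* PowerSeries K :=
    Polynomial.coeToPowerSeries.ringHom.comp
      (Polynomial.mapRingHom (aeval (x ∘ je n d) : _ →ₐ[k] K).toRingHom)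
  have hΦ : ∀ q p, aeval (x ∘ je n d) (Polynomial.coeff q p) = PowerSeries.coeff p (Φ q) := by
    intro q p
    simp [Φ]
  have hC : ∀ c : k, Φ (algebraMap k _ c) = algebraMap k (PowerSeries K) c := fun c => by
    simp [Φ, Polynomial.algebraMap_apply, alg_ps]
  have h1 : Φ (aeval (mjet k n d) f) = aeval (fun j => Φ (mjet k n d j)) f :=
    algHom_aeval (⟨Φ, hC⟩ : _ →ₐ[k] PowerSeries K) _ _ (fun _ => rfl) f
  have h2 : ∀ j, PowerSeries.X ^ (d + 1) ∣ Φ (mjet k n d j) - ser x j := by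
    intro j
    rw [PowerSeries.X_pow_dvd_iff]
    intro p hp
    rw [map_sub, ← hΦ, sub_eq_zero]
    simp only [mjet, Polynomial.finsetSum_coeff, Polynomial.coeff_monomial]
    rw [Finset.sum_eq_single (⟨p, hp⟩ : Fin (d + 1))]
    · simp only [if_true, aeval_X, ser, PowerSeries.coeff_mk]
      rfl
    · intro l _ hl
      rw [if_neg]
      intro h
      exact hl (Fin.ext (by simpa using h))
    · simp
  have h3 := PowerSeries.X_pow_dvd_iff.1 (aeval_congr_dvd h2 f) p (by omega)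
  rw [map_sub, sub_eq_zero] at h3
  rw [mcoeff, hΦ, h1, h3]

def le (r : ℕ) : (Fin 2 ⊕ Fin r) × ℕ ↪ Fin (2 + r) × ℕ :=
  finSumFinEquiv.toEmbedding.prodMap (Function.Embedding.refl ℕ)

theorem GT_le {K : Type} [Field K] [Algebra k K] {r : ℕ} (f : Fin r ⊕ ρ → P2 k) (β : Fin r → ρ)
    (j : ρ) (x : Fin (2 + r) × ℕ → K) :
    GT f β j (ser (x ∘ le r)) = aeval (ser x) (gL f β j) := by
  simp only [GT, gL, map_add, map_sum, map_mul, aeval_X, aeval_rename]
  rfl

theorem tl_tl (b b' : Fin 2 → k) (h : ∀ j, b j + b' j = 0) (j : Fin 2) :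
    aeval (tl b) (tl b' j) = X j := by
  rw [tl, map_add, aeval_X, aeval_C, algebraMap_eq, tl, add_assoc, ← C_add, h, C_0, add_zero]

end RL

open RL

theorem zeta_ok : S_zeta k := by
  intro n t G e
  have hd : ∀ l, e l ≤ ∑ l, e l := fun l =>
    Finset.single_le_sum (f := fun l => e l) (fun _ _ => Nat.zero_le _) (Finset.mem_univ l)
  have h := (hasVol_away (k := k) {g | ∃ l p, p < e l ∧ g = mcoeff (G l) (∑ l, e l) p}
    (∏ l, mcoeff (G l) (∑ l, e l) (e l))).comap (je n (∑ l, e l))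
  have e1 : Linv k ^ n * MvPowerSeries.coeff e (mzeta G) =
      algebraMap (K0 k) (Mot k) (mclass G e (∑ l, e l)) *
        Linv k ^ Fintype.card (Fin n × Fin (∑ l, e l + 1)) := by
    rw [Fintype.card_prod, Fintype.card_fin, Fintype.card_fin]
    change _ * (algebraMap (K0 k) (Mot k) (mclass G e (∑ l, e l)) * Linv k ^ ((∑ l, e l) * n)) = _
    ring
  rw [e1]
  refine h.congr fun K _ _ x => ?_
  simp only [map_prod, Finset.prod_ne_zero_iff, Finset.mem_univ, true_imp_iff,
    aeval_mcoeff _ _ _ (hd _), PowerSeries.order_eq_nat, forall_and]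
  rw [and_comm]
  refine and_congr_right fun _ => ⟨fun H l p hp => ?_, ?_⟩
  · rw [← aeval_mcoeff _ _ p (hp.le.trans (hd l))]
    exact H _ ⟨l, p, hp, rfl⟩
  · rintro H _ ⟨l, p, hp, rfl⟩
    rw [aeval_mcoeff _ _ p (hp.le.trans (hd l))]
    exact H l p hp

theorem lift_ok : S_lift k ρ := by
  intro r f β e v h
  refine (HasVol.comap h (le r)).congr fun K _ _ x => ?_
  simp only [OT, GT_le]

theorem pt_ok : S_pt k ι ρ := by
  intro Ξ f β b e v h
  refine AV.aut (ψ := tl b) (ψ' := tl (-b)) (tl_tl _ _ fun j => by simp)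
    (tl_tl _ _ fun j => by simp) (h.congr fun K _ _ γ => ?_)
  rw [Th_pb]
  refine and_congr_left' (cen_iff.trans ?_)
  simp [At, Pt, tl, funext_iff, PowerSeries.X_dvd_iff, alg_ps]

end

end Pool.Agent.P.MP_b91a16_ag.Id.Ln.Tu
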