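import Pool.Agent.P.MP_b91a16_ag.Tu.Defs

/-! Monomial substitution in the generating series. -/

open MvPolynomial

namespace Pool.Agent.P.MP_b91a16_ag.Id.Ln.Tu

namespace RM

variable {R : Type*} {ρ ρ' : Type} [CommRing R] [Fintype ρ] [DecidableEq ρ] [Fintype ρ'] [DecidableEq ρ']

/-- the monomials that are substituted -/
noncomputable def mo (R : Type*) [CommRing R] (M : ρ' → ρ → ℕ) (j : ρ) : MvPowerSeries ρ' R :=
  ∏ l, MvPowerSeries.X l ^ M l j

omit [DecidableEq ρ] [DecidableEq ρ'] in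
theorem prod_mo (M : ρ' → ρ → ℕ) (d : ρ → ℕ) :
    ∏ j, mo R M j ^ d j = ∏ l, MvPowerSeries.X l ^ ∑ j, M l j * d j := by
  simp only [mo, ← Finset.prod_pow, ← pow_mul, ← Finset.prod_pow_eq_pow_sum]
  exact Finset.prod_comm

omit [DecidableEq ρ] [DecidableEq ρ'] in
theorem has (M : ρ' → ρ → ℕ) (h : ∀ j, ∃ l, M l j ≠ 0) : MvPowerSeries.HasSubst (mo R M) :=
  MvPowerSeries.hasSubst_of_constantCoeff_zero fun j => by
    obtain ⟨l, hl⟩ := h j
    rw [mo, map_prod, Finset.prod_eq_zero (Finset.mem_univ l) (by simpa using zero_pow hl)]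

/-- the exponents with a given image -/
noncomputable def fib (M : ρ' → ρ → ℕ) (e : ρ' →₀ ℕ) : Finset (ρ →₀ ℕ) :=
  (Finset.Iic (Finsupp.equivFunOnFinite.symm fun _ => ∑ l, e l)).filter
    fun d => ∀ l, ∑ j, M l j * d j = e l

omit [DecidableEq ρ'] in
theorem mem_fib {M : ρ' → ρ → ℕ} (h : ∀ j, ∃ l, M l j ≠ 0) {e : ρ' →₀ ℕ} {d : ρ →₀ ℕ} :
    d ∈ fib M e ↔ ∀ l, ∑ j, M l j * d j = e l := by
  rw [fib, Finset.mem_filter, Finset.mem_Iic, and_iff_right_iff_imp]
  intro hd j
  obtain ⟨l, hl⟩ := h j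
  calc d j ≤ M l j * d j := Nat.le_mul_of_pos_left _ (Nat.pos_of_ne_zero hl)
    _ ≤ ∑ j, M l j * d j :=
      Finset.single_le_sum (f := fun j => M l j * d j) (fun _ _ => Nat.zero_le _)
        (Finset.mem_univ j)
    _ = e l := hd l
    _ ≤ ∑ l, e l := Finset.single_le_sum (f := fun l => e l) (fun _ _ => Nat.zero_le _)
        (Finset.mem_univ l)

theorem coeff_sub {M : ρ' → ρ → ℕ} (h : ∀ j, ∃ l, M l j ≠ 0) (Y : MvPowerSeries ρ R)
    (e : ρ' →₀ ℕ) :
    MvPowerSeries.coeff e (MvPowerSeries.subst (mo R M) Y) =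
      ∑ d ∈ fib M e, MvPowerSeries.coeff d Y := by
  have key : ∀ d : ρ →₀ ℕ, MvPowerSeries.coeff e (d.prod fun s n => mo R M s ^ n) =
      if d ∈ fib M e then 1 else 0 := fun d => by
    rw [Finsupp.prod_fintype _ _ (fun _ => pow_zero _), prod_mo, ← one_mul (∏ l, _),
      ← map_one (MvPowerSeries.C (σ := ρ') (R := R)), mono_eq, MvPowerSeries.coeff_monomial]
    refine if_congr ?_ rfl rfl
    rw [mem_fib h]
    exact ⟨fun h1 l => by rw [h1]; rfl, fun h1 => Finsupp.ext fun l => (h1 l).symm⟩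
  rw [MvPowerSeries.coeff_subst (has M h), finsum_eq_sum_of_support_subset (s := fib M e)]
  · exact Finset.sum_congr rfl fun d hd => by rw [key, if_pos hd, smul_eq_mul, mul_one]
  · intro d hd
    by_contra h1
    exact hd (by
      beta_reduce
      rw [key, if_neg (show d ∉ fib M e from h1), smul_zero])

omit [DecidableEq ρ'] in
theorem ord_iff {K : Type} [Field K] {M : ρ' → ρ → ℕ} (h : ∀ j, ∃ l, M l j ≠ 0)
    (f : ρ → PowerSeries K) (e : ρ' →₀ ℕ) :
    (∃ d ∈ fib M e, ∀ j, (f j).order = d j) ↔ ∀ l, (∏ j, f j ^ M l j).order = e l := by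
  simp only [PowerSeries.order_prod, PowerSeries.order_pow, nsmul_eq_mul]
  constructor
  · rintro ⟨d, hd, h1⟩ l
    rw [← (mem_fib h).1 hd l]
    simp only [h1]
    push_cast
    rfl
  · intro h1
    have h2 : ∀ j, ∃ n : ℕ, (f j).order = n := fun j => by
      obtain ⟨l, hl⟩ := h j
      refine (ENat.ne_top_iff_exists.1 fun ht => ?_).imp fun _ => Eq.symm
      have h3 : (M l j : ℕ∞) * (f j).order ≤ e l :=
        (Finset.single_le_sum (f := fun j => (M l j : ℕ∞) * (f j).order)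
          (fun _ _ => zero_le) (Finset.mem_univ j)).trans (h1 l).le
      rw [ht, ENat.mul_top (by exact_mod_cast hl), top_le_iff] at h3
      exact ENat.natCast_ne_top _ h3
    choose n hn using h2
    refine ⟨Finsupp.equivFunOnFinite.symm n, (mem_fib h).2 fun l => ?_, hn⟩
    have h3 := h1 l
    simp only [hn] at h3
    exact_mod_cast h3

end RM

open RM

variable {k ρ ρ' : Type} [Field k] [Fintype ρ] [DecidableEq ρ] [Fintype ρ'] [DecidableEq ρ']

theorem sub_ok : S_sub k ρ ρ' := by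
  intro τ F M A Y hM hY hv
  let φ := MvPowerSeries.substAlgHom (R := Mot k) (has (R := Mot k) M hM)
  have hX : ∀ j, φ (MvPowerSeries.X j) = mo (Mot k) M j := fun j =>
    MvPowerSeries.substAlgHom_X _ j
  refine ⟨φ Y, ?_, fun e => ?_⟩
  · refine (Subalgebra.mem_comap _ φ Y).1 (Algebra.adjoin_le ?_ hY)
    rintro G (⟨j, rfl⟩ | ⟨p, hp, hG⟩)
    · change φ _ ∈ PR k _
      rw [hX]
      exact prod_mem fun l _ => pow_mem (show MvPowerSeries.X l ∈ PR k _ from
        Algebra.subset_adjoin (Or.inl ⟨l, rfl⟩)) _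
    · refine Algebra.subset_adjoin (Or.inr ⟨_, ⟨p, hp, rfl⟩, ?_⟩)
      have h1 := congrArg φ hG
      have h2 : φ (MvPowerSeries.C (Linv k ^ p.1)) = MvPowerSeries.C (Linv k ^ p.1) :=
        φ.commutes _
      simp only [map_mul, map_sub, map_one, map_prod, h2] at h1
      simp only [map_pow φ, hX, prod_mo] at h1
      exact h1
  · rw [MvPowerSeries.substAlgHom_apply, coeff_sub hM]
    refine HasVol.congr (hasVol_sum (fib M e)
      (fun d _ _ _ x => ∀ j, (aeval (ser x) (F j)).order = d j) _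
      (fun d _ => hv d) fun K _ _ γ d _ d' _ h h' => ?_) fun K _ _ x => ?_
    · ext j
      exact_mod_cast (h j).symm.trans (h' j)
    · simp only [map_prod, map_pow]
      exact ord_iff hM (fun j => aeval (ser x) (F j)) e

end Pool.Agent.P.MP_b91a16_ag.Id.Ln.Tu
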