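import Pool.Agent.P.MP_b91a16_ag.Tu.Defs

/-! Density lemmas for polynomials, and two small reductions. -/

open MvPolynomial

namespace Pool.Agent.P.MP_b91a16_ag.Id.Ln.Tu

namespace RN

/-- a polynomial that vanishes at infinitely many points of a line vanishes on the line -/
theorem line {σ K : Type} [Field K] (R : MvPolynomial σ K) (p d : σ → K) {S : Set K}
    (hS : S.Infinite) (h : ∀ u ∈ S, eval (fun i => p i + d i * u) R = 0) (u : K) :
    eval (fun i => p i + d i * u) R = 0 := by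
  have e : ∀ u : K, Polynomial.eval u (aeval (fun i => Polynomial.C (p i) +
      Polynomial.X * Polynomial.C (d i)) R) = eval (fun i => p i + d i * u) R := fun u => by
    rw [← Polynomial.coe_aeval_eq_eval, ← AlgHom.comp_apply, comp_aeval, aeval_eq_eval]
    simp
  rw [← e, Polynomial.eq_zero_of_infinite_isRoot _ (hS.mono fun v hv => (e v).trans (h v hv)),
    Polynomial.eval_zero]

variable {k ρ ρ' : Type} [Field k] [Fintype ρ] [DecidableEq ρ] [Fintype ρ']

omit [Fintype ρ] [DecidableEq ρ] in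
theorem eq_zero_of_rat [CharZero k] {p : MvPolynomial ρ k}
    (h : ∀ m : ρ → ℚ, eval (fun l => (m l : k)) p = 0) : p = 0 := by
  refine funext_set (fun _ => Set.range ((↑) : ℚ → k))
    (fun _ => Set.infinite_range_of_injective Rat.cast_injective) fun x hx => ?_
  choose m hm using fun l => hx l (Set.mem_univ l)
  rw [map_zero, ← h m]
  exact congrArg (fun x => eval x p) (funext hm).symm

theorem of_rat [CharZero k] {N : ρ → ℕ} (hN : N ≠ 0) (ν : ℕ) {b : MvPolynomial ρ k}
    (h : ∀ s : ρ → ℚ, ∑ l, N l * s l + ν = 0 → eval (fun l => (s l : k)) b = 0)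
    (s : ρ → k) (hs : ∑ l, N l * s l + ν = 0) : eval s b = 0 := by
  obtain ⟨l₀, hl₀⟩ := Function.ne_iff.1 hN
  replace hl₀ : N l₀ ≠ 0 := hl₀
  let φ : ρ → MvPolynomial ρ k := fun l =>
    X l - if l = l₀ then C ((N l₀ : k)⁻¹) * (∑ l, (N l : MvPolynomial ρ k) * X l + ν) else 0
  have e : ∀ s : ρ → k, eval s (bind₁ φ b) = eval (fun l =>
      s l - if l = l₀ then (N l₀ : k)⁻¹ * (∑ l, N l * s l + ν) else 0) b := fun s => by
    rw [← aeval_eq_eval, aeval_bind₁, aeval_eq_eval]
    congr 2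
    funext l
    simp only [φ]
    split_ifs <;> simp
  have h0 : bind₁ φ b = 0 := eq_zero_of_rat fun q => by
    rw [e]
    refine Eq.trans (congrArg (fun s => eval s b) (funext fun l => ?_))
      (h (fun l => q l - if l = l₀ then (N l₀ : ℚ)⁻¹ * (∑ l, N l * q l + ν) else 0) ?_)
    · split_ifs <;> simp
    · have : (N l₀ : ℚ) ≠ 0 := Nat.cast_ne_zero.2 hl₀
      simp only [mul_sub, Finset.sum_sub_distrib, mul_ite, mul_zero, Finset.sum_ite_eq',
        Finset.mem_univ, if_true]
      field_simp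
      ring
  simpa [h0, hs] using (e s).symm

theorem mul_mem_weyl {n : ℕ} (H : MvPolynomial (Fin n) k) : LinearMap.mulLeft k H ∈ weyl k n := by
  induction H using MvPolynomial.induction_on with
  | C c =>
    have : LinearMap.mulLeft k (C c : MvPolynomial (Fin n) k) = algebraMap k _ c :=
      LinearMap.ext fun x => by simp [smul_eq_C_mul]
    rw [this]
    exact Subalgebra.algebraMap_mem _ c
  | add f g hf hg =>
    have : LinearMap.mulLeft k (f + g) = LinearMap.mulLeft k f + LinearMap.mulLeft k g :=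
      LinearMap.ext fun x => by simp [add_mul]
    rw [this]
    exact add_mem hf hg
  | mul_X f i hf =>
    rw [LinearMap.mulLeft_mul]
    exact mul_mem hf (Algebra.subset_adjoin (Or.inl ⟨i, rfl⟩))

/-- a positive direction inside the lattice -/
theorem dir {Λ : Type} [Fintype Λ] {blk : Λ → ρ} {M : ρ' → ρ → ℕ} (hM : ∀ j, ∃ l, M l j ≠ 0)
    (hb : Function.Surjective blk) : ∃ (a : Λ → ℕ) (c : ℕ), (∀ l, 0 < a l) ∧ 0 < c ∧
      ∀ j, ∑ l with blk l = j, a l = ∑ l, c * M l j := by
  let n : ρ → ℕ := fun j => (Finset.univ.filter fun l => blk l = j).card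
  have hn : ∀ j, 0 < n j := fun j => by
    obtain ⟨l, hl⟩ := hb j
    exact Finset.card_pos.2 ⟨l, Finset.mem_filter.2 ⟨Finset.mem_univ l, hl⟩⟩
  have hc : 0 < ∏ j, n j := Finset.prod_pos fun j _ => hn j
  have hd : ∀ j, n j ∣ ∏ j, n j := fun j => Finset.dvd_prod_of_mem n (Finset.mem_univ j)
  refine ⟨fun l => (∏ j, n j) / n (blk l) * ∑ l', M l' (blk l), ∏ j, n j, fun l => ?_, hc,
    fun j => ?_⟩
  · refine Nat.mul_pos (Nat.div_pos (Nat.le_of_dvd hc (hd _)) (hn _)) ?_
    obtain ⟨l', hl'⟩ := hM (blk l)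
    exact (Nat.pos_of_ne_zero hl').trans_le
      (Finset.single_le_sum (f := fun l' => M l' (blk l)) (fun _ _ => Nat.zero_le _)
        (Finset.mem_univ l'))
  · rw [Finset.sum_congr rfl (g := fun _ => (∏ j, n j) / n j * ∑ l', M l' j)
      fun l hl => by simp only [(Finset.mem_filter.1 hl).2], Finset.sum_const, smul_eq_mul, ← mul_assoc,
      Nat.mul_div_cancel' (hd j), Finset.mul_sum]

theorem int_pts {Λ K : Type} [Fintype Λ] [Field K] [CharZero K] {blk : Λ → ρ} {M : ρ' → ρ → ℕ}
    {R : MvPolynomial (Λ ⊕ ρ') K} {a₀ : Λ → ℕ} (hM : ∀ j, ∃ l, M l j ≠ 0)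
    (hb : Function.Surjective blk)
    (h : ∀ (a : Λ → ℕ) (m : ρ' → ℕ), a₀ ≤ a →
      (∀ j, ∑ l with blk l = j, a l = ∑ l, m l * M l j) →
      eval (Sum.elim (fun l => (a l : K)) fun l => (m l : K)) R = 0)
    (z : Λ ⊕ ρ' → ℤ) (hz : ∀ j, ∑ l with blk l = j, z (.inl l) = ∑ l, z (.inr l) * M l j) :
    eval (fun i => (z i : K)) R = 0 := by
  obtain ⟨a, c, ha, hc, hac⟩ := dir hM hb
  let V : ℕ := ∑ i, (z i).natAbs + ∑ l, a₀ l
  have key := line R (fun i => (z i : K)) (Sum.elim (fun l => (a l : K)) fun _ => (c : K))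
    (Set.infinite_range_of_injective (f := fun v : ℕ => ((v + V : ℕ) : K))
      fun x y e => Nat.add_right_cancel (Nat.cast_injective (R := K) e)) ?_ 0
  · simpa using key
  rintro _ ⟨v, rfl⟩
  have h1 : ∀ i, (z i).natAbs ≤ ∑ i, (z i).natAbs := fun i =>
    Finset.single_le_sum (f := fun i => (z i).natAbs) (fun _ _ => Nat.zero_le _) (Finset.mem_univ i)
  have h2 : ∀ l, a₀ l ≤ ∑ l, a₀ l := fun l =>
    Finset.single_le_sum (f := a₀) (fun _ _ => Nat.zero_le _) (Finset.mem_univ l)
  have h3 : ∀ l, (a₀ l : ℤ) ≤ z (.inl l) + (a l * (v + V) : ℕ) := fun l => by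
    have := Nat.le_mul_of_pos_left (v + V) (ha l)
    have := h1 (.inl l)
    have := h2 l
    omega
  have h4 : ∀ l, 0 ≤ z (.inr l) + (c * (v + V) : ℕ) := fun l => by
    have := Nat.le_mul_of_pos_left (v + V) hc
    have := h1 (.inr l)
    omega
  choose a' h5 using fun l => Int.eq_ofNat_of_zero_le ((Int.natCast_nonneg _).trans (h3 l))
  choose m' h6 using fun l => Int.eq_ofNat_of_zero_le (h4 l)
  refine Eq.trans (congrArg (fun s => eval s R) (funext fun i => ?_))
    (h a' m' (fun l => ?_) fun j => ?_)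
  · rcases i with l | l
    · simpa using congrArg (Int.cast : ℤ → K) (h5 l)
    · simpa using congrArg (Int.cast : ℤ → K) (h6 l)
  · have := h3 l
    rw [h5 l] at this
    exact_mod_cast this
  · refine Nat.cast_injective (R := ℤ) ?_
    have e : ∑ l with blk l = j, (a l : ℤ) = ∑ l, (c : ℤ) * M l j := by exact_mod_cast hac j
    rw [Nat.cast_sum, Nat.cast_sum]
    simp only [Nat.cast_mul (m' _), ← h5, ← h6]
    simp only [Nat.cast_mul, add_mul, Finset.sum_add_distrib]
    rw [hz j, ← Finset.sum_mul, e, Finset.sum_mul]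
    exact congrArg _ (Finset.sum_congr rfl fun l _ => by ring)

end RN

variable {k ρ ρ' : Type} [Field k] [Fintype ρ] [DecidableEq ρ] [Fintype ρ']

theorem den_ok [CharZero k] : S_den k ρ := by
  intro b ν N hν hN h
  refine RN.of_rat hN ν fun s hs => ?_
  obtain ⟨l₀, hl₀⟩ := Function.ne_iff.1 hN
  have hS : (0 : ℚ) < ∑ j, (N j : ℚ) := by
    have h1 : N l₀ ≤ ∑ j, N j :=
      Finset.single_le_sum (f := N) (fun _ _ => Nat.zero_le _) (Finset.mem_univ l₀)
    exact_mod_cast (Nat.pos_of_ne_zero hl₀).trans_le h1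
  let c : ℚ := -(ν : ℚ) / ∑ j, (N j : ℚ)
  have hc : c < 0 := div_neg_of_neg_of_pos (by simpa using hν) hS
  have hc' : (∑ j, (N j : ℚ)) * c = -ν := mul_div_cancel₀ _ hS.ne'
  have hU : {u : ℚ | ∀ j, c + (s j - c) * u < 0}.Infinite := by
    refine infinite_of_mem_nhds (0 : ℚ) (Filter.eventually_all.2 fun j => ?_)
    exact (isOpen_lt (f := fun u : ℚ => c + (s j - c) * u) (g := fun _ => 0) (by fun_prop)
      continuous_const).mem_nhds (by simpa using hc)
  have key := RN.line b (fun _ => (c : k)) (fun j => (s j : k) - c)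
    (hU.image (Rat.cast_injective (α := k)).injOn) ?_ 1
  · simpa using key
  rintro _ ⟨u, hu, rfl⟩
  refine Eq.trans (congrArg (fun s => eval s b) (funext fun j => ?_))
    (h (fun j => c + (s j - c) * u) hu ?_)
  · push_cast; rfl
  · have e : ∑ j, (N j : ℚ) * (c + (s j - c) * u) =
        (∑ j, (N j : ℚ)) * c * (1 - u) + (∑ j, (N j : ℚ) * s j) * u := by
      rw [Finset.sum_mul, Finset.sum_mul, Finset.sum_mul, ← Finset.sum_add_distrib]
      exact Finset.sum_congr rfl fun j _ => by ring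
    rw [e, hc']
    linear_combination u * hs

theorem beq_ok : S_beq k ρ := by
  intro n t F M b hM ⟨d, c, P, hP, h⟩
  refine ⟨d, c, fun i => P i * LinearMap.mulLeft k (∏ j, F j ^ (∑ l, M l j - 1)),
    fun i => mul_mem (hP i) (RN.mul_mem_weyl _), fun m => ?_⟩
  have e : ∀ m : Fin t → ℕ, ∏ l, (∏ j, F j ^ M l j) ^ m l = ∏ j, F j ^ ∑ l, m l * M l j :=
    fun m => by
      simp only [← Finset.prod_pow, ← pow_mul]
      rw [Finset.prod_comm]
      refine Finset.prod_congr rfl fun j _ => ?_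
      rw [Finset.prod_pow_eq_pow_sum]
      exact congrArg _ (Finset.sum_congr rfl fun l _ => mul_comm _ _)
  have h1 := h m
  beta_reduce at h1
  rw [e fun l => m l + 1, e m] at h1
  rw [← h1]
  refine Finset.sum_congr rfl fun i _ => ?_
  rw [Module.End.mul_apply, LinearMap.mulLeft_apply, ← Finset.prod_mul_distrib]
  congr 2
  refine Finset.prod_congr rfl fun j _ => ?_
  obtain ⟨l, hl⟩ := hM j
  have h2 : M l j ≤ ∑ l, M l j :=
    Finset.single_le_sum (f := fun l => M l j) (fun _ _ => Nat.zero_le _) (Finset.mem_univ l)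
  rw [← pow_add]
  congr 1
  simp only [add_mul, one_mul, Finset.sum_add_distrib]
  omega

theorem fin_ok : S_fin k := by
  intro t A Z h
  have mono : ∀ {S S' : Finset (ℕ × (Fin t → ℕ))} {Y : MvPowerSeries (Fin t) (Mot k)}, S ⊆ S' →
      InPoleRingM (Linv k) S Y → InPoleRingM (Linv k) S' Y := fun hS hY =>
    Algebra.adjoin_mono (Set.union_subset_union_right _ fun _ hG =>
      Exists.imp (fun _ hp => ⟨hS hp.1, hp.2⟩) hG) hY
  induction h using Algebra.adjoin_induction with
  | mem G h =>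
    rcases h with h | ⟨p, h1, h2⟩
    · exact ⟨∅, by simp, Algebra.subset_adjoin (Or.inl h)⟩
    · exact ⟨{p}, by simpa using h1,
        Algebra.subset_adjoin (Or.inr ⟨p, Finset.mem_singleton_self _, h2⟩)⟩
  | algebraMap c => exact ⟨∅, by simp, Subalgebra.algebraMap_mem _ c⟩
  | add _ _ _ _ h h' =>
    obtain ⟨S, h1, h2⟩ := h
    obtain ⟨S', h1', h2'⟩ := h'
    exact ⟨S ∪ S', fun p hp => (Finset.mem_union.1 hp).elim (h1 p) (h1' p),
      add_mem (mono Finset.subset_union_left h2) (mono Finset.subset_union_right h2')⟩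
  | mul _ _ _ _ h h' =>
    obtain ⟨S, h1, h2⟩ := h
    obtain ⟨S', h1', h2'⟩ := h'
    exact ⟨S ∪ S', fun p hp => (Finset.mem_union.1 hp).elim (h1 p) (h1' p),
      mul_mem (mono Finset.subset_union_left h2) (mono Finset.subset_union_right h2')⟩

theorem lat_ok : S_lat ρ ρ' := by
  intro Λ K _ _ _ blk M R a₀ hM hb h s s' hs
  obtain ⟨⟨d, hd⟩, hz⟩ := IsLocalization.exist_integer_multiples_of_finite (nonZeroDivisors ℤ)
    (Sum.elim s s')
  have hd0 : (d : K) ≠ 0 := Int.cast_ne_zero.2 (nonZeroDivisors.ne_zero hd)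
  choose z hz using hz
  have hz' : ∀ i, (z i : ℚ) = d * Sum.elim s s' i := fun i => by simpa using hz i
  have key := RN.line R (fun _ => 0) (fun i => (z i : K))
    (Set.infinite_range_of_injective (Nat.cast_injective (R := K))) ?_ (d : K)⁻¹
  · refine Eq.trans (congrArg (fun s => eval s R) (funext fun i => ?_)) key
    have e : (z i : K) = d * ((Sum.elim s s' i : ℚ) : K) := by
      simpa using congrArg (Rat.cast : ℚ → K) (hz' i)
    rw [e, zero_add, mul_right_comm, mul_inv_cancel₀ hd0, one_mul]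
    rcases i with l | l <;> rfl
  rintro _ ⟨u, rfl⟩
  refine Eq.trans (congrArg (fun s => eval s R) (funext fun i => ?_))
    (RN.int_pts hM hb h (fun i => z i * u) fun j => ?_)
  · push_cast; rw [zero_add]
  · refine Int.cast_injective (α := ℚ) ?_
    push_cast
    simp only [hz', Sum.elim_inl, Sum.elim_inr]
    rw [← Finset.sum_mul, ← Finset.mul_sum, hs j, Finset.mul_sum, Finset.sum_mul]
    exact Finset.sum_congr rfl fun l _ => by ring

end Pool.Agent.P.MP_b91a16_ag.Id.Ln.Tu
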