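import Pool.Agent.P.MP_b91a16_ag.Tu.Fin
import Pool.Agent.P.MP_b91a16_ag.Tu.RA
import Pool.Agent.P.MP_b91a16_ag.Tu.RB
import Pool.Agent.P.MP_b91a16_ag.Tu.RC
import Pool.Agent.P.MP_b91a16_ag.Tu.RD
import Pool.Agent.P.MP_b91a16_ag.Tu.RE
import Pool.Agent.P.MP_b91a16_ag.Tu.RF
import Pool.Agent.P.MP_b91a16_ag.Tu.RG
import Pool.Agent.P.MP_b91a16_ag.Tu.RH
import Pool.Agent.P.MP_b91a16_ag.Tu.RI
import Pool.Agent.P.MP_b91a16_ag.Tu.RJ
import Pool.Agent.P.MP_b91a16_ag.Tu.RK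
import Pool.Agent.P.MP_b91a16_ag.Tu.RL
import Pool.Agent.P.MP_b91a16_ag.Tu.RM
import Pool.Agent.P.MP_b91a16_ag.Tu.RN

/-! Tuples of products of polynomials of degree at most one in separate blocks: assembly. -/

open MvPolynomial

namespace Pool.Agent.P.MP_b91a16_ag.Id.Ln.Tu

noncomputable section

variable {k ρ : Type} [Field k] [CharZero k] [IsAlgClosed k] [Fintype ρ] [DecidableEq ρ]

theorem main0 {r t : ℕ} (f : Fin r ⊕ ρ → P2 k) (β : Fin r → ρ) (M : Fin t → ρ → ℕ)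
    (hf : ∀ j, gL f β j ≠ 0) (hM : ∀ j, ∃ l, M l j ≠ 0) :
    ∃ S : Finset (ℕ × (Fin t → ℕ)), InPoleRingM (Linv k) S (mzeta fun l => ∏ j, gL f β j ^ M l j) ∧
      ∀ p ∈ S, 0 < p.1 ∧ p.2 ≠ 0 ∧ ∀ b, InBSIdeal (fun l => ∏ j, gL f β j ^ M l j) b →
        ∀ s : Fin t → k, ∑ l, (p.2 l : k) * s l + (p.1 : k) = 0 → eval s b = 0 :=
  main_of f β M hM (global conT_ok (fakeT_ok blk_ok elimT_ok) rBr4_ok rA4_ok rB4_ok neg4_ok trn4_ok
    pt_ok (cov_ok bez_ok pd_ok mul_ok conT_ok cst_ok atv_ok (crv_ok conT_ok)) rc4_ok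
    (totT_ok blk_ok) f β (gL_ne hf)) lift_ok sub_ok zeta_ok fin_ok den_ok beq_ok (tw4_ok lat_ok)

theorem main {r t : ℕ} (f : Fin r ⊕ ρ → P2 k) (β : Fin r → ρ) (M : Fin t → ρ → ℕ)
    (hf : ∀ j, gL f β j ≠ 0) :
    ∃ S : Finset (ℕ × (Fin t → ℕ)), InPoleRingM (Linv k) S (mzeta fun l => ∏ j, gL f β j ^ M l j) ∧
      ∀ p ∈ S, 0 < p.1 ∧ p.2 ≠ 0 ∧ ∀ b, InBSIdeal (fun l => ∏ j, gL f β j ^ M l j) b →
        ∀ s : Fin t → k, ∑ l, (p.2 l : k) * s l + (p.1 : k) = 0 → eval s b = 0 := by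
  classical
  rcases t with _ | t
  · refine ⟨∅, ?_, by simp⟩
    generalize (mzeta fun l => ∏ j, gL f β j ^ M l j) = Z
    have : Z = algebraMap _ _ (MvPowerSeries.coeff 0 Z) := by
      ext e
      rw [Subsingleton.elim e 0]
      exact (MvPowerSeries.coeff_zero_C _).symm
    rw [this]
    exact Subalgebra.algebraMap_mem _ _
  let U : ρ → Prop := fun j => ∃ l, M l j ≠ 0
  let f' : Fin r ⊕ ρ → P2 k := Sum.elim (fun i => if U (β i) then f (.inl i) else 0)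
    fun j => if U j then f (.inr j) else 1
  have h1 : ∀ j, gL f' β j = if U j then gL f β j else 1 := fun j => by
    split_ifs with h
    · simp only [gL, f', Sum.elim_inl, Sum.elim_inr, if_pos h]
      congr 1
      exact Finset.sum_congr rfl fun i hi => by rw [(Finset.mem_filter.1 hi).2, if_pos h]
    · simp only [gL, f', Sum.elim_inl, Sum.elim_inr, if_neg h, map_one]
      rw [Finset.sum_eq_zero fun i hi => by
        rw [(Finset.mem_filter.1 hi).2, if_neg h, map_zero, mul_zero], add_zero]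
  have h2 : (fun l => ∏ j, gL f' β j ^ (if U j then M l j else 1)) =
      fun l => ∏ j, gL f β j ^ M l j := _root_.funext fun l => Finset.prod_congr rfl fun j _ => by
    rw [h1]
    split_ifs with h
    · rfl
    · rw [show M l j = 0 from not_not.1 fun h' => h ⟨l, h'⟩, pow_zero, one_pow]
  rw [← h2]
  refine main0 f' β _ (fun j => ?_) fun j => ?_
  · rw [h1]
    split_ifs
    exacts [hf j, one_ne_zero]
  · split_ifs with h
    exacts [h, ⟨0, one_ne_zero⟩]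

end

end Pool.Agent.P.MP_b91a16_ag.Id.Ln.Tu
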