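import Pool.Agent.P.MP_b91a16_ag.Tu.Defs

/-! Package K: the plane is covered by points, open pieces of curves and an open set. -/

set_option linter.unusedSectionVars false

open MvPolynomial

namespace Pool.Agent.P.MP_b91a16_ag.Id.Ln.Tu

noncomputable section

namespace RK

variable {k ι ρ : Type} [Field k] [CharZero k] [IsAlgClosed k] [Fintype ι] [Fintype ρ]
  [DecidableEq ρ] {J : Finset ρ} {A : Set (ℕ × (ρ → ℕ))} {f : ι ⊕ ρ → P2 k} {β : ι → ρ}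
  {Ψ Ψ' : AP k (Fin 2)}

theorem gd_congr (h : Gd J A f β Ψ)
    (e : ∀ (K : Type) [Field K] [Algebra k K] γ, Ψ K γ ↔ Ψ' K γ) : Gd J A f β Ψ' := by
  obtain ⟨Z, h1, h2⟩ := h
  exact ⟨Z, h1, fun s e' => (h2 s e').congr fun K _ _ γ => and_congr_left' (e K γ)⟩

theorem gd_union (h : Gd J A f β Ψ) (h' : Gd J A f β Ψ')
    (hd : ∀ (K : Type) [Field K] [Algebra k K] γ, Ψ K γ → Ψ' K γ → False) :
    Gd J A f β fun K _ _ γ => Ψ K γ ∨ Ψ' K γ := by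
  obtain ⟨Z, h1, h2⟩ := h
  obtain ⟨Z', h1', h2'⟩ := h'
  refine ⟨Z + Z', h1.add h1', fun s e => ?_⟩
  rw [Pi.add_apply, map_add]
  exact ((h2 s e).union (h2' s e) fun K _ _ γ a b => hd K γ a.1 b.1).congr fun K _ _ γ =>
    or_and_right.symm

theorem gd_false (h : ∀ (K : Type) [Field K] [Algebra k K] γ, ¬Ψ K γ) : Gd J A f β Ψ :=
  ⟨0, ok_zero, fun s e => by
    rw [Pi.zero_apply, map_zero]
    exact av_false fun K _ _ γ a => h K γ a.1⟩

theorem c_mem (c : Mot k) : MvPowerSeries.C c ∈ PR k A := Subalgebra.algebraMap_mem _ c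

theorem wt_mem (s : ρ → Bool) : WT k J s ∈ PR k A := by
  refine prod_mem fun j _ => ?_
  split_ifs
  · exact c_mem _
  · exact sub_mem (one_mem _) (mul_mem (c_mem _) (Algebra.subset_adjoin (Or.inl ⟨j, rfl⟩)))
  · exact one_mem _

theorem gd_of_PR (h : ∀ s, ∃ Z ∈ PR k A,
    ∀ e, AV (An Ψ (Th (ΞT β s) f (bp β) e)) (MvPowerSeries.coeff e Z)) : Gd J A f β Ψ := by
  choose Z h1 h2 using h
  exact ⟨Z, sum_mem fun s _ => mul_mem (wt_mem s) (h1 s), h2⟩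

theorem pt_inj {b b' : Fin 2 → k} {K : Type} [Field K] [Algebra k K] {x : Fin 2 → K}
    (h : Pt b K x) (h' : Pt b' K x) : b = b' := by
  funext a
  exact (algebraMap k K).injective (congrFun (h.symm.trans h') a)

theorem gd_pts (h : ∀ b, Gd J A f β (At (Pt b))) (B : Finset (Fin 2 → k)) :
    Gd J A f β fun K _ _ γ => ∃ b ∈ B, At (Pt b) K γ := by
  classical
  induction B using Finset.induction_on with
  | empty => exact gd_false fun K _ _ γ a => by simp at a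
  | insert b B hb ih =>
    refine gd_congr (gd_union (h b) ih fun K _ _ γ h1 ⟨b', h2, h3⟩ => ?_) fun K _ _ γ => by simp
    exact hb (pt_inj h1 h3 ▸ h2)

theorem gd_cst (hc : S_conT k ι ρ) (hs : S_cst k (ι ⊕ ρ) ρ) {Q : Pred k (Fin 2)} {v : Mot k}
    (hv : AV (At Q) v) (h : ∀ (K : Type) [Field K] [Algebra k K] x, Q K x →
      ∀ j, ∃ l, bp β l = j ∧ aeval x (f l) ≠ 0) : Gd J A f β (At Q) :=
  gd_of_PR fun s => by
    obtain ⟨w, hw⟩ := hs (ΞT β s) f (bp β) Q v (hc β s) hv h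
    exact ⟨_, c_mem w, hw⟩

theorem gd_prime (h1 : S_bez k) (h2 : S_pd k) (h3 : S_mul k (ι ⊕ ρ) ρ) (h4 : S_conT k ι ρ)
    (h5 : S_cst k (ι ⊕ ρ) ρ) (h6 : S_atv k) (h7 : S_crv k ι ρ)
    (hf : ∀ j, ∃ l, bp β l = j ∧ f l ≠ 0)
    (hA : ∀ (P : P2 k) (m : ρ → ℕ) (h : ι ⊕ ρ → P2 k), Prime P →
      (∀ l, f l = P ^ m (bp β l) * h l) → (∀ j, ∃ l, bp β l = j ∧ ¬P ∣ h l) → m ≠ 0 → (1, m) ∈ A)
    {P : P2 k} (hP : Prime P) :
    ∃ B₀ : Finset (Fin 2 → k), ∀ B, B₀ ⊆ B → Gd J A f β (At (Vz P B)) := by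
  classical
  obtain ⟨m, h, e1, e2⟩ := h3 f (bp β) P hP hf
  obtain ⟨a, ha⟩ := h2 P hP
  obtain ⟨B₁, hB₁⟩ := h1 P _ hP ha
  have e3 := e2
  choose l hl1 hl2 using e3
  choose B₂ hB₂ using fun j => h1 P _ hP (hl2 j)
  refine ⟨B₁ ∪ Finset.univ.biUnion B₂, fun B hB => ?_⟩
  obtain ⟨v, hv⟩ := (h6 P B).1
  have key : ∀ (K : Type) [Field K] [Algebra k K] x, Vz P B K x →
      ∀ j, aeval x (h (l j)) ≠ 0 := fun K _ _ x hx j h0 => by
    obtain ⟨b, hb, hb'⟩ := hB₂ j K x hx.1 h0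
    exact hx.2 b (hB (Finset.mem_union_right _ (Finset.mem_biUnion.2 ⟨j, Finset.mem_univ _, hb⟩)))
      hb'
  by_cases hm : m = 0
  · refine gd_cst h4 h5 hv fun K _ _ x hx j => ⟨l j, hl1 j, ?_⟩
    rw [e1, hm, Pi.zero_apply, pow_zero, one_mul]
    exact key K x hx j
  · refine gd_of_PR fun s => h7 A f h β P m _ v s hm (hA P m h hP e1 e2 hm) e1 hv
      fun K _ _ x hx => ⟨hx.1, ⟨a, fun h0 => ?_⟩, fun j => ⟨l j, hl1 j, key K x hx j⟩⟩
    obtain ⟨b, hb, hb'⟩ := hB₁ K x hx.1 h0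
    exact hx.2 b (hB (Finset.mem_union_left _ hb)) hb'

theorem gd_curve (h1 : S_bez k)
    (hp : ∀ P : P2 k, Prime P →
      ∃ B₀ : Finset (Fin 2 → k), ∀ B, B₀ ⊆ B → Gd J A f β (At (Vz P B))) (G : P2 k) :
    G ≠ 0 → ∃ B₀ : Finset (Fin 2 → k), ∀ B, B₀ ⊆ B → Gd J A f β (At (Vz G B)) := by
  classical
  induction G using UniqueFactorizationMonoid.induction_on_prime with
  | h₁ => exact fun h => (h rfl).elim
  | h₂ G hG =>
    exact fun _ => ⟨∅, fun B _ => gd_false fun K _ _ γ h =>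
      (hG.map (aeval fun a => PowerSeries.constantCoeff (γ a))).ne_zero h.1⟩
  | h₃ G P hG hP ih =>
    intro _
    obtain ⟨B₁, hB₁⟩ := ih hG
    by_cases hd : P ∣ G
    · obtain ⟨G', rfl⟩ := hd
      refine ⟨B₁, fun B hB => gd_congr (hB₁ B hB) fun K _ _ γ => and_congr_left' ?_⟩
      simp only [map_mul, mul_eq_zero, or_self_left]
    · obtain ⟨B₂, hB₂⟩ := hp P hP
      obtain ⟨B₃, hB₃⟩ := h1 P G hP hd
      refine ⟨B₁ ∪ B₂ ∪ B₃, fun B hB => ?_⟩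
      simp only [Finset.union_subset_iff] at hB
      refine gd_congr (gd_union (hB₂ B hB.1.2) (hB₁ B hB.1.1) fun K _ _ γ a b => ?_)
        fun K _ _ γ => ?_
      · obtain ⟨c, hc, hc'⟩ := hB₃ K _ a.1 b.1
        exact a.2 c (hB.2 hc) hc'
      · simp only [At, Vz, map_mul, mul_eq_zero, or_and_right]

end RK

open RK in
theorem cov_ok {k ι ρ : Type} [Field k] [CharZero k] [IsAlgClosed k] [Fintype ι] [Fintype ρ]
    [DecidableEq ρ] (h1 : S_bez k) (h2 : S_pd k) (h3 : S_mul k (ι ⊕ ρ) ρ) (h4 : S_conT k ι ρ)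
    (h5 : S_cst k (ι ⊕ ρ) ρ) (h6 : S_atv k) (h7 : S_crv k ι ρ) : S_cov k ι ρ := by
  intro J A f β hf hb hA
  have e := hf
  choose l hl1 hl2 using e
  obtain ⟨B, hB⟩ := gd_curve (J := J) h1 (fun P hP => gd_prime h1 h2 h3 h4 h5 h6 h7 hf hA hP)
    (∏ j, f (l j)) (Finset.prod_ne_zero_iff.2 fun j _ => hl2 j)
  obtain ⟨v, hv⟩ := (h6 (∏ j, f (l j)) B).2
  have hU : Gd J A f β (At (Uz (∏ j, f (l j)) B)) := gd_cst h4 h5 hv fun K _ _ x hx j =>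
    ⟨l j, hl1 j, fun h0 => hx.1 (by
      rw [map_prod]
      exact Finset.prod_eq_zero (Finset.mem_univ j) h0)⟩
  refine gd_congr (gd_union (gd_pts hb B) (gd_union (hB B subset_rfl) hU
    fun K _ _ γ a b => b.1 a.1) fun K _ _ γ ⟨b, hb1, hb2⟩ a => ?_) fun K _ _ γ => ?_
  · exact a.elim (fun a => a.2 b hb1 hb2) fun a => a.2 b hb1 hb2
  · refine iff_true_intro ?_
    by_cases h : ∃ b ∈ B, At (Pt b) K γ
    · exact Or.inl h
    · have h' : ∀ b ∈ B, ¬Pt b K fun a => PowerSeries.constantCoeff (γ a) :=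
        fun b hb1 hb2 => h ⟨b, hb1, hb2⟩
      exact Or.inr ((em _).imp (fun a => ⟨a, h'⟩) fun a => ⟨a, h'⟩)

end

end Pool.Agent.P.MP_b91a16_ag.Id.Ln.Tu
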